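import Pool.Agent.Helper64.AM.E5

/-!
# Section 10: the equation and the smoothness of the limit (10.2), (10.3)

`RegThm n` is the statement of Theorem R (section 7, helper87) for dimension `n`.
-/

set_option autoImplicit false

namespace Pool.Agent.Helper29.AM

open MeasureTheory Set Filter Topology
open scoped ComplexOrder

/-- the statement of Theorem R -/
def RegThm (n : ℕ) : Prop := ∀ (Ω : Set (V n)), IsOpen Ω → ∀ (u : V n → ℝ) (H : V n → Mat n),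
  BH Ω u H → ∀ τ : ℝ, 0 ≤ τ → ∀ k : V n → ℝ, ContDiffOn ℝ (⊤ : ℕ∞) k Ω →
  (∀ᵐ z, z ∈ Ω → (H z).det = ((Real.exp (τ * u z + k z) : ℝ) : ℂ)) →
  ∃ u' : V n → ℝ, ContDiffOn ℝ (⊤ : ℕ∞) u' Ω ∧ ∀ᵐ z, z ∈ Ω → u z = u' z

/-- a continuous function on an open set which vanishes a.e. on it vanishes -/
theorem eqOn_of_ae_eq {n : ℕ} {Ω : Set (V n)} (hΩ : IsOpen Ω) {u v : V n → ℝ}
    (hu : ContinuousOn u Ω) (hv : ContinuousOn v Ω) (h : ∀ᵐ z, z ∈ Ω → u z = v z) :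
    ∀ z ∈ Ω, u z = v z := by
  have h1 : u =ᵐ[volume.restrict Ω] v := by
    rw [Filter.EventuallyEq, ae_restrict_iff' hΩ.measurableSet]
    exact h
  intro z hz
  exact MeasureTheory.Measure.eqOn_open_of_ae_eq h1 hΩ hu hv hz

namespace Atl

variable {X : Type} [TopologicalSpace X] [MeasurableSpace X] {n N : ℕ} (A : Atl X n N)
variable [CompactSpace X] [T2Space X] [BorelSpace X]

/-- (10.2) -/
theorem limit_det (hn : 0 < n) (hV : A.VolLe) {D : Set X} (hD : IsOpen D) (hD0 : A.μ Dᶜ = 0)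
    {C₀ : ℝ} {Φ : X → ℝ} (hΦ : A.St 0 C₀ Φ) {b : X → ℝ} (hb : ContinuousOn b D)
    (hbΦ : ∀ x ∈ D, b x ≤ Φ x) {H : Fin N → V n → Mat n}
    (hH : ∀ i, BH (A.Oh i D) (A.pot i Φ) (H i)) (i : Fin N) :
    ∀ᵐ z, z ∈ A.Oh i D → (H i z).det.re = A.f i z := by
  have hc := cn_pos n
  obtain ⟨m, hm, hmX⟩ := hV _ hΦ.psx
  -- the measure `m` in the charts
  have hma : ∀ j, ∀ χ : V n → ℝ, Tst (A.Oh j D) χ →
      ∫ x in A.Bi j 3, χ (A.e j x) ∂m = cn n * ∫ z, χ z * (H j z).det.re := by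
    intro j χ hχ
    have hO := A.isOpen_Oh j hD
    have hbc : ContinuousOn (fun z => A.g j z + b ((A.e j).symm z)) (A.Oh j D) := by
      refine ContinuousOn.add ((A.g_smooth j).continuousOn.mono (A.Oh_subset_target j D)) ?_
      exact hb.comp (A.continuousOn_symm_Oh j D) fun z hz => hz.2
    obtain ⟨G, hG, hKG, hGO, B, hB⟩ := exists_open_bdd hO hχ.cpt hχ.sub hbc
    have hlow : ∀ᵐ z, z ∈ G → -B ≤ A.pot j Φ z := by
      refine ae_of_all _ fun z hz => ?_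
      have h1 := (abs_le.1 (hB z hz)).1
      have h2 := hbΦ _ (hGO hz).2
      simp only [pot, lc]
      linarith
    have h1 := hm j G hG (hGO.trans (A.Oh_subset_B3 j D)) ⟨B, hlow⟩ χ
      ⟨hχ.smooth, hχ.cpt, hKG, hχ.nonneg⟩
    have h2 := (BH.tendsto_det hO (hH j) hχ).const_mul (cn n)
    refine tendsto_nhds_unique h1 (h2.congr fun ε => ?_)
    rw [← integral_const_mul]
    refine integral_congr_ae (ae_of_all _ fun z => ?_)
    show cn n * (χ z * _) = χ z * (cn n * _)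
    ring
  have hge : ∀ j, ∀ᵐ z, z ∈ A.Oh j D → A.f j z ≤ (H j z).det.re := by
    intro j
    have hO := A.isOpen_Oh j hD
    have h1 := BH.GP_of_GS hn hO (hH j) ((hΦ.gs j).mono_set hO (A.Oh_subset_B3 j D))
    filter_upwards [h1] with z hz hzO
    have h2 := (hz hzO).2
    rw [A.Ft_zero, one_div, Real.rpow_inv_natCast_pow (A.f_pos_Oh hzO).le (by omega)] at h2
    exact h2
  have hfi : ∀ j, ∀ χ : V n → ℝ, Tst (A.Oh j D) χ → Integrable fun z => χ z * A.f j z :=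
    fun j χ hχ => l4_integrable_mul (A.isOpen_Oh j hD) hχ.smooth.continuous hχ.cpt hχ.sub
      ((A.f_smooth j).continuousOn.mono (A.Oh_subset_target j D))
  have hint : ∀ (j : Fin N) (η : V n → ℝ), ∫ z, η z * (cn n * A.f j z) =
      cn n * ∫ z, η z * A.f j z := by
    intro j η
    rw [← integral_const_mul]
    refine integral_congr_ae (ae_of_all _ fun z => ?_)
    show η z * (cn n * A.f j z) = cn n * (η z * A.f j z)
    ring
  have hmc := A.mass_compare hD hD0 hmX zero_le_one (fun j χ hχ => by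
    rw [hint, one_mul, hma j χ hχ]
    refine mul_le_mul_of_nonneg_left ?_ hc.le
    refine integral_mono_ae (hfi j χ hχ) ((hH j).integrable_det hχ) ?_
    filter_upwards [hge j] with z hz
    by_cases hzO : z ∈ A.Oh j D
    · exact mul_le_mul_of_nonneg_left (hz hzO) (hχ.nonneg z)
    · have h8 : χ z = 0 := image_eq_zero_of_notMem_tsupport fun h => hzO (hχ.sub h)
      rw [h8, zero_mul, zero_mul])
  have h3 := ae_eq_zero_of_test (A.isOpen_Oh i hD) (w := fun z => (H i z).det.re - A.f i z)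
    (fun χ hχ => by
      have := ((hH i).integrable_det hχ).sub (hfi i χ hχ)
      refine this.congr (ae_of_all _ fun z => ?_)
      show χ z * _ - χ z * _ = _
      ring) (by
      filter_upwards [hge i] with z hz hzO
      linarith [hz hzO]) (fun χ hχ hχ1 => by
      have h4 := hmc i χ hχ hχ1
      rw [hint, one_mul, hma i χ hχ, sub_self, zero_mul, add_zero] at h4
      have h5 := le_of_mul_le_mul_left h4 hc
      have h6 : ∫ z, χ z * ((H i z).det.re - A.f i z) =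
          (∫ z, χ z * (H i z).det.re) - ∫ z, χ z * A.f i z := by
        rw [← integral_sub ((hH i).integrable_det hχ) (hfi i χ hχ)]
        refine integral_congr_ae (ae_of_all _ fun z => ?_)
        show _ = χ z * _ - χ z * _
        ring
      rw [h6]
      linarith)
  filter_upwards [h3] with z hz hzO
  linarith [hz hzO]

/-- section 10 -/
theorem h64_exists_limit (hR : RegThm n) (hn : 0 < n) (hV : A.VolLe) {D : Set X} (hD : IsOpen D)
    (hD0 : A.μ Dᶜ = 0) {ψ2 : X → ℝ} (hψ2 : ContinuousOn ψ2 D) {φ : X → ℝ} (hφ : A.St 0 0 φ)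
    (h6 : ∀ τ : ℝ, 0 < τ → τ ≤ 1 → ∃ (C : ℝ) (φτ : X → ℝ), 0 ≤ C ∧ A.Sol D τ C φτ)
    (h8 : ∃ C₀ : ℝ, ∀ τ : ℝ, 0 < τ → τ ≤ 1 → ∀ (C : ℝ) (φτ : X → ℝ), 0 ≤ C → A.Sol D τ C φτ →
      (∀ x ∈ D, φτ x ≤ C₀ ∧ ψ2 x - C₀ ≤ φτ x) ∧ ∀ᵐ x ∂A.μ, φ x ≤ φτ x)
    (h9 : ∀ K : Set X, IsCompact K → K ⊆ D → ∃ C₁ : ℝ, ∀ τ : ℝ, 0 < τ → τ ≤ 1 →
      ∀ (C : ℝ) (φτ : X → ℝ), 0 ≤ C → A.Sol D τ C φτ → ∀ i, ∀ z : V n, ‖z‖ ≤ 1 →
      (A.e i).symm z ∈ K → DA 1 (A.pot i φτ) z ≤ C₁) :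
    ∃ (C : ℝ) (Φ : X → ℝ), A.St 0 C Φ ∧ A.SmoothOn D Φ ∧
      ∀ i, ∀ z ∈ (A.e i).target, (A.e i).symm z ∈ D →
        (hess (A.pot i Φ) z).det.re = A.f i z := by
  have hτ0 : ∀ k : ℕ, (0 : ℝ) < 1 / ((k : ℝ) + 1) := fun k => by positivity
  have hτ1 : ∀ k : ℕ, (1 : ℝ) / ((k : ℝ) + 1) ≤ 1 := fun k => by
    rw [div_le_one (by positivity)]
    have : (0 : ℝ) ≤ k := Nat.cast_nonneg k
    linarith
  choose Ck u hCk hu using fun k : ℕ => h6 (1 / ((k : ℝ) + 1)) (hτ0 k) (hτ1 k)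
  obtain ⟨C₀, hC₀⟩ := h8
  have hb1 : ∀ k, ∀ x ∈ D, u k x ≤ C₀ := fun k x hx =>
    ((hC₀ _ (hτ0 k) (hτ1 k) _ _ (hCk k) (hu k)).1 x hx).1
  have hb2 : ∀ k, ∀ x ∈ D, ψ2 x - C₀ ≤ u k x := fun k x hx =>
    ((hC₀ _ (hτ0 k) (hτ1 k) _ _ (hCk k) (hu k)).1 x hx).2
  have hb3 : ∀ k, ∀ᵐ x ∂A.μ, φ x ≤ u k x := fun k =>
    (hC₀ _ (hτ0 k) (hτ1 k) _ _ (hCk k) (hu k)).2
  have hb4 : ∀ k, ∀ x ∈ D, |u k x| ≤ |ψ2 x| + |C₀| := by
    intro k x hx
    have e1 := hb1 k x hx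
    have e2 := hb2 k x hx
    rw [abs_le]
    have e3 := neg_abs_le (ψ2 x)
    have e4 := le_abs_self C₀
    have e5 := abs_nonneg (ψ2 x)
    constructor <;> linarith
  have hL : ∀ K, IsCompact K → K ⊆ D → ∃ C₁ : ℝ, ∀ k, ∀ i, ∀ z : V n, ‖z‖ ≤ 1 →
      (A.e i).symm z ∈ K → DA 1 (A.pot i (u k)) z ≤ C₁ := by
    intro K hK hKD
    obtain ⟨C₁, hC₁⟩ := h9 K hK hKD
    exact ⟨C₁, fun k i z hz hzK => hC₁ _ (hτ0 k) (hτ1 k) _ _ (hCk k) (hu k) i z hz hzK⟩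
  have hbc : ContinuousOn (fun x => |ψ2 x| + |C₀|) D := hψ2.abs.add continuousOn_const
  obtain ⟨Q, hQc, hQD, hQd⟩ := A.exists_countable_dense hD
  obtain ⟨σ, Φ₀, hσ, hlim⟩ := exists_subseq_tendsto hQc hQD hQd u
    (fun x hx => ⟨|ψ2 x| + |C₀|, fun k => hb4 k x hx⟩)
    (A.equicontinuous hn hD u (fun k => (hu k).st.psx) (fun k => (hu k).smooth) hbc hb4 hL)
  have := A.isFiniteMeasure
  obtain ⟨hΦi, hΦL⟩ := A.limit_L1 hD0 (u := fun k => u (σ k)) (C₀ := C₀)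
    (fun k => St.integrable A (hu (σ k)).st) (St.integrable A hφ) (fun k => hb3 (σ k))
    (fun k => hb1 (σ k)) hlim
  have hτlim : Tendsto (fun k => (1 : ℝ) / ((σ k : ℝ) + 1)) atTop (𝓝 0) :=
    tendsto_one_div_add_atTop_nhds_zero_nat.comp hσ.tendsto_atTop
  have hΦ := A.limit_St hn hD0 (u := fun k => u (σ k)) (C₀ := C₀) hτlim
    (fun k => (hu (σ k)).st) hΦi (fun k => hb1 (σ k)) hΦL hlim
  have hBH : ∀ i, ∃ H, BH (A.Oh i D) (A.pot i Φ₀) H := fun i =>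
    A.limit_BH hn hD (u := fun k => u (σ k)) (fun k => St.integrable A (hu (σ k)).st)
      (fun k => (hu (σ k)).smooth) hΦi hΦ hΦL
      (fun K hK hKD => by
        obtain ⟨C₁, hC₁⟩ := hL K hK hKD
        exact ⟨C₁, fun k => hC₁ (σ k)⟩) i
  choose H hH using hBH
  have hbΦ : ∀ x ∈ D, ψ2 x - C₀ ≤ Φ₀ x := fun x hx =>
    ge_of_tendsto (hlim x hx) (Eventually.of_forall fun k => hb2 (σ k) x hx)
  have hdet := fun i => A.limit_det hn hV hD hD0 hΦ (hψ2.sub continuousOn_const) hbΦ hH i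
  have hreg : ∀ i, ∃ u' : V n → ℝ, ContDiffOn ℝ (⊤ : ℕ∞) u' (A.Oh i D) ∧
      ∀ᵐ z, z ∈ A.Oh i D → A.pot i Φ₀ z = u' z := by
    intro i
    refine hR _ (A.isOpen_Oh i hD) _ _ (hH i) 0 le_rfl (fun z => Real.log (A.f i z)) ?_ ?_
    · refine ContDiffOn.log ((A.f_smooth i).mono (A.Oh_subset_target i D)) fun z hz => ?_
      exact (A.f_pos_Oh hz).ne'
    · filter_upwards [hdet i] with z hz hzO
      rw [zero_mul, zero_add, Real.exp_log (A.f_pos_Oh hzO), ← hz hzO]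
      have h5 : (H i z).det.im = 0 := by
        have h6 := congrArg Matrix.det ((hH i).psd z).isHermitian
        rw [Matrix.det_conjTranspose] at h6
        exact Complex.conj_eq_iff_im.1 h6
      exact Complex.ext (by simp) (by simpa using h5)
  choose u' hu'1 hu'2 using hreg
  obtain ⟨Φ, hΦ1, hΦ2⟩ := A.exists_smoothOn hD (v := Φ₀) (fun i z => u' i z - A.g i z)
    (fun i => (hu'1 i).sub ((A.g_smooth i).mono (A.Oh_subset_target i D))) (fun i => by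
      filter_upwards [hu'2 i] with z hz hzO
      rw [← hz hzO]
      simp only [pot]
      ring)
  have hΦae : ∀ᵐ x ∂A.μ, Φ₀ x = Φ x := by
    filter_upwards [hΦ2, A.ae_mem_D hD0] with x h1 h2
    exact h1 h2
  refine ⟨C₀, Φ, St.congr_ae64 A hΦ hΦae, hΦ1, A.det_eq_transfer hD hΦ1 ?_⟩
  intro j z hz
  have hO := A.isOpen_Oh j hD
  have hpe : ∀ᵐ z, z ∈ A.Oh j D → A.pot j Φ₀ z = A.pot j Φ z := by
    filter_upwards [A.ae_Oh hΦae j D] with z hz hzO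
    simp only [pot, lc]
    rw [hz hzO]
  have hBH' := (hH j).congr hO hpe
  have hsm := SmoothOn.pot_Oh A hΦ1 j
  have h1 := BH.ae_eq_hess hO hBH' hsm
  refine eqOn_of_ae_eq hO (l4_continuousOn_det fun a b =>
    (contDiffOn_hess hO hsm a b).continuousOn) ((A.f_smooth j).continuousOn.mono
    (A.Oh_subset_target j D)) ?_ z hz
  filter_upwards [h1, hdet j] with z h1 h2 hzO
  rw [← h1 hzO, h2 hzO]

end Atl

end Pool.Agent.Helper29.AM
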