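import Pool.Agent.Helper64.AM.Base

/-!
# Block AM-13i: gluing of smooth representatives

`v : X → ℝ`, and in every chart `i` the function `lc i v` is a.e. equal on `A.Oh i D` to a smooth function
`s i`. Then `v` is a.e. equal on `D` to a function `v'` with `A.SmoothOn D v'`.

Proof. `v' x = s (ι x) (e (ι x) x)` where `ι x` is a chosen chart with `x ∈ B_ι(1)` (`exists_mem_Bi`).
Claim: `v' x = s i (e i x)` for every `i` with `x ∈ D ∩ B_i(1)`: the functions `s i ∘ e i` and `s j ∘ e j` are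
continuous on the open set `O = D ∩ B_i(1) ∩ B_j(1)` and a.e. equal on it (both are a.e. equal to `v`: `ae_on_iff`
or the Oh form; if `x ∈ B_i(1) ∩ D` then `e i x ∈ A.Oh i D`), so they are equal on `O` (`eq_on_of_ae`).
A.e. equality: `ae_D_iff`. Smoothness: let `z ∈ (e i).target`, `x = (e i).symm z ∈ D`, `x ∈ B_j(1)`. For `z'` near
`z`: `lc i v' z' = s j (e j ((e i).symm z'))`, a composition of `s j` (smooth on the open set `A.Oh j D`) and the
transition map (holomorphic on an open set, `A.hol`, hence smooth over `ℂ` and over `ℝ`: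
`DifferentiableOn.contDiffOn`, `ContDiffOn.restrict_scalars`). About 100 lines.
-/

set_option autoImplicit false

namespace Pool.Agent.Helper29.AM

open MeasureTheory Set Filter Topology
open scoped ComplexOrder

namespace Atl

variable {X : Type} [TopologicalSpace X] [MeasurableSpace X] {n N : ℕ} (A : Atl X n N)

private theorem ae_chart63 [BorelSpace X] (i : Fin N) {p : X → Prop}
    (h : ∀ᵐ z : V n, z ∈ (A.e i).target → p ((A.e i).symm z)) : ∀ᵐ x ∂A.μ, x ∈ (A.e i).source → p x := by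
  have hae : AEMeasurable (A.e i) (A.μ.restrict (A.e i).source) :=
    (A.e i).continuousOn.aemeasurable (A.e i).open_source.measurableSet
  have h1 : ∀ᵐ z ∂((A.μ.restrict (A.e i).source).map (A.e i)), z ∈ (A.e i).target → p ((A.e i).symm z) := by
    rw [A.μ_eq i]
    exact (withDensity_absolutelyContinuous _ _).ae_le (ae_restrict_of_ae h)
  have h2 := ae_of_ae_map hae h1
  rw [ae_restrict_iff' (A.e i).open_source.measurableSet] at h2
  filter_upwards [h2] with x hx hxs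
  have h3 := hx hxs ((A.e i).map_source hxs)
  rwa [(A.e i).left_inv hxs] at h3

private theorem ae_Bi63 [BorelSpace X] {D : Set X} {v : X → ℝ} (s : Fin N → V n → ℝ)
    (h : ∀ i, ∀ᵐ z, z ∈ A.Oh i D → A.lc i v z = s i z) (i : Fin N) :
    ∀ᵐ x ∂A.μ, x ∈ D → x ∈ A.Bi i 1 → v x = s i (A.e i x) := by
  have h1 := A.ae_chart63 i (p := fun x => x ∈ D → x ∈ A.Bi i 1 → v x = s i (A.e i x)) (by
    filter_upwards [h i] with z hz hzt hD hB
    have h2 : A.e i ((A.e i).symm z) = z := (A.e i).right_inv hzt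
    have h3 : z ∈ A.Oh i D := by
      have h4 := A.mem_Oh hB hD
      rwa [h2] at h4
    rw [h2]
    exact hz h3)
  filter_upwards [h1] with x hx hD hB
  exact hx hB.1 hD hB

theorem exists_smoothOn [CompactSpace X] [T2Space X] [BorelSpace X] {D : Set X} (hD : IsOpen D)
    {v : X → ℝ} (s : Fin N → V n → ℝ) (hs : ∀ i, ContDiffOn ℝ (⊤ : ℕ∞) (s i) (A.Oh i D))
    (h : ∀ i, ∀ᵐ z, z ∈ A.Oh i D → A.lc i v z = s i z) :
    ∃ v' : X → ℝ, A.SmoothOn D v' ∧ (∀ᵐ x ∂A.μ, x ∈ D → v x = v' x) := by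
  choose ι hι using A.exists_mem_Bi
  have hcont : ∀ i, ContinuousOn (fun x => s i (A.e i x)) (D ∩ A.Bi i 1) := fun i =>
    (hs i).continuousOn.comp ((A.e i).continuousOn.mono fun x hx => hx.2.1) fun x hx => A.mem_Oh hx.2 hx.1
  have hclaim : ∀ i, ∀ x ∈ D, x ∈ A.Bi i 1 → s (ι x) (A.e (ι x) x) = s i (A.e i x) := by
    intro i x hxD hxi
    set j := ι x with hj
    have h1 := A.eq_on_of_ae (O := D ∩ A.Bi i 1 ∩ A.Bi j 1) ((hD.inter (A.isOpen_Bi i 1)).inter (A.isOpen_Bi j 1))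
      (u := fun x => s j (A.e j x)) (v := fun x => s i (A.e i x))
      ((hcont j).mono fun y hy => ⟨hy.1.1, hy.2⟩) ((hcont i).mono fun y hy => hy.1) (by
        filter_upwards [A.ae_Bi63 s h i, A.ae_Bi63 s h j] with y hi hj' hy
        rw [← hi hy.1.1 hy.1.2, ← hj' hy.1.1 hy.2])
    exact h1 x ⟨⟨hxD, hxi⟩, hι x⟩
  refine ⟨fun x => s (ι x) (A.e (ι x) x), fun i z hz => ?_, ?_⟩
  · obtain ⟨j, hj⟩ := A.exists_mem_Bi ((A.e i).symm z)
    set W : Set (V n) := (A.e i).target ∩ (A.e i).symm ⁻¹' (D ∩ A.Bi j 1) with hW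
    have hWo : IsOpen W := A.isOpen_preimage_symm i (hD.inter (A.isOpen_Bi j 1))
    have hzW : z ∈ W := ⟨hz.1, hz.2, hj⟩
    have hzs : z ∈ ((A.e i).symm.trans (A.e j)).source := ⟨hz.1, hj.1⟩
    have h1 : ContDiffAt ℝ (⊤ : ℕ∞) (fun y => A.e j ((A.e i).symm y)) z :=
      (Helper32.contDiffAt_hol (n := ⊤) ((A.e i).symm.trans (A.e j)).open_source (A.hol i j) hzs).restrict_scalars ℝ
    have h2 : ContDiffAt ℝ (⊤ : ℕ∞) (s j) (A.e j ((A.e i).symm z)) :=
      (hs j).contDiffAt ((A.isOpen_Oh j hD).mem_nhds (A.mem_Oh hj hz.2))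
    have h3 : ContDiffAt ℝ (⊤ : ℕ∞) (fun y => s j (A.e j ((A.e i).symm y))) z := h2.comp z h1
    refine (h3.congr_of_eventuallyEq ?_).contDiffWithinAt
    filter_upwards [hWo.mem_nhds hzW] with y hy
    exact hclaim j _ hy.2.1 hy.2.2
  · have h1 : ∀ᵐ x ∂A.μ, ∀ i, x ∈ D → x ∈ A.Bi i 1 → v x = s i (A.e i x) :=
      ae_all_iff.2 fun i => A.ae_Bi63 s h i
    filter_upwards [h1] with x hx hxD
    exact hx (ι x) hxD (hι x)

end Atl

end Pool.Agent.Helper29.AM
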