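import Pool.Agent.Helper29.AM.LA2

/-!
# Block AM-13c: a determinant inequality

`P, Q ≥ 0` hermitian, `0 ≤ s ≤ 1`:
`det((1-s)P + sQ) ≥ (1-s)^n det P + s (1-s)^{n-1} tr(adj(P) Q)`.

Proof. `P > 0`, `s < 1`: `det_add_ge` (LA2) with `H = (1-s)P`, `K = sQ`:
`det H (1 + tr(H⁻¹K)) ≤ det(H+K)`, `det H = (1-s)^n det P`, `det(P) P⁻¹ = adj(P)`
(`Matrix.inv_def`, `Matrix.adjugate_smul`). General `P`, `s`: both sides are continuous in `(P, s)`; use
`P + δ·1` and `s - δ` (if `s = 1`), `δ → 0+` (`le_of_tendsto_of_tendsto`; for `P + δ·1`: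
`Matrix.PosDef.add_posSemidef`-type lemmas). For `n = 0` both sides are `1`. About 60 lines.

`adjugate_posSemidef`: `adj(P) ≥ 0` (for `P > 0`: `adj P = det P • P⁻¹`; limit).
-/

set_option autoImplicit false

namespace Pool.Agent.Helper29.AM

open MeasureTheory Set Filter Topology
open scoped ComplexOrder Matrix

variable {n : ℕ}

private theorem posDef_add_one52 {P : Mat n} (hP : P.PosSemidef) {δ : ℝ} (hδ : 0 < δ) :
    (P + ((δ : ℝ) : ℂ) • (1 : Mat n)).PosDef := by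
  have h1 : (((δ : ℝ) : ℂ) • (1 : Mat n)).PosDef :=
    Matrix.PosDef.one.smul (by exact_mod_cast hδ)
  exact Matrix.PosDef.posSemidef_add hP h1

private theorem tendsto_add_one52 (P : Mat n) :
    Tendsto (fun δ : ℝ => P + ((δ : ℝ) : ℂ) • (1 : Mat n)) (𝓝[>] 0) (𝓝 P) := by
  have h : Continuous (fun δ : ℝ => P + ((δ : ℝ) : ℂ) • (1 : Mat n)) :=
    continuous_const.add (Complex.continuous_ofReal.smul continuous_const)
  have h2 : Tendsto (fun δ : ℝ => P + ((δ : ℝ) : ℂ) • (1 : Mat n)) (𝓝[>] 0)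
      (𝓝 (P + (((0 : ℝ) : ℝ) : ℂ) • (1 : Mat n))) :=
    (h.tendsto 0).mono_left nhdsWithin_le_nhds
  simpa using h2

theorem adjugate_posDef {P : Mat n} (hP : P.PosDef) : P.adjugate.PosDef := by
  have hd : 0 < P.det := hP.det_pos
  have hu : IsUnit P.det := isUnit_iff_ne_zero.2 hd.ne'
  have h1 : P.adjugate = P.det • P⁻¹ := by
    rw [Matrix.inv_def, smul_smul, Ring.mul_inverse_cancel _ hu, one_smul]
  rw [h1]
  exact hP.inv.smul hd

theorem adjugate_posSemidef {P : Mat n} (hP : P.PosSemidef) : P.adjugate.PosSemidef := by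
  refine Matrix.PosSemidef.of_dotProduct_mulVec_nonneg ?_ ?_
  · show P.adjugateᴴ = P.adjugate
    rw [Matrix.adjugate_conjTranspose, hP.1]
  · intro x
    have h1 : ∀ᶠ δ : ℝ in 𝓝[>] 0,
        0 ≤ star x ⬝ᵥ ((P + ((δ : ℝ) : ℂ) • (1 : Mat n)).adjugate *ᵥ x) := by
      filter_upwards [self_mem_nhdsWithin] with δ hδ
      exact (adjugate_posDef (posDef_add_one52 hP hδ)).posSemidef.dotProduct_mulVec_nonneg x
    have hc : Continuous (fun A : Mat n => star x ⬝ᵥ (A.adjugate *ᵥ x)) := by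
      refine continuous_const.dotProduct ?_
      exact Continuous.matrix_mulVec continuous_id.matrix_adjugate continuous_const
    exact ge_of_tendsto ((hc.tendsto P).comp (tendsto_add_one52 P)) h1

private theorem det_convex_core52 {P Q : Mat n} (hP : P.PosDef) (hQ : Q.PosSemidef) {s : ℝ}
    (hs0 : 0 ≤ s) (hs1 : s < 1) :
    (1 - s) ^ n * P.det.re + s * (1 - s) ^ (n - 1) * (Matrix.trace (P.adjugate * Q)).re ≤
      (((1 - s : ℝ) : ℂ) • P + ((s : ℝ) : ℂ) • Q).det.re := by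
  rcases Nat.eq_zero_or_pos n with rfl | hn
  · simp [Matrix.trace]
  have h1s : 0 < 1 - s := by linarith
  have hH : (((1 - s : ℝ) : ℂ) • P).PosDef := hP.smul (by exact_mod_cast h1s)
  have hK : (((s : ℝ) : ℂ) • Q).PosSemidef := hQ.smul (by exact_mod_cast hs0)
  have h := det_add_ge hH hK
  refine le_trans (le_of_eq ?_) h
  have hd : 0 < P.det := hP.det_pos
  have hu : IsUnit P.det := isUnit_iff_ne_zero.2 hd.ne'
  obtain ⟨d, hd0, hdd⟩ : ∃ d : ℝ, 0 < d ∧ P.det = (d : ℂ) := by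
    refine ⟨P.det.re, (Complex.lt_def.1 hd).1, ?_⟩
    apply Complex.ext
    · simp
    · simpa using (Complex.lt_def.1 hd).2.symm
  have e1 : (((1 - s : ℝ) : ℂ) • P).det = (((1 - s) ^ n * d : ℝ) : ℂ) := by
    rw [Matrix.det_smul, Fintype.card_fin, hdd]
    push_cast
    ring
  have hne : ((1 - s : ℝ) : ℂ) ≠ 0 := by exact_mod_cast h1s.ne'
  have e2 : (((1 - s : ℝ) : ℂ) • P)⁻¹ = (((1 - s : ℝ) : ℂ))⁻¹ • P⁻¹ := by
    refine Matrix.inv_eq_right_inv ?_
    rw [smul_mul_smul_comm, Matrix.mul_nonsing_inv _ hu, mul_inv_cancel₀ hne, one_smul]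
  have e3 : P⁻¹ = P.det⁻¹ • P.adjugate := by rw [Matrix.inv_def, Ring.inverse_eq_inv']
  have e4 : Matrix.trace ((((1 - s : ℝ) : ℂ) • P)⁻¹ * (((s : ℝ) : ℂ) • Q)) =
      (((1 - s)⁻¹ * d⁻¹ * s : ℝ) : ℂ) * Matrix.trace (P.adjugate * Q) := by
    rw [e2, e3, hdd, Matrix.mul_smul, Matrix.smul_mul, Matrix.smul_mul, Matrix.trace_smul,
      Matrix.trace_smul, Matrix.trace_smul, smul_eq_mul, smul_eq_mul, smul_eq_mul]
    push_cast
    ring
  rw [e1, e4, Complex.re_ofReal_mul, Complex.ofReal_re, hdd, Complex.ofReal_re]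
  obtain ⟨m, rfl⟩ : ∃ m, n = m + 1 := ⟨n - 1, by omega⟩
  have hne' : (1 - s) ≠ 0 := h1s.ne'
  rw [Nat.add_sub_cancel]
  field_simp
  ring

theorem det_convex_ge {P Q : Mat n} (hP : P.PosSemidef) (hQ : Q.PosSemidef) {s : ℝ}
    (hs0 : 0 ≤ s) (hs1 : s ≤ 1) :
    (1 - s) ^ n * P.det.re + s * (1 - s) ^ (n - 1) * (Matrix.trace (P.adjugate * Q)).re ≤
      (((1 - s : ℝ) : ℂ) • P + ((s : ℝ) : ℂ) • Q).det.re := by
  -- the perturbed inequality, with `P + δ` and `s (1 - δ)`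
  have hP' : Tendsto (fun δ : ℝ => P + ((δ : ℝ) : ℂ) • (1 : Mat n)) (𝓝[>] 0) (𝓝 P) :=
    tendsto_add_one52 P
  have hs' : Tendsto (fun δ : ℝ => s * (1 - δ)) (𝓝[>] 0) (𝓝 s) := by
    have h : Continuous (fun δ : ℝ => s * (1 - δ)) := by fun_prop
    have h2 : Tendsto (fun δ : ℝ => s * (1 - δ)) (𝓝[>] 0) (𝓝 (s * (1 - 0))) :=
      (h.tendsto 0).mono_left nhdsWithin_le_nhds
    simpa using h2
  have hev : ∀ᶠ δ : ℝ in 𝓝[>] 0,
      (1 - s * (1 - δ)) ^ n * (P + ((δ : ℝ) : ℂ) • (1 : Mat n)).det.re +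
        (s * (1 - δ)) * (1 - s * (1 - δ)) ^ (n - 1) *
          (Matrix.trace ((P + ((δ : ℝ) : ℂ) • (1 : Mat n)).adjugate * Q)).re ≤
      (((1 - s * (1 - δ) : ℝ) : ℂ) • (P + ((δ : ℝ) : ℂ) • (1 : Mat n)) +
        ((s * (1 - δ) : ℝ) : ℂ) • Q).det.re := by
    filter_upwards [Ioo_mem_nhdsGT (zero_lt_one' ℝ)] with δ hδ
    refine det_convex_core52 (posDef_add_one52 hP hδ.1) hQ ?_ ?_
    · exact mul_nonneg hs0 (by linarith [hδ.2])
    · nlinarith [hδ.1, hδ.2]
  have hpair : Tendsto (fun δ : ℝ => ((P + ((δ : ℝ) : ℂ) • (1 : Mat n)), s * (1 - δ)))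
      (𝓝[>] 0) (𝓝 (P, s)) := hP'.prodMk_nhds hs'
  have hc1 : Continuous (fun a : Mat n × ℝ => (1 - a.2) ^ n * a.1.det.re +
      a.2 * (1 - a.2) ^ (n - 1) * (Matrix.trace (a.1.adjugate * Q)).re) := by
    have hdet : Continuous (fun a : Mat n × ℝ => a.1.det.re) :=
      Complex.continuous_re.comp continuous_fst.matrix_det
    have htr : Continuous (fun a : Mat n × ℝ => (Matrix.trace (a.1.adjugate * Q)).re) :=
      Complex.continuous_re.comp
        ((continuous_fst.matrix_adjugate.matrix_mul continuous_const).matrix_trace)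
    have h1 : Continuous (fun a : Mat n × ℝ => 1 - a.2) := continuous_const.sub continuous_snd
    exact ((h1.pow n).mul hdet).add ((continuous_snd.mul (h1.pow (n - 1))).mul htr)
  have hc2 : Continuous (fun a : Mat n × ℝ =>
      (((1 - a.2 : ℝ) : ℂ) • a.1 + ((a.2 : ℝ) : ℂ) • Q).det.re) := by
    refine Complex.continuous_re.comp (Continuous.matrix_det ?_)
    exact ((Complex.continuous_ofReal.comp (continuous_const.sub continuous_snd)).smul
      continuous_fst).add ((Complex.continuous_ofReal.comp continuous_snd).smul continuous_const)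
  exact le_of_tendsto_of_tendsto ((hc1.tendsto (P, s)).comp hpair)
    ((hc2.tendsto (P, s)).comp hpair) hev

end Pool.Agent.Helper29.AM
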