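import Pool.Agent.Helper64.AM.P1
import Pool.Agent.Helper64.AM.L1
import Pool.Agent.Helper13.AM.M1
import Pool.Agent.Helper13.AM.K2

/-!
# Block AM-13g: the perturbation argument (13.2)

`p` smooth psh on `Ω`, `f = det hess p > 0`, `q ∈ GS(Ω, f^{1/n})`, `pair (adj hess p) q χ ≤ n ∫ f χ` for all test
functions `χ ≤ 1`. Then `∫ (q - p) lev χ v = 0` for all test functions `χ` and all vectors `v`.

Proof. Fix `χ`, `v` and a test function `η ≤ 1` with `η = 1` on `tsupport χ` (see M1 for the existence of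
smooth cutoffs). `H = hess p z > 0` on `Ω` (`psd` and `det > 0`), `a(z) = lev p z v / f z = lf H v / det H`,
continuous on `Ω`, so `|a χ| ≤ A` (`A > 0`). For `|t| ≤ 1/(2A)`, `P_t = adj H + (t χ) • rk v` is a smooth
field on `Ω`, `P_t ≥ 0` (`posSemidef_adj_add_rk`), `det P_t = f^{n-1} (1 + t χ a)` (`det_adj_add_rk`), so
`(det P_t)^{1/n} f^{1/n} = f (1 + tχa)^{1/n} ≥ f + t χ lev p z v / n - f t²χ²a²` (`rpow_ge`).
`GS.variable`: `n ∫ (det P_t)^{1/n} f^{1/n} η ≤ pair P_t q η = pair (adj H) q η + t ∫ q lev χ v`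
(`pair_add_rk`) `≤ n ∫ f η + t ∫ q lev χ v`. So with `J = ∫ χ lev p v`, `J' = ∫ q lev χ v`:
`t J - C t² ≤ t J'` for all small `|t|`, hence `J = J'`. Finally `∫ χ lev p v = ∫ p lev χ v`
(`integral_mul_DA` with the frame `A` with `A e_0 = v`, `A e_l = 0` for `l ≠ 0`, `n > 0`).
Integrability: `q` is integrable on compact subsets of `Ω`, `lev χ v` is continuous with support in
`tsupport χ`. About 150 lines.
-/

set_option autoImplicit false

namespace Pool.Agent.Helper29.AM

open MeasureTheory Set Filter Topology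
open scoped ComplexOrder

variable {n : ℕ} {Ω : Set (V n)} {p q f : V n → ℝ}

private theorem int13 {w g : V n → ℝ} (hw : LocallyIntegrableOn w Ω volume) {K : Set (V n)}
    (hK : IsCompact K) (hKΩ : K ⊆ Ω) (hg : ContinuousOn g K) (h0 : ∀ z ∉ K, g z = 0) :
    Integrable (fun z => w z * g z) := by
  have h1 : IntegrableOn w K := hw.integrableOn_compact_subset hKΩ hK
  have h2 : IntegrableOn (fun z => w z * g z) K := h1.mul_continuousOn hg hK
  refine (integrableOn_iff_integrable_of_support_subset ?_).1 h2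
  intro z hz
  by_contra h
  refine hz ?_
  change w z * g z = 0
  rw [h0 z h, mul_zero]

private theorem Tst.zero13 {χ : V n → ℝ} {z : V n} (hz : z ∉ tsupport χ) : χ z = 0 :=
  image_eq_zero_of_notMem_tsupport hz

private theorem lev_zero13 {χ : V n → ℝ} {z : V n} (hz : z ∉ tsupport χ) (v : V n) :
    lev χ z v = 0 := by
  have h1 : χ =ᶠ[𝓝 z] fun _ => (0 : ℝ) := by
    have h2 : (tsupport χ)ᶜ ∈ 𝓝 z := (isClosed_tsupport χ).isOpen_compl.mem_nhds hz
    filter_upwards [h2] with y hy
    exact Tst.zero13 hy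
  rw [lev_congr h1, lev_const]

private theorem contDiffOn_det13 {M : V n → Mat n}
    (hM : ∀ j k, ContDiffOn ℝ (⊤ : ℕ∞) (fun z => M z j k) Ω) :
    ContDiffOn ℝ (⊤ : ℕ∞) (fun z => (M z).det) Ω := by
  simp only [Matrix.det_apply']
  refine ContDiffOn.sum fun σ _ => ?_
  refine contDiffOn_const.mul ?_
  exact contDiffOn_prod fun i _ => hM _ _

private theorem contDiffOn_adj13 {M : V n → Mat n}
    (hM : ∀ j k, ContDiffOn ℝ (⊤ : ℕ∞) (fun z => M z j k) Ω) (i j : Fin n) :
    ContDiffOn ℝ (⊤ : ℕ∞) (fun z => (M z).adjugate i j) Ω := by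
  simp only [Matrix.adjugate_apply]
  refine contDiffOn_det13 fun a b => ?_
  by_cases h : a = j
  · subst h
    simp only [Matrix.updateRow_self]
    exact contDiffOn_const
  · simp only [Matrix.updateRow_ne h]
    exact hM a b

private theorem integral_lev13 (hn : 0 < n) (hΩ : IsOpen Ω) {g χ : V n → ℝ}
    (hg : ContDiffOn ℝ 2 g Ω) (hχ : Tst Ω χ) (v : V n) :
    ∫ z, g z * lev χ z v = ∫ z, lev g z v * χ z := by
  let l0 : Fin n := ⟨0, hn⟩
  let A : Lin n := (EuclideanSpace.proj l0 : V n →L[ℂ] ℂ).smulRight v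
  have hA : ∀ l, A (e l) = if l = l0 then v else 0 := by
    intro l
    change (e l) l0 • v = _
    by_cases h : l = l0
    · rw [if_pos h, h]
      simp [e]
    · rw [if_neg h]
      simp [e, Ne.symm h]
  have h0 : ∀ (w : V n → ℝ) (z : V n), lev w z 0 = 0 := by
    intro w z
    unfold lev D2
    simp
  have h1 : ∀ (w : V n → ℝ) (z : V n), DA A w z = lev w z v := by
    intro w z
    unfold DA
    rw [Finset.sum_eq_single l0]
    · rw [hA, if_pos rfl]
    · intro l _ hl
      rw [hA, if_neg hl, h0]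
    · intro h
      exact absurd (Finset.mem_univ _) h
  have h2 := integral_mul_DA hΩ A hg (contDiff_infty.1 hχ.smooth 2) hχ.cpt hχ.sub
  simpa only [h1] using h2

theorem perturb (hn : 0 < n) (hΩ : IsOpen Ω) (hp : SPsh Ω p)
    (hf : ContDiffOn ℝ (⊤ : ℕ∞) f Ω) (hf0 : ∀ z ∈ Ω, 0 < f z)
    (hdet : ∀ z ∈ Ω, (hess p z).det.re = f z)
    (hq : GS Ω (fun z => f z ^ ((1 : ℝ) / n)) q)
    (heq : ∀ χ, Tst Ω χ → (∀ z, χ z ≤ 1) →
      pair (fun z => (hess p z).adjugate) q χ ≤ n * ∫ z, f z * χ z) :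
    ∀ χ, Tst Ω χ → ∀ v, ∫ z, (q z - p z) * lev χ z v = 0 := by
  intro χ hχ v
  have hn' : (0 : ℝ) < n := by exact_mod_cast hn
  have hp2 : ContDiffOn ℝ 2 p Ω := contDiffOn_infty.1 hp.smooth 2
  have hat : ∀ z ∈ Ω, ContDiffAt ℝ 2 p z := fun z hz => hp2.contDiffAt (hΩ.mem_nhds hz)
  have hKχ : IsCompact (tsupport χ) := hχ.cpt
  have hfc : ContinuousOn f Ω := hf.continuousOn
  obtain ⟨η, hη, hη1, U, hU, hKU, hUη⟩ := Pool.Agent.Helper13.AM.exists_cutoff hΩ hKχ hχ.sub
  have hηT : Tst Ω η := ⟨hη.smooth, hη.cpt, hη.sub, fun z => (hη1 z).1⟩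
  have h1η : ∀ z, χ z ≠ 0 → η z = 1 := fun z hz => hUη z (hKU (subset_tsupport χ hz))
  have hKη : IsCompact (tsupport η) := hηT.cpt
  -- integrability
  have iη : ∀ g : V n → ℝ, ContinuousOn g Ω → Integrable fun z => g z * η z := fun g hg =>
    int13 (hg.locallyIntegrableOn hΩ.measurableSet) hKη hηT.sub hηT.smooth.continuous.continuousOn
      fun z hz => Tst.zero13 hz
  -- positivity
  have hpsd : ∀ z ∈ Ω, (hess p z).PosSemidef := fun z hz =>
    (Pool.Agent.Helper13.AM.SPsh.posSemidef hΩ hp hz).1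
  have hpd : ∀ z ∈ Ω, (hess p z).PosDef := by
    intro z hz
    refine (hpsd z hz).posDef_iff_isUnit.2 ?_
    rw [Matrix.isUnit_iff_isUnit_det, isUnit_iff_ne_zero]
    intro h
    have h2 := hdet z hz
    rw [h] at h2
    have := hf0 z hz
    simp at h2
    linarith
  have hlf : ∀ z ∈ Ω, lf (hess p z) v = lev p z v := fun z hz => (lev_eq_lf (hat z hz) v).symm
  -- a bound for `a χ`
  have hac : ContinuousOn (fun z => lev p z v / f z) Ω :=
    (continuousOn_lev hΩ hp2 v).div hfc fun z hz => (hf0 z hz).ne'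
  obtain ⟨A, hA⟩ := hKχ.exists_bound_of_continuousOn
    ((hac.mono hχ.sub).mul hχ.smooth.continuous.continuousOn)
  have hA' : ∀ z ∈ Ω, |lev p z v / f z * χ z| ≤ |A| := by
    intro z _
    by_cases hz : z ∈ tsupport χ
    · exact (hA z hz).trans (le_abs_self A)
    · rw [Tst.zero13 hz, mul_zero, abs_zero]
      exact abs_nonneg A
  have hApos : 0 < |A| + 1 := by positivity
  obtain ⟨t₀, ht₀, ht₀A⟩ : ∃ t₀ : ℝ, 0 < t₀ ∧ t₀ * (|A| + 1) ≤ 1 / 2 :=
    ⟨1 / (2 * (|A| + 1)), by positivity, le_of_eq (by field_simp)⟩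
  obtain ⟨J, hJ⟩ : ∃ J : ℝ, J = ∫ z, lev p z v * χ z := ⟨_, rfl⟩
  obtain ⟨J', hJ'⟩ : ∃ J' : ℝ, J' = ∫ z, q z * lev χ z v := ⟨_, rfl⟩
  obtain ⟨C, hC⟩ : ∃ C : ℝ, C = n * ∫ z, (lev p z v ^ 2 / f z * χ z ^ 2) * η z := ⟨_, rfl⟩
  have key : ∀ t : ℝ, |t| ≤ t₀ → t * J - C * t ^ 2 ≤ t * J' := by
    intro t ht
    have hx : ∀ z ∈ Ω, |t * χ z * (lev p z v / f z)| ≤ 1 / 2 := by
      intro z hz
      have h1 : t * χ z * (lev p z v / f z) = t * (lev p z v / f z * χ z) := by ring
      rw [h1, abs_mul]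
      calc |t| * |lev p z v / f z * χ z| ≤ t₀ * (|A| + 1) :=
            mul_le_mul ht ((hA' z hz).trans (by linarith)) (abs_nonneg _) ht₀.le
        _ ≤ 1 / 2 := ht₀A
    set P : V n → Mat n := fun z => (hess p z).adjugate + ((t * χ z : ℝ) : ℂ) • rk v with hP
    have hdetP : ∀ z ∈ Ω, (P z).det.re = f z ^ (n - 1) * (1 + t * χ z * (lev p z v / f z)) := by
      intro z hz
      rw [hP]
      simp only
      rw [det_adj_add_rk (hpd z hz), hlf z hz, hdet z hz]
      ring
    have hPpsd : ∀ z ∈ Ω, (P z).PosSemidef := by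
      intro z hz
      refine posSemidef_adj_add_rk (hpd z hz) v ?_
      rw [hlf z hz, hdet z hz]
      have h1 := (abs_le.1 (hx z hz)).1
      have h2 : t * χ z * lev p z v / f z = t * χ z * (lev p z v / f z) := by ring
      rw [h2]
      linarith
    have hadj : ∀ j k, ContDiffOn ℝ (⊤ : ℕ∞) (fun z => (hess p z).adjugate j k) Ω :=
      contDiffOn_adj13 fun j k => contDiffOn_hess hΩ hp.smooth j k
    have hPs : ∀ j k, ContDiffOn ℝ (⊤ : ℕ∞) (fun z => P z j k) Ω := by
      intro j k
      have h1 : (fun z => P z j k) =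
          fun z => (hess p z).adjugate j k + ((t * χ z : ℝ) : ℂ) * rk v j k := rfl
      rw [h1]
      refine (hadj j k).add (ContDiffOn.mul ?_ contDiffOn_const)
      have h2 : ContDiff ℝ (⊤ : ℕ∞) fun z => ((t * χ z : ℝ) : ℂ) :=
        Complex.ofRealCLM.contDiff.comp (contDiff_const.mul hχ.smooth)
      exact h2.contDiffOn
    have h1 := GS.variable hn hΩ hq hPs hPpsd hηT
    have h2 := pair_add_rk hΩ hadj hq.int hχ hηT h1η v t
    have h3 := heq η hηT fun z => (hη1 z).2
    have h4 : (fun z => (hess p z).adjugate + ((t * χ z : ℝ) : ℂ) • rk v) = P := rfl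
    rw [h4] at h2
    -- the pointwise bound
    have hpt : ∀ z ∈ Ω, f z + t / n * (lev p z v * χ z) - t ^ 2 * (lev p z v ^ 2 / f z * χ z ^ 2) ≤
        ((P z).det.re) ^ ((1 : ℝ) / n) * f z ^ ((1 : ℝ) / n) := by
      intro z hz
      have hfz := hf0 z hz
      have hxz := hx z hz
      have h5 : 0 ≤ 1 + t * χ z * (lev p z v / f z) := by
        have := (abs_le.1 hxz).1
        linarith
      have h6 : (P z).det.re * f z = f z ^ n * (1 + t * χ z * (lev p z v / f z)) := by
        rw [hdetP z hz]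
        obtain ⟨m, rfl⟩ : ∃ m, n = m + 1 := ⟨n - 1, by omega⟩
        rw [Nat.add_sub_cancel, pow_succ]
        ring
      rw [← Real.mul_rpow (by rw [hdetP z hz]; positivity) hfz.le, h6,
        Real.mul_rpow (by positivity) h5]
      have h7 : (f z ^ n) ^ ((1 : ℝ) / n) = f z := by
        rw [one_div]
        exact Real.pow_rpow_inv_natCast hfz.le hn.ne'
      rw [h7]
      have h8 := rpow_ge hn hxz
      have h9 := mul_le_mul_of_nonneg_left h8 hfz.le
      refine le_trans (le_of_eq ?_) h9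
      field_simp
    -- integrate
    have hPc : ContinuousOn (fun z => ((P z).det.re) ^ ((1 : ℝ) / n) * f z ^ ((1 : ℝ) / n)) Ω := by
      refine ContinuousOn.mul ?_ (hfc.rpow_const fun _ _ => Or.inr (by positivity))
      refine ContinuousOn.rpow_const ?_ fun _ _ => Or.inr (by positivity)
      exact Complex.continuous_re.comp_continuousOn (contDiffOn_det13 hPs).continuousOn
    have hχc : ContinuousOn χ Ω := hχ.smooth.continuous.continuousOn
    have hlc : ContinuousOn (fun z => lev p z v) Ω := continuousOn_lev hΩ hp2 v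
    have c1 : ContinuousOn (fun z => lev p z v * χ z) Ω := hlc.mul hχc
    have c2 : ContinuousOn (fun z => lev p z v ^ 2 / f z * χ z ^ 2) Ω :=
      ((hlc.pow 2).div hfc fun z hz => (hf0 z hz).ne').mul (hχc.pow 2)
    have h5 : ∫ z, (f z + t / n * (lev p z v * χ z) - t ^ 2 * (lev p z v ^ 2 / f z * χ z ^ 2)) * η z ≤
        ∫ z, ((P z).det.re) ^ ((1 : ℝ) / n) * f z ^ ((1 : ℝ) / n) * η z := by
      refine integral_mono (iη _ ((hfc.add (continuousOn_const.mul c1)).sub
        (continuousOn_const.mul c2))) (iη _ hPc) fun z => ?_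
      by_cases hz : z ∈ Ω
      · exact mul_le_mul_of_nonneg_right (hpt z hz) (hη1 z).1
      · have h6 : η z = 0 := Tst.zero13 fun h => hz (hηT.sub h)
        simp only [h6, mul_zero, le_refl]
    have h6 : ∫ z, (f z + t / n * (lev p z v * χ z) - t ^ 2 * (lev p z v ^ 2 / f z * χ z ^ 2)) * η z =
        (∫ z, f z * η z) + t / n * J - t ^ 2 * ∫ z, (lev p z v ^ 2 / f z * χ z ^ 2) * η z := by
      have h7 : (fun z => (f z + t / n * (lev p z v * χ z) -
          t ^ 2 * (lev p z v ^ 2 / f z * χ z ^ 2)) * η z) = fun z =>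
          (f z * η z + t / n * (lev p z v * χ z * η z)) -
            t ^ 2 * ((lev p z v ^ 2 / f z * χ z ^ 2) * η z) := by
        funext z
        ring
      have h8 : (fun z => lev p z v * χ z * η z) = fun z => lev p z v * χ z := by
        funext z
        by_cases hz : χ z = 0
        · rw [hz, mul_zero, zero_mul]
        · rw [h1η z hz, mul_one]
      have i1 := iη _ hfc
      have i2 := iη _ c1
      have i3 := iη _ c2
      have i4 : Integrable fun z => f z * η z + t / n * (lev p z v * χ z * η z) :=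
        i1.add (i2.const_mul _)
      rw [h7, integral_sub i4 (i3.const_mul _),
        integral_add i1 (i2.const_mul _), integral_const_mul, integral_const_mul, h8, ← hJ]
    rw [h6] at h5
    have h7 : (n : ℝ) * ((∫ z, f z * η z) + t / n * J -
        t ^ 2 * ∫ z, (lev p z v ^ 2 / f z * χ z ^ 2) * η z) ≤ n * (∫ z, f z * η z) + t * J' := by
      calc _ ≤ (n : ℝ) * ∫ z, ((P z).det.re) ^ ((1 : ℝ) / n) * f z ^ ((1 : ℝ) / n) * η z :=
            mul_le_mul_of_nonneg_left h5 hn'.le
        _ ≤ pair P q η := h1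
        _ = pair (fun z => (hess p z).adjugate) q η + t * ∫ z, q z * lev χ z v := h2
        _ ≤ n * (∫ z, f z * η z) + t * J' := by
            rw [hJ']
            linarith
    have h8 : (n : ℝ) * ((∫ z, f z * η z) + t / n * J -
        t ^ 2 * ∫ z, (lev p z v ^ 2 / f z * χ z ^ 2) * η z) =
        n * (∫ z, f z * η z) + t * J - C * t ^ 2 := by
      rw [hC]
      field_simp
    rw [h8] at h7
    linarith
  -- J = J'
  have hC0 : 0 ≤ |C| := abs_nonneg C
  have hle : J ≤ J' := by
    refine le_of_forall_pos_le_add fun ε hε => ?_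
    have ht : 0 < min t₀ (ε / (|C| + 1)) := lt_min ht₀ (by positivity)
    set t := min t₀ (ε / (|C| + 1)) with htd
    have h1 := key t (by rw [abs_of_pos ht]; exact min_le_left _ _)
    have h2 : t * J - C * t ^ 2 = t * (J - C * t) := by ring
    rw [h2] at h1
    have h3 : J - C * t ≤ J' := le_of_mul_le_mul_left h1 ht
    have h4 : C * t ≤ ε := by
      calc C * t ≤ (|C| + 1) * t := by
            have := le_abs_self C
            nlinarith
        _ ≤ (|C| + 1) * (ε / (|C| + 1)) := by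
            have := min_le_right t₀ (ε / (|C| + 1))
            gcongr
        _ = ε := by field_simp
    linarith
  have hge : J' ≤ J := by
    refine le_of_forall_pos_le_add fun ε hε => ?_
    have ht : 0 < min t₀ (ε / (|C| + 1)) := lt_min ht₀ (by positivity)
    set t := min t₀ (ε / (|C| + 1)) with htd
    have h1 := key (-t) (by rw [abs_neg, abs_of_pos ht]; exact min_le_left _ _)
    have h2 : t * J' ≤ t * (J + C * t) := by nlinarith
    have h3 : J' ≤ J + C * t := le_of_mul_le_mul_left h2 ht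
    have h4 : C * t ≤ ε := by
      calc C * t ≤ (|C| + 1) * t := by
            have := le_abs_self C
            nlinarith
        _ ≤ (|C| + 1) * (ε / (|C| + 1)) := by
            have := min_le_right t₀ (ε / (|C| + 1))
            gcongr
        _ = ε := by field_simp
    linarith
  have h1 : ∫ z, p z * lev χ z v = J := by
    rw [hJ]
    exact integral_lev13 hn hΩ hp2 hχ v
  have hlχ : ContinuousOn (fun z => lev χ z v) (tsupport χ) :=
    (continuousOn_lev isOpen_univ (contDiff_infty.1 hχ.smooth 2).contDiffOn v).mono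
      (subset_univ _)
  have i1 : Integrable fun z => q z * lev χ z v :=
    int13 hq.int hKχ hχ.sub hlχ fun z hz => lev_zero13 hz v
  have i2 : Integrable fun z => p z * lev χ z v :=
    int13 (hp2.continuousOn.locallyIntegrableOn hΩ.measurableSet) hKχ hχ.sub hlχ
      fun z hz => lev_zero13 hz v
  have h2 : (fun z => (q z - p z) * lev χ z v) = fun z => q z * lev χ z v - p z * lev χ z v := by
    funext z
    ring
  rw [h2, integral_sub i1 i2, h1, ← hJ']
  linarith

end Pool.Agent.Helper29.AM
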