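import Pool.Agent.Helper29.AM.GS2

/-!
# Block AM-13h: Weyl's lemma

`w` locally integrable on the open set `Ω`, `∫ w lev χ v = 0` for all test functions `χ` and vectors `v`. Then `w`
is a.e. equal to a smooth function on `Ω`.

Proof. `PSHd Ω w` and `PSHd Ω (-w)`: `DA A η = ∑_l lev η (A e_l)`, each summand integrates to `0`
(`w * lev η v` is integrable: `w` is integrable on the compact set `tsupport η ⊆ Ω`, `lev η v` is continuous and
vanishes outside). `Phi_mono_radius` for `w` and `-w` (`Phi (-w) z t = -Phi w z t`): `Phi w z s = Phi w z t` for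
`0 < s ≤ t`, `z ∈ shr Ω t`. `le_Phi` for `w` and `-w`: for a.e. `z ∈ Ω`, `w z = Phi w z t` for all `t > 0` with
`z ∈ shr Ω t`. Define `w' z = Phi w z t(z)` with some chosen `t(z) > 0`, `z ∈ shr Ω t(z)` (exists for
`z ∈ Ω`, `Ω` open). Near `z₀`: `z ∈ shr Ω t₀` (`isOpen_shr`), `w' z = Phi w z (min t₀ t(z)) = Phi w z t₀`, which is smooth
(`contDiffOn_Phi_left`). About 80 lines.
-/

set_option autoImplicit false

namespace Pool.Agent.Helper29.AM

open MeasureTheory Set Filter Topology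
open scoped ComplexOrder

variable {n : ℕ} {Ω : Set (V n)}

private theorem two_le81 : (2 : WithTop ℕ∞) ≤ ((⊤ : ℕ∞) : WithTop ℕ∞) := by
  show ((2 : ℕ∞) : WithTop ℕ∞) ≤ _
  exact WithTop.coe_le_coe.2 le_top

private theorem lev_zero81 {η : V n → ℝ} {z : V n} (hz : z ∉ tsupport η) (v : V n) : lev η z v = 0 := by
  have h0 : η =ᶠ[𝓝 z] fun _ => (0 : ℝ) := notMem_tsupport_iff_eventuallyEq.1 hz
  rw [lev_congr h0, lev_const]

private theorem int81 {w : V n → ℝ} (hw : LocallyIntegrableOn w Ω volume) {η : V n → ℝ} (hη : Tst Ω η) (v : V n) :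
    Integrable fun z => w z * lev η z v := by
  have hc : Continuous fun z => lev η z v :=
    continuousOn_univ.1 (continuousOn_lev isOpen_univ ((hη.smooth.of_le two_le81).contDiffOn) v)
  have h1 : IntegrableOn w (tsupport η) volume := hw.integrableOn_compact_subset hη.sub hη.cpt
  have h2 : IntegrableOn (fun z => w z * lev η z v) (tsupport η) volume :=
    h1.mul_continuousOn hc.continuousOn hη.cpt
  rwa [integrableOn_iff_integrable_of_support_subset] at h2
  intro z hz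
  by_contra hno
  exact hz (by
    change w z * lev η z v = 0
    rw [lev_zero81 hno, mul_zero])

private theorem DA81 {w : V n → ℝ} (hw : LocallyIntegrableOn w Ω volume)
    (h : ∀ χ : V n → ℝ, Tst Ω χ → ∀ v, ∫ z, w z * lev χ z v = 0) (A : Lin n) {η : V n → ℝ} (hη : Tst Ω η) :
    ∫ z, w z * DA A η z = 0 := by
  unfold DA
  simp only [Finset.mul_sum]
  rw [integral_finsetSum _ fun l _ => int81 hw hη _]
  exact Finset.sum_eq_zero fun l _ => h η hη _

private theorem psh81 {w : V n → ℝ} (hw : LocallyIntegrableOn w Ω volume)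
    (h : ∀ χ : V n → ℝ, Tst Ω χ → ∀ v, ∫ z, w z * lev χ z v = 0) : PSHd Ω w := by
  refine ⟨hw, locallyIntegrableOn_zero, fun _ _ => le_rfl, fun A η hη => ?_⟩
  rw [DA81 hw h A hη]
  simp

private theorem Phi_neg81 (w : V n → ℝ) (z : V n) (t : ℝ) : Phi (fun y => -w y) z t = -Phi w z t := by
  unfold Phi M
  rw [← integral_neg]
  congr 1
  funext η
  ring

theorem weyl (hΩ : IsOpen Ω) {w : V n → ℝ} (hw : LocallyIntegrableOn w Ω volume)
    (h : ∀ χ : V n → ℝ, Tst Ω χ → ∀ v, ∫ z, w z * lev χ z v = 0) :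
    ∃ w' : V n → ℝ, ContDiffOn ℝ (⊤ : ℕ∞) w' Ω ∧ ∀ᵐ z, z ∈ Ω → w z = w' z := by
  have hP := psh81 hw h
  have hw2 : LocallyIntegrableOn (fun y => -w y) Ω volume := hw.neg
  have hP2 : PSHd Ω fun y => -w y := psh81 hw2 fun χ hχ v => by
    have h1 := h χ hχ v
    have h2 : ∫ z, -w z * lev χ z v = -∫ z, w z * lev χ z v := by
      rw [← integral_neg]
      congr 1
      funext z
      ring
    rw [h2, h1, neg_zero]
  have hmono : ∀ {s t : ℝ}, 0 < s → s ≤ t → ∀ {z : V n}, z ∈ shr Ω t → Phi w z s = Phi w z t := by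
    intro s t hs hst z hz
    refine le_antisymm (Phi_mono_radius hΩ hP hs hst hz) ?_
    have h1 := Phi_mono_radius hΩ hP2 hs hst hz
    rw [Phi_neg81, Phi_neg81] at h1
    linarith
  have hex : ∀ z : V n, ∃ t : ℝ, z ∈ Ω → 0 < t ∧ z ∈ shr Ω t := by
    intro z
    by_cases hz : z ∈ Ω
    · obtain ⟨r, hr, h1⟩ := Metric.nhds_basis_closedBall.mem_iff.1 (hΩ.mem_nhds hz)
      exact ⟨r, fun _ => ⟨hr, h1⟩⟩
    · exact ⟨0, fun h => absurd h hz⟩
  choose t ht using hex
  refine ⟨fun z => Phi w z (t z), fun z₀ hz₀ => ?_, ?_⟩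
  · obtain ⟨h1, h2⟩ := ht z₀ hz₀
    have h3 : ContDiffAt ℝ (⊤ : ℕ∞) (fun z => Phi w z (t z₀)) z₀ :=
      (contDiffOn_Phi_left hΩ hw h1).contDiffAt ((isOpen_shr hΩ _).mem_nhds h2)
    refine (h3.congr_of_eventuallyEq ?_).contDiffWithinAt
    filter_upwards [(isOpen_shr hΩ (t z₀)).mem_nhds h2, hΩ.mem_nhds hz₀] with z hz hzΩ
    obtain ⟨h4, h5⟩ := ht z hzΩ
    have h6 : 0 < min (t z₀) (t z) := lt_min h1 h4
    rw [← hmono h6 (min_le_right _ _) h5, hmono h6 (min_le_left _ _) hz]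
  · filter_upwards [le_Phi hΩ hP, le_Phi hΩ hP2] with z h1 h2 hz
    obtain ⟨h4, h5⟩ := ht z hz
    have h6 := h1 hz _ h4 h5
    have h7 := h2 hz _ h4 h5
    rw [Phi_neg81] at h7
    linarith

end Pool.Agent.Helper29.AM
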