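import Pool.Agent.Helper64.AM.I1
import Pool.Agent.Helper64.AM.P2
import Pool.Agent.Helper64.AM.W1
import Pool.Agent.Helper64.AM.Gl

/-!
# Section 13: identification
-/

set_option autoImplicit false

namespace Pool.Agent.Helper29.AM

open MeasureTheory Set Filter Topology
open scoped ComplexOrder

/-- integrability of `w · g` for `w` locally integrable, `g` continuous with support in a compact
subset -/
theorem i2_integrable {n : ℕ} {Ω : Set (V n)} {w g : V n → ℝ}
    (hw : LocallyIntegrableOn w Ω volume) (hg : Continuous g) {K : Set (V n)} (hK : IsCompact K)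
    (hKΩ : K ⊆ Ω) (h0 : ∀ z, z ∉ K → g z = 0) : Integrable fun z => w z * g z := by
  have h1 : IntegrableOn w K volume := hw.integrableOn_compact_subset hKΩ hK
  have h2 : IntegrableOn (fun z => w z * g z) K volume :=
    h1.mul_continuousOn hg.continuousOn hK
  refine (integrableOn_iff_integrable_of_support_subset ?_).1 h2
  intro z hz
  by_contra h
  exact hz (by simp [h0 z h])

theorem i2_lev_zero {n : ℕ} {χ : V n → ℝ} (v : V n) {z : V n} (hz : z ∉ tsupport χ) :
    lev χ z v = 0 := by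
  have h1 : χ =ᶠ[𝓝 z] fun _ => 0 := by
    filter_upwards [(isClosed_tsupport χ).isOpen_compl.mem_nhds hz] with y hy
    exact image_eq_zero_of_notMem_tsupport hy
  rw [lev_congr h1, lev_const]

theorem i2_lev_cont {n : ℕ} {χ : V n → ℝ} (hχ : ContDiff ℝ (⊤ : ℕ∞) χ) (v : V n) :
    Continuous fun z => lev χ z v := by
  rw [← continuousOn_univ]
  exact continuousOn_lev isOpen_univ (hχ.of_le l4_two_le).contDiffOn v

namespace Atl

variable {X : Type} [TopologicalSpace X] [MeasurableSpace X] {n N : ℕ} (A : Atl X n N)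

theorem pot_max (i : Fin N) (v w : X → ℝ) (b : ℝ) (z : V n) :
    A.pot i (fun x => max (v x) (w x - b)) z = max (A.pot i v z) (A.pot i w z + -b) := by
  simp only [pot, lc]
  rw [← max_add_add_left]
  congr 1
  ring

theorem St.max_sub {C C' : ℝ} {v w : X → ℝ} (hv : A.St 0 C v) (hw : A.St 0 C' w) (b : ℝ) :
    A.St 0 (max C (C' - b)) fun x => max (v x) (w x - b) := by
  refine ⟨?_, fun i => ?_⟩
  · filter_upwards [hv.le, hw.le] with x h1 h2
    exact max_le_max h1 (by linarith)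
  · have hB : IsOpen (B3 n) := Metric.isOpen_ball
    have h1 := GS.add_ph hB (hw.gs i) (q := fun _ => -b) contDiffOn_const
      (fun z _ w => lev_const _ _)
    have h2 := GS.max hB (K := A.Ft 0 i fun x => max (v x) (w x - b)) (hv.gs i) h1 ?_ ?_ ?_ ?_ ?_
    · refine h2.congr hB ?_
      refine ae_of_all _ fun z _ => ?_
      rw [A.pot_max]
    · have := (hv.gs i).intF
      have e1 : A.Ft 0 i v = A.Ft 0 i fun x => max (v x) (w x - b) := by
        funext z
        rw [A.Ft_zero, A.Ft_zero]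
      rwa [e1] at this
    · intro z hz
      have := (hv.gs i).nonneg z hz
      rwa [A.Ft_zero] at this ⊢
    · refine ae_of_all _ fun z _ _ => ?_
      rw [A.Ft_zero, A.Ft_zero]
    · refine ae_of_all _ fun z _ _ => ?_
      rw [A.Ft_zero, A.Ft_zero]
    · refine ae_of_all _ fun z _ _ => ?_
      rw [A.Ft_zero, A.Ft_zero, A.Ft_zero, min_self]

variable [CompactSpace X] [T2Space X] [BorelSpace X]

/-- (13.2) -/
theorem integral_max_lev (hn : 0 < n) (hV : A.VolLe) {D : Set X} (hD : IsOpen D)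
    (hD0 : A.μ Dᶜ = 0) {C : ℝ} {Φ : X → ℝ} (hΦ : A.St 0 C Φ) (hs : A.SmoothOn D Φ)
    (heq : ∀ i, ∀ z ∈ A.Oh i D, (hess (A.pot i Φ) z).det.re = A.f i z)
    {C' : ℝ} {φ : X → ℝ} (hφ : A.St 0 C' φ) (j : ℝ) (i : Fin N) {χ : V n → ℝ}
    (hχ : Tst (A.Oh i D) χ) (v : V n) :
    ∫ z, max (A.lc i φ z - A.lc i Φ z) (-j) * lev χ z v = 0 := by
  have hO := A.isOpen_Oh i hD
  have hφj := St.max_sub A hφ hΦ j
  have hsp := St.spsh A hn hD hΦ hs i
  have hb : ∀ᵐ x ∂A.μ, Φ x - j ≤ max (φ x) (Φ x - j) := ae_of_all _ fun x => le_max_right _ _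
  have hgs : GS (A.Oh i D) (fun z => A.f i z ^ ((1 : ℝ) / n))
      (A.pot i fun x => max (φ x) (Φ x - j)) := by
    have h1 := (hφj.gs i).mono_set hO (A.Oh_subset_B3 i D)
    have e1 : A.Ft 0 i (fun x => max (φ x) (Φ x - j)) = fun z => A.f i z ^ ((1 : ℝ) / n) := by
      funext z
      rw [A.Ft_zero]
    rwa [e1] at h1
  have h1 := perturb hn hO hsp ((A.f_smooth i).mono (A.Oh_subset_target i D))
    (fun z hz => A.f_pos_Oh hz) (heq i) hgs
    (fun χ hχ hχ1 => A.pair_le hn hV hD hD0 hΦ hs heq hφj hb i hχ hχ1) χ hχ v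
  rw [← h1]
  refine integral_congr_ae (ae_of_all _ fun z => ?_)
  show max (A.lc i φ z - A.lc i Φ z) (-j) * lev χ z v =
    (A.pot i (fun x => max (φ x) (Φ x - j)) z - A.pot i Φ z) * lev χ z v
  rw [A.pot_max]
  congr 1
  simp only [pot]
  rw [← max_sub_sub_right]
  congr 1 <;> ring

/-- (13.3) -/
theorem integral_lev_eq_zero (hn : 0 < n) (hV : A.VolLe) {D : Set X} (hD : IsOpen D)
    (hD0 : A.μ Dᶜ = 0) {C : ℝ} {Φ : X → ℝ} (hΦ : A.St 0 C Φ) (hs : A.SmoothOn D Φ)
    (heq : ∀ i, ∀ z ∈ A.Oh i D, (hess (A.pot i Φ) z).det.re = A.f i z)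
    {C' : ℝ} {φ : X → ℝ} (hφ : A.St 0 C' φ) (i : Fin N) {χ : V n → ℝ}
    (hχ : Tst (A.Oh i D) χ) (v : V n) :
    ∫ z, (A.lc i φ z - A.lc i Φ z) * lev χ z v = 0 := by
  have hw : LocallyIntegrableOn (fun z => A.lc i φ z - A.lc i Φ z) (A.Oh i D) volume := by
    have h1 := ((hφ.gs i).int.sub (hΦ.gs i).int).mono_set (A.Oh_subset_B3 i D)
    have e1 : (A.pot i φ - A.pot i Φ) = fun z => A.lc i φ z - A.lc i Φ z := by
      funext z
      simp only [Pi.sub_apply, pot]
      ring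
    rwa [e1] at h1
  have hint := i2_integrable hw (i2_lev_cont hχ.smooth v) hχ.cpt hχ.sub
    (fun z hz => i2_lev_zero v hz)
  have hlim : Tendsto (fun j : ℕ => ∫ z, max (A.lc i φ z - A.lc i Φ z) (-(j : ℝ)) * lev χ z v)
      atTop (𝓝 (∫ z, (A.lc i φ z - A.lc i Φ z) * lev χ z v)) := by
    refine tendsto_integral_of_dominated_convergence
      (fun z => ‖(A.lc i φ z - A.lc i Φ z) * lev χ z v‖) ?_ hint.norm ?_ ?_
    · intro j
      have h2 : LocallyIntegrableOn (fun z => max (A.lc i φ z - A.lc i Φ z) (-(j : ℝ)))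
          (A.Oh i D) volume := by
        have h3 : LocallyIntegrableOn (fun _ : V n => -(j : ℝ)) (A.Oh i D) volume :=
          locallyIntegrableOn_const _
        intro z hz
        obtain ⟨t, ht, hti⟩ := hw z hz
        obtain ⟨t', ht', hti'⟩ := h3 z hz
        exact ⟨t ∩ t', inter_mem ht ht',
          (hti.mono_set inter_subset_left).sup (hti'.mono_set inter_subset_right)⟩
      exact (i2_integrable h2 (i2_lev_cont hχ.smooth v) hχ.cpt hχ.sub
        (fun z hz => i2_lev_zero v hz)).aestronglyMeasurable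
    · intro j
      refine ae_of_all _ fun z => ?_
      rw [norm_mul, norm_mul]
      refine mul_le_mul_of_nonneg_right ?_ (norm_nonneg _)
      rw [Real.norm_eq_abs, Real.norm_eq_abs]
      have hj : (0 : ℝ) ≤ j := Nat.cast_nonneg j
      rcases le_total (A.lc i φ z - A.lc i Φ z) (-(j : ℝ)) with h | h
      · rw [max_eq_right h, abs_neg, abs_of_nonneg hj, abs_of_nonpos (by linarith)]
        linarith
      · rw [max_eq_left h]
    · refine ae_of_all _ fun z => ?_
      obtain ⟨k, hk⟩ := exists_nat_ge (-(A.lc i φ z - A.lc i Φ z))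
      refine tendsto_const_nhds.congr' ?_
      filter_upwards [eventually_ge_atTop k] with j hj
      have hjk : (k : ℝ) ≤ j := by exact_mod_cast hj
      rw [max_eq_left (by linarith)]
  have hzero : ∀ j : ℕ, ∫ z, max (A.lc i φ z - A.lc i Φ z) (-(j : ℝ)) * lev χ z v = 0 :=
    fun j => A.integral_max_lev hn hV hD hD0 hΦ hs heq hφ j i hχ v
  simp only [hzero] at hlim
  exact (tendsto_nhds_unique hlim tendsto_const_nhds)

/-- section 13 -/
theorem h64_identification (hn : 0 < n) (hV : A.VolLe) {D : Set X} (hD : IsOpen D)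
    (hD0 : A.μ Dᶜ = 0) {φ : X → ℝ} (hφ : A.St 0 0 φ) {C : ℝ} {Φ : X → ℝ} (hΦ : A.St 0 C Φ)
    (hs : A.SmoothOn D Φ) (heq : ∀ i, ∀ z ∈ (A.e i).target, (A.e i).symm z ∈ D →
        (hess (A.pot i Φ) z).det.re = A.f i z) :
    ∃ φ' : X → ℝ, A.SmoothOn D φ' ∧ ∀ᵐ x ∂A.μ, φ x = φ' x := by
  have heq' : ∀ i, ∀ z ∈ A.Oh i D, (hess (A.pot i Φ) z).det.re = A.f i z := fun i z hz =>
    heq i z (A.Oh_subset_target i D hz) hz.2
  have hw : ∀ i, ∃ w' : V n → ℝ, ContDiffOn ℝ (⊤ : ℕ∞) w' (A.Oh i D) ∧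
      ∀ᵐ z, z ∈ A.Oh i D → A.lc i φ z - A.lc i Φ z = w' z := by
    intro i
    refine weyl (A.isOpen_Oh i hD) ?_ fun χ hχ v =>
      A.integral_lev_eq_zero hn hV hD hD0 hΦ hs heq' hφ i hχ v
    have h1 := ((hφ.gs i).int.sub (hΦ.gs i).int).mono_set (A.Oh_subset_B3 i D)
    have e1 : (A.pot i φ - A.pot i Φ) = fun z => A.lc i φ z - A.lc i Φ z := by
      funext z
      simp only [Pi.sub_apply, pot]
      ring
    rwa [e1] at h1
  choose w' hw1 hw2 using hw
  obtain ⟨v', hv1, hv2⟩ := A.exists_smoothOn hD (v := φ) (fun i z => A.lc i Φ z + w' i z)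
    (fun i => ((hs i).mono (A.Oh_subset i D)).add (hw1 i)) (fun i => by
      filter_upwards [hw2 i] with z hz hzO
      rw [← hz hzO]
      ring)
  refine ⟨v', hv1, ?_⟩
  have h0 : ∀ᵐ x ∂A.μ, x ∈ D := by
    rw [MeasureTheory.ae_iff]
    exact hD0
  filter_upwards [hv2, h0] with x h1 h2
  exact h1 h2

end Atl

end Pool.Agent.Helper29.AM
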