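import Pool.Agent.Helper29.AM.Core0
import Pool.Agent.Helper29.AM.C8
import Pool.Agent.Helper29.AM.PE5
import Pool.Agent.Helper29.AM.Reg
import Pool.Agent.Helper76.AM.UL11
import Pool.Agent.Helper64.AM.E6
import Pool.Agent.Helper64.AM.I2

/-!
# Sections 10 and 13: the statements of the assembly
-/

set_option autoImplicit false

namespace Pool.Agent.Helper29.AM

open MeasureTheory Set Filter Topology
open scoped ComplexOrder

theorem regThm {n : ℕ} (hn : 0 < n) : RegThm n := fun _ hO _ _ h _ hτ _ hk heq =>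
  regularity hn hO h hτ hk heq

namespace Atl

variable {X : Type} [TopologicalSpace X] [MeasurableSpace X] {n N : ℕ} (A : Atl X n N)
variable [CompactSpace X] [T2Space X] [BorelSpace X]

/-- section 10 -/
theorem exists_limit64 (hn : 0 < n) (hV : A.VolLe) {D : Set X} {ψ ψ2 : X → ℝ} {ε a₀ : ℝ}
    (hψ : A.NicePair D ψ ψ2 ε a₀) {φ : X → ℝ} (hφ : A.St 0 0 φ) :
    ∃ (C : ℝ) (Φ : X → ℝ), A.St 0 C Φ ∧ A.SmoothOn D Φ ∧
      ∀ i, ∀ z ∈ (A.e i).target, (A.e i).symm z ∈ D →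
        (hess (A.pot i Φ) z).det.re = A.f i z :=
  A.h64_exists_limit (regThm hn) hn hV hψ.nice.isOpen hψ.nice.null hψ.nice2.cont hφ
    (fun _ h1 _ => A.exists_sol' hn hψ.nice h1) (A.sol_bounds hn hV hψ hφ)
    (fun _ hK hKD => Pool.Agent.Helper76.AM.sol_laplace A hn hV hψ hφ hK hKD)

/-- section 13 -/
theorem identification64 (hn : 0 < n) (hV : A.VolLe) {D : Set X} (hD : IsOpen D)
    (hD0 : A.μ Dᶜ = 0) {φ : X → ℝ} (hφ : A.St 0 0 φ) {C : ℝ} {Φ : X → ℝ} (hΦ : A.St 0 C Φ)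
    (hs : A.SmoothOn D Φ) (heq : ∀ i, ∀ z ∈ (A.e i).target, (A.e i).symm z ∈ D →
        (hess (A.pot i Φ) z).det.re = A.f i z) :
    ∃ φ' : X → ℝ, A.SmoothOn D φ' ∧ ∀ᵐ x ∂A.μ, φ x = φ' x :=
  A.h64_identification hn hV hD hD0 hφ hΦ hs heq

end Atl

end Pool.Agent.Helper29.AM
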