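import Pool.Agent.Helper29.AM.GA2

/-!
# Project AM, sections 10 and 13: base file

`A.Oh i D` is the part of `D` in the ball `B(1)` of the chart `i` (an open subset of `V n`).
-/

set_option autoImplicit false

namespace Pool.Agent.Helper29.AM

open MeasureTheory Set Filter Topology
open scoped ComplexOrder

namespace Atl

variable {X : Type} [TopologicalSpace X] [MeasurableSpace X] {n N : ℕ} (A : Atl X n N)

/-- the part of `D` in the ball `B(1)` of the chart `i` -/
def Oh (i : Fin N) (D : Set X) : Set (V n) := Metric.ball 0 1 ∩ (A.e i).symm ⁻¹' D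

variable {D : Set X}

theorem Oh_subset_ball (i : Fin N) (D : Set X) : A.Oh i D ⊆ Metric.ball 0 1 := inter_subset_left

theorem Oh_subset_B3 (i : Fin N) (D : Set X) : A.Oh i D ⊆ B3 n := fun z hz =>
  Metric.ball_subset_ball (by norm_num) hz.1

theorem Oh_subset_target (i : Fin N) (D : Set X) : A.Oh i D ⊆ (A.e i).target := fun z hz =>
  A.ball i (Metric.ball_subset_closedBall (Metric.ball_subset_ball (by norm_num) hz.1))

theorem Oh_subset (i : Fin N) (D : Set X) :
    A.Oh i D ⊆ (A.e i).target ∩ (A.e i).symm ⁻¹' D := fun _ hz =>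
  ⟨A.Oh_subset_target i D hz, hz.2⟩

theorem isOpen_Oh (i : Fin N) (hD : IsOpen D) : IsOpen (A.Oh i D) := by
  have h : A.Oh i D = Metric.ball 0 1 ∩ ((A.e i).target ∩ (A.e i).symm ⁻¹' D) := by
    ext z
    constructor
    · intro hz
      exact ⟨hz.1, A.Oh_subset_target i D hz, hz.2⟩
    · intro hz
      exact ⟨hz.1, hz.2.2⟩
  rw [h]
  exact Metric.isOpen_ball.inter ((A.e i).isOpen_inter_preimage_symm hD)

theorem mem_Oh {i : Fin N} {x : X} (hx : x ∈ A.Bi i 1) (hxD : x ∈ D) : A.e i x ∈ A.Oh i D := by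
  refine ⟨by simpa using hx.2, ?_⟩
  show (A.e i).symm (A.e i x) ∈ D
  rw [(A.e i).left_inv hx.1]
  exact hxD

theorem symm_mem_D {i : Fin N} {z : V n} (hz : z ∈ A.Oh i D) : (A.e i).symm z ∈ D := hz.2

theorem symm_mem_Bi {i : Fin N} {z : V n} (hz : z ∈ A.Oh i D) : (A.e i).symm z ∈ A.Bi i 1 := by
  have h := A.Oh_subset_target i D hz
  refine ⟨(A.e i).map_target h, ?_⟩
  rw [(A.e i).right_inv h]
  simpa using hz.1

theorem e_symm {i : Fin N} {z : V n} (hz : z ∈ A.Oh i D) : A.e i ((A.e i).symm z) = z :=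
  (A.e i).right_inv (A.Oh_subset_target i D hz)

theorem exists_mem_Bi (x : X) : ∃ i, x ∈ A.Bi i 1 := A.cover x

theorem SmoothOn.pot64 {v : X → ℝ} (h : A.SmoothOn D v) (i : Fin N) :
    ContDiffOn ℝ (⊤ : ℕ∞) (A.pot i v) ((A.e i).target ∩ (A.e i).symm ⁻¹' D) :=
  ((A.g_smooth i).mono inter_subset_left).add (h i)

theorem SmoothOn.pot_Oh {v : X → ℝ} (h : A.SmoothOn D v) (i : Fin N) :
    ContDiffOn ℝ (⊤ : ℕ∞) (A.pot i v) (A.Oh i D) := (SmoothOn.pot64 A h i).mono (A.Oh_subset i D)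

/-- the density of `S_0`: `(e^{0 v} f)^{1/n} = f^{1/n}` -/
theorem Ft_zero (i : Fin N) (v : X → ℝ) (z : V n) : A.Ft 0 i v z = A.f i z ^ ((1 : ℝ) / n) := by
  simp [Ft]

theorem continuousOn_f (i : Fin N) : ContinuousOn (A.f i) (A.e i).target :=
  (A.f_smooth i).continuousOn

variable [BorelSpace X]

theorem ae_Oh {p : X → Prop} (h : ∀ᵐ x ∂A.μ, p x) (i : Fin N) (D : Set X) :
    ∀ᵐ z : V n, z ∈ A.Oh i D → p ((A.e i).symm z) := by
  filter_upwards [A.ae_target h i] with z hz hz'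
  exact hz (A.Oh_subset_target i D hz')

/-- a.e. statements on `D` may be checked in the charts -/
theorem ae_D_iff {p : X → Prop} : (∀ᵐ x ∂A.μ, x ∈ D → p x) ↔
    ∀ i, ∀ᵐ z : V n, z ∈ A.Oh i D → p ((A.e i).symm z) := by
  constructor
  · intro h i
    filter_upwards [A.ae_Oh h i D] with z hz hz'
    exact hz hz' hz'.2
  · intro h
    rw [A.ae_iff_ball]
    intro i
    filter_upwards [h i] with z hz hz' hzD
    exact hz ⟨hz', hzD⟩

end Atl

end Pool.Agent.Helper29.AM
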