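import Pool.Agent.Helper29.AM.GS2

/-!
# Block AM-10a: equicontinuity from a bound for the Laplacian

`closedBall z₀ (2r) ⊆ Ω`. For all `M, C, ε` there is `δ` such that for all smooth `u` on `Ω` with `|u| ≤ M` and
`0 ≤ Δu ≤ C` on `closedBall z₀ (2r)`: `|u z - u z₀| < ε` for `‖z - z₀‖ < δ`.

Proof. For `0 < t ≤ r`, `‖z - z₀‖ ≤ r`: `0 ≤ Phi u z t - u z ≤ C t²` (`hasDerivAt_Phi`,
`0 ≤ M1 (sc s) (DA 1 u) z ≤ C ∫ρ₁ ≤ C`, `Phi u z 0 = u z`; mean value inequality on `[0,t]`), and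
`Phi u z t = ∫ ρ(η) u(z+tη) dη = ∫ ρ(η + (z₀-z)/t) u(z₀ + tη) dη` (translation), so
`|Phi u z t - Phi u z₀ t| ≤ M ∫ |ρ(η + (z₀-z)/t) - ρ(η)| dη ≤ M L (‖z-z₀‖/t) vol(B(2))` for `‖z - z₀‖ ≤ t`
(`ρ` is Lipschitz with constant `L`, smooth with compact support; the integrand vanishes for `‖η‖ ≥ 2`;
`‖tη‖ ≤ 2r`). Choose `t ≤ r` with `C t² < ε/4`, then `δ`. It may be simpler to avoid the change of variables by the
bound `‖fderiv (Phi u · t)‖`. About 100 lines.
-/

set_option autoImplicit false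

namespace Pool.Agent.Helper29.AM

open MeasureTheory Set Filter Topology
open scoped ComplexOrder

variable {n : ℕ}

private theorem two_le_h54 : (2 : WithTop ℕ∞) ≤ ((⊤ : ℕ∞) : WithTop ℕ∞) := by
  have h : ((2 : ℕ∞) : WithTop ℕ∞) ≤ ((⊤ : ℕ∞) : WithTop ℕ∞) := WithTop.coe_le_coe.2 le_top
  exact h

private theorem mem_h54 {z₀ z : V n} {r s : ℝ} (hz : ‖z - z₀‖ ≤ r) (hs : 0 ≤ s) (hsr : s ≤ r) {η : V n} (hη : ‖η‖ ≤ 1) :
    z + (sc s : Lin n) η ∈ Metric.closedBall z₀ (2 * r) := by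
  rw [Metric.mem_closedBall, dist_eq_norm, sc_apply]
  have h1 : z + (s : ℂ) • η - z₀ = (z - z₀) + (s : ℂ) • η := by abel
  rw [h1]
  have h2 : ‖(s : ℂ) • η‖ ≤ r := by
    rw [norm_smul, Complex.norm_real, Real.norm_eq_abs, abs_of_nonneg hs]
    nlinarith [norm_nonneg η]
  calc ‖(z - z₀) + (s : ℂ) • η‖ ≤ ‖z - z₀‖ + ‖(s : ℂ) • η‖ := norm_add_le _ _
    _ ≤ 2 * r := by linarith

private theorem growth_h54 {Ω : Set (V n)} (hΩ : IsOpen Ω) {z₀ : V n} {r : ℝ}
    (hz₀ : Metric.closedBall z₀ (2 * r) ⊆ Ω) {C : ℝ} (hC : 0 ≤ C) {u : V n → ℝ} (hu : ContDiffOn ℝ (⊤ : ℕ∞) u Ω)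
    (hD : ∀ z ∈ Metric.closedBall z₀ (2 * r), 0 ≤ DA 1 u z ∧ DA 1 u z ≤ C) {z : V n} (hz : ‖z - z₀‖ ≤ r) {t : ℝ}
    (ht : 0 ≤ t) (htr : t ≤ r) : |Phi u z t - u z| ≤ 2 * C * t ^ 2 := by
  have hd : ∀ s ∈ Icc (0 : ℝ) t, HasDerivWithinAt (fun s => Phi u z s) (2 * s * M1 (sc s) (DA 1 u) z) (Icc 0 t) s := by
    intro s hs
    exact (hasDerivAt_Phi hΩ (hu.of_le two_le_h54) hs.1 ((mem_shr_iff hs.1).2 fun η hη =>
      hz₀ (mem_h54 hz hs.1 (hs.2.trans htr) hη))).hasDerivWithinAt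
  have hM : ∀ s ∈ Icc (0 : ℝ) t, 0 ≤ M1 (sc s) (DA 1 u) z ∧ M1 (sc s) (DA 1 u) z ≤ C := by
    intro s hs
    have h1 : ∀ η : V n, 0 ≤ rho1 η * DA 1 u (z + (sc s : Lin n) η) ∧
        rho1 η * DA 1 u (z + (sc s : Lin n) η) ≤ rho1 η * C := by
      intro η
      rcases le_or_gt 1 ‖η‖ with h | h
      · rw [rho1_eq_zero h, zero_mul, zero_mul]
        exact ⟨le_rfl, le_rfl⟩
      · have h2 := hD _ (mem_h54 hz hs.1 (hs.2.trans htr) h.le)
        exact ⟨mul_nonneg (rho1_nonneg η) h2.1, mul_le_mul_of_nonneg_left h2.2 (rho1_nonneg η)⟩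
    refine ⟨integral_nonneg fun η => (h1 η).1, ?_⟩
    have h3 : M1 (sc s) (DA 1 u) z ≤ ∫ η : V n, rho1 η * C :=
      integral_mono_of_nonneg (Eventually.of_forall fun η => (h1 η).1) (rho1_integrable.mul_const C)
        (Eventually.of_forall fun η => (h1 η).2)
    rw [integral_mul_const] at h3
    have h4 : (∫ η : V n, rho1 η) = aa n := rfl
    rw [h4] at h3
    have h5 := aa_le_one (n := n)
    nlinarith
  have hb : ∀ s ∈ Icc (0 : ℝ) t, ‖2 * s * M1 (sc s) (DA 1 u) z‖ ≤ 2 * t * C := by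
    intro s hs
    have h1 := hM s hs
    rw [Real.norm_eq_abs, abs_of_nonneg (mul_nonneg (by linarith [hs.1]) h1.1)]
    exact mul_le_mul (by linarith [hs.2]) h1.2 h1.1 (by linarith)
  have h2 := Convex.norm_image_sub_le_of_norm_hasDerivWithin_le hd hb (convex_Icc 0 t) (left_mem_Icc.2 ht)
    (right_mem_Icc.2 ht)
  rw [Phi_zero, sub_zero, Real.norm_eq_abs, Real.norm_eq_abs, abs_of_nonneg ht] at h2
  calc |Phi u z t - u z| ≤ 2 * t * C * t := h2
    _ = 2 * C * t ^ 2 := by ring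

private theorem transl_h54 {z₀ : V n} {r : ℝ} {M : ℝ} (hM : 0 ≤ M) {u : V n → ℝ}
    (hu : ContinuousOn u (Metric.closedBall z₀ (2 * r))) (hub : ∀ z ∈ Metric.closedBall z₀ (2 * r), |u z| ≤ M)
    {L : NNReal} (hL : LipschitzWith L (rho : V n → ℝ)) {z : V n} {t : ℝ} (ht : 0 < t) (htr : t ≤ r)
    (hz : ‖z - z₀‖ ≤ t) :
    |Phi u z t - Phi u z₀ t| ≤ volume.real (Metric.closedBall (0 : V n) 2) * (L * (‖z - z₀‖ / t) * M) := by
  classical
  set B := Metric.closedBall z₀ (2 * r) with hB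
  set w : V n → ℝ := B.piecewise u (fun _ => 0) with hw
  have hwm : Measurable w := hu.measurable_piecewise continuousOn_const Metric.isClosed_closedBall.measurableSet
  have hwb : ∀ y, |w y| ≤ M := by
    intro y
    by_cases hy : y ∈ B
    · rw [hw, piecewise_eq_of_mem _ _ _ hy]
      exact hub y hy
    · rw [hw, piecewise_eq_of_notMem _ _ _ hy, abs_zero]
      exact hM
  have hr : 0 ≤ r := ht.le.trans htr
  have hPhi : ∀ y : V n, ‖y - z₀‖ ≤ r → Phi u y t = ∫ η : V n, rho η * w (y + (sc t : Lin n) η) := by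
    intro y hy
    refine M_congr fun η hη => ?_
    rw [hw, piecewise_eq_of_mem _ _ _ (mem_h54 hy ht.le htr hη.le)]
  set a : V n := ((t⁻¹ : ℝ) : ℂ) • (z₀ - z) with ha
  have hta : (t : ℂ) • a = z₀ - z := by
    rw [ha, smul_smul, ← Complex.ofReal_mul, mul_inv_cancel₀ ht.ne', Complex.ofReal_one, one_smul]
  have hna : ‖a‖ = ‖z - z₀‖ / t := by
    rw [ha, norm_smul, Complex.norm_real, Real.norm_eq_abs, abs_of_pos (inv_pos.2 ht), norm_sub_rev, div_eq_inv_mul]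
  have ha1 : ‖a‖ ≤ 1 := by
    rw [hna]
    exact (div_le_one ht).2 hz
  have h1 : Phi u z t = ∫ η : V n, rho (η + a) * w (z₀ + (sc t : Lin n) η) := by
    rw [hPhi z (hz.trans htr), ← integral_add_right_eq_self (fun η : V n => rho η * w (z + (sc t : Lin n) η)) a]
    refine integral_congr_ae (Eventually.of_forall fun η => ?_)
    have h2 : z + (sc t : Lin n) (η + a) = z₀ + (sc t : Lin n) η := by
      rw [sc_apply, sc_apply, smul_add, hta]
      abel
    simp only [h2]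
  have h2 : Phi u z₀ t = ∫ η : V n, rho η * w (z₀ + (sc t : Lin n) η) := hPhi z₀ (by rw [sub_self, norm_zero]; exact hr)
  have hwm' : Measurable fun η : V n => w (z₀ + (sc t : Lin n) η) := hwm.comp (by fun_prop)
  have hint : ∀ b : V n, Integrable fun η : V n => rho (η + b) * w (z₀ + (sc t : Lin n) η) := by
    intro b
    refine Integrable.mono' ((rho_integrable.comp_add_right b).mul_const M)
      (((rho_contDiff.continuous.measurable.comp (by fun_prop)).mul hwm').aestronglyMeasurable)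
      (Eventually.of_forall fun η => ?_)
    rw [Real.norm_eq_abs, abs_mul, abs_of_nonneg (rho_nonneg _)]
    exact mul_le_mul_of_nonneg_left (hwb _) (rho_nonneg _)
  have hint0 : Integrable fun η : V n => rho η * w (z₀ + (sc t : Lin n) η) := by
    have := hint 0
    simpa only [add_zero] using this
  rw [h1, h2, ← integral_sub (hint a) hint0]
  set K : Set (V n) := Metric.closedBall 0 2 with hK
  have hKm : MeasurableSet K := Metric.isClosed_closedBall.measurableSet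
  have hKfin : volume K ≠ ⊤ := (isCompact_closedBall (0 : V n) 2).measure_lt_top.ne
  have h3 : ∀ η : V n, ‖rho (η + a) * w (z₀ + (sc t : Lin n) η) - rho η * w (z₀ + (sc t : Lin n) η)‖ ≤
      K.indicator (fun _ => L * (‖z - z₀‖ / t) * M) η := by
    intro η
    by_cases hη : η ∈ K
    · rw [indicator_of_mem hη, ← sub_mul, norm_mul, Real.norm_eq_abs, Real.norm_eq_abs]
      refine mul_le_mul ?_ (hwb _) (abs_nonneg _) (by positivity)
      have h4 := hL.dist_le_mul (η + a) η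
      rw [Real.dist_eq, dist_eq_norm, add_sub_cancel_left, hna] at h4
      exact h4
    · rw [indicator_of_notMem hη]
      rw [hK, Metric.mem_closedBall, dist_zero_right, not_le] at hη
      have h5 : 1 ≤ ‖η + a‖ := by
        have h6 := norm_sub_le (η + a) a
        rw [add_sub_cancel_right] at h6
        linarith
      rw [rho_eq_zero h5, rho_eq_zero (by linarith), zero_mul, sub_self, norm_zero]
  have h7 : Integrable (K.indicator fun _ : V n => L * (‖z - z₀‖ / t) * M) :=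
    (integrableOn_const hKfin).integrable_indicator hKm
  refine (norm_integral_le_of_norm_le h7 (Eventually.of_forall h3)).trans ?_
  rw [integral_indicator hKm, setIntegral_const, smul_eq_mul]

theorem equicontinuous_of_laplace {Ω : Set (V n)} (hΩ : IsOpen Ω) {z₀ : V n} {r : ℝ} (hr : 0 < r)
    (hz₀ : Metric.closedBall z₀ (2 * r) ⊆ Ω) (M C ε : ℝ) (hε : 0 < ε) :
    ∃ δ : ℝ, 0 < δ ∧ ∀ u : V n → ℝ, ContDiffOn ℝ (⊤ : ℕ∞) u Ω →
      (∀ z ∈ Metric.closedBall z₀ (2 * r), |u z| ≤ M) →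
      (∀ z ∈ Metric.closedBall z₀ (2 * r), 0 ≤ DA 1 u z ∧ DA 1 u z ≤ C) →
      ∀ z, ‖z - z₀‖ < δ → |u z - u z₀| < ε := by
  obtain ⟨L, hL⟩ := rho_contDiff.lipschitzWith_of_hasCompactSupport (n := (⊤ : ℕ∞)) (rho_hasCompactSupport (n := n)) (by simp)
  set C' := max C 0 with hC'
  set M' := max M 0 with hM'
  have hC0 : 0 ≤ C' := le_max_right _ _
  have hM0 : 0 ≤ M' := le_max_right _ _
  set K := volume.real (Metric.closedBall (0 : V n) 2) * (L * M') with hK
  have hK0 : 0 ≤ K := by positivity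
  set t := min r (Real.sqrt (ε / (16 * (C' + 1)))) with ht
  have ht0 : 0 < t := lt_min hr (Real.sqrt_pos.2 (by positivity))
  have htr : t ≤ r := min_le_left _ _
  have ht2 : t ^ 2 ≤ ε / (16 * (C' + 1)) := by
    have h1 : t ≤ Real.sqrt (ε / (16 * (C' + 1))) := min_le_right _ _
    calc t ^ 2 ≤ Real.sqrt (ε / (16 * (C' + 1))) ^ 2 := by gcongr
      _ = ε / (16 * (C' + 1)) := Real.sq_sqrt (by positivity)
  have ht3 : 4 * C' * t ^ 2 ≤ ε / 4 := by
    have h1 : 4 * C' * t ^ 2 ≤ 4 * C' * (ε / (16 * (C' + 1))) := by gcongr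
    have h2 : 4 * C' * (ε / (16 * (C' + 1))) = ε / 4 * (C' / (C' + 1)) := by
      field_simp
      ring
    have h3 : C' / (C' + 1) ≤ 1 := (div_le_one (by positivity)).2 (by linarith)
    have h4 : ε / 4 * (C' / (C' + 1)) ≤ ε / 4 * 1 := by gcongr
    linarith
  refine ⟨min t (ε * t / (2 * (K + 1))), lt_min ht0 (by positivity), fun u hu hub hD z hz => ?_⟩
  have hz1 : ‖z - z₀‖ ≤ t := (hz.trans_le (min_le_left _ _)).le
  have hz2 : ‖z - z₀‖ ≤ ε * t / (2 * (K + 1)) := (hz.trans_le (min_le_right _ _)).le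
  have hD' : ∀ z ∈ Metric.closedBall z₀ (2 * r), 0 ≤ DA 1 u z ∧ DA 1 u z ≤ C' := fun z hz =>
    ⟨(hD z hz).1, (hD z hz).2.trans (le_max_left _ _)⟩
  have g1 := growth_h54 hΩ hz₀ hC0 hu hD' (hz1.trans htr) ht0.le htr
  have g2 := growth_h54 hΩ hz₀ hC0 hu hD' (z := z₀) (by rw [sub_self, norm_zero]; exact hr.le) ht0.le htr
  have g3 := transl_h54 hM0 (hu.continuousOn.mono hz₀) (fun z hz => (hub z hz).trans (le_max_left _ _)) hL ht0 htr hz1
  have h5 : volume.real (Metric.closedBall (0 : V n) 2) * (L * (‖z - z₀‖ / t) * M') = K * (‖z - z₀‖ / t) := by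
    rw [hK]
    ring
  rw [h5] at g3
  have h6 : K * (‖z - z₀‖ / t) ≤ ε / 2 := by
    have h7 : ‖z - z₀‖ / t ≤ ε / (2 * (K + 1)) := by
      rw [div_le_iff₀ ht0]
      calc ‖z - z₀‖ ≤ ε * t / (2 * (K + 1)) := hz2
        _ = ε / (2 * (K + 1)) * t := by ring
    calc K * (‖z - z₀‖ / t) ≤ K * (ε / (2 * (K + 1))) := by gcongr
      _ = ε / 2 * (K / (K + 1)) := by field_simp
      _ ≤ ε / 2 * 1 := by
        gcongr
        exact (div_le_one (by positivity)).2 (by linarith)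
      _ = ε / 2 := mul_one _
  have h8 : u z - u z₀ = -(Phi u z t - u z) + (Phi u z t - Phi u z₀ t) + (Phi u z₀ t - u z₀) := by ring
  rw [abs_le] at g1 g2 g3
  rw [abs_lt]
  constructor <;> linarith [g1.1, g1.2, g2.1, g2.2, g3.1, g3.2]

end Pool.Agent.Helper29.AM
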