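import Mathlib

/-!
# Block AM-10b: extraction of a pointwise convergent subsequence

`u_k : X → ℝ` bounded and equicontinuous at every point of `D`, `Q ⊆ D` countable, meeting every
neighbourhood of every point of `D`. Then a subsequence converges at every point of `D`.

Proof. `x ↦ (k ↦ u_k x)` for `x ∈ Q`: the sequence `k ↦ (u_k x)_{x ∈ Q}` lies in the compact set
`Set.pi univ (fun x : Q => Icc (-M x) (M x))` of the first countable space `Q → ℝ` (`Q` countable), so
`IsCompact.tendsto_subseq` gives a subsequence converging in the product, i.e. at every point of `Q`. For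
`x ∈ D`: `k ↦ u_{φ k} x` is Cauchy: given `ε` take `y ∈ Q` in a neighbourhood of `x` with
`|u_k y - u_k x| < ε/3` for all `k`. About 50 lines.
-/

set_option autoImplicit false

namespace Pool.Agent.Helper29.AM

open Set Filter Topology

theorem exists_subseq_tendsto {X : Type} [TopologicalSpace X] {D Q : Set X} (hQ : Q.Countable)
    (hQD : Q ⊆ D) (hQd : ∀ x ∈ D, ∀ W ∈ 𝓝 x, (W ∩ Q).Nonempty) (u : ℕ → X → ℝ)
    (hb : ∀ x ∈ D, ∃ M : ℝ, ∀ k, |u k x| ≤ M)
    (he : ∀ x ∈ D, ∀ ε : ℝ, 0 < ε → ∃ W ∈ 𝓝 x, ∀ k, ∀ y ∈ W, |u k y - u k x| < ε) :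
    ∃ (φ : ℕ → ℕ) (Φ : X → ℝ), StrictMono φ ∧
      ∀ x ∈ D, Tendsto (fun k => u (φ k) x) atTop (𝓝 (Φ x)) := by
  have : Countable Q := hQ.to_subtype
  have hb' : ∀ x : Q, ∃ M : ℝ, ∀ k, |u k x| ≤ M := fun x => hb x (hQD x.2)
  choose M hM using hb'
  have hc : IsCompact (Set.pi univ (fun x : Q => Icc (-M x) (M x))) := isCompact_univ_pi fun x => isCompact_Icc
  obtain ⟨a, -, φ, hφ, hlim⟩ := hc.tendsto_subseq (x := fun k => fun x : Q => u k x)
    (fun k => fun x _ => abs_le.1 (hM x k))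
  have hQlim : ∀ x : Q, Tendsto (fun k => u (φ k) x) atTop (𝓝 (a x)) := fun x => (tendsto_pi_nhds.1 hlim) x
  have hcau : ∀ x ∈ D, ∃ l : ℝ, Tendsto (fun k => u (φ k) x) atTop (𝓝 l) := by
    intro x hx
    refine cauchySeq_tendsto_of_complete (Metric.cauchySeq_iff.2 fun ε hε => ?_)
    obtain ⟨W, hW, hWu⟩ := he x hx (ε / 3) (by positivity)
    obtain ⟨y, hyW, hyQ⟩ := hQd x hx W hW
    obtain ⟨N, hN⟩ := Metric.cauchySeq_iff.1 (hQlim ⟨y, hyQ⟩).cauchySeq (ε / 3) (by positivity)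
    refine ⟨N, fun m hm k hk => ?_⟩
    have h1 := hWu (φ m) y hyW
    have h2 := hWu (φ k) y hyW
    have h3 := hN m hm k hk
    rw [Real.dist_eq] at h3 ⊢
    rw [abs_lt] at h1 h2 h3 ⊢
    constructor <;> linarith [h1.1, h1.2, h2.1, h2.2, h3.1, h3.2]
  classical
  refine ⟨φ, fun x => if hx : x ∈ D then (hcau x hx).choose else 0, hφ, fun x hx => ?_⟩
  have h1 : (fun x => if hx : x ∈ D then (hcau x hx).choose else 0) x = (hcau x hx).choose := dif_pos hx
  rw [h1]
  exact (hcau x hx).choose_spec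

end Pool.Agent.Helper29.AM
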