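import Pool.Agent.Helper29.AM.GS5

/-!
# Block AM-10c: Monge-Ampere measure of a function with bounded Hessian (11.8')

`BH Ω u H`, `χ` a test function: `∫ χ det hess u_ε → ∫ χ det H`.

Proof. Dominated convergence (`𝓝[>] 0` is countably generated). For small `ε`, `tsupport χ ⊆ shr Ω ε`, and
`hess u_ε z = MH (sc ε) H z` (`BH.hess_Phi`), so the entries are bounded on `tsupport χ` by the constant of `bdd` for a
compact neighbourhood (`∫ρ = 1`), the determinant is bounded (`Matrix.det_apply`, finite sum). A.e. convergence: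
`BH.ae_tendsto` for all entries, continuity of `det`. Measurability: `z ↦ hess u_ε z j k` is continuous on the open set
`shr Ω ε`, and `χ` vanishes outside `tsupport χ`. About 80 lines.

`BH_of_limit`: `exists_BH`: for a compact `K` and a test function `η` with support in `K`,
`∫ u Δη = lim ∫ u_k Δη = lim ∫ (Δu_k) η ≤ C ∫ η` (`integral_mul_DA` with `A = 1`; `L¹(K)` convergence).
`BH.ae_eq_hess`: if `u` is smooth on `Ω` then `H = hess u` a.e. on `Ω` (`BH.ae_tendsto` and `hess u_ε → hess u`, i.e.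
`hess_M` and continuity; or `integral_mul_hess` and the fundamental lemma).
-/

set_option autoImplicit false

namespace Pool.Agent.Helper29.AM

open MeasureTheory Set Filter Topology
open scoped ComplexOrder

variable {n : ℕ} {Ω : Set (V n)} {u : V n → ℝ} {H : V n → Mat n}

private theorem det_bound33 (n : ℕ) (C : ℝ) :
    ∃ D : ℝ, 0 ≤ D ∧ ∀ M : Mat n, (∀ j k, ‖M j k‖ ≤ C) → |M.det.re| ≤ D := by
  classical
  refine ⟨∑ _σ : Equiv.Perm (Fin n), ∏ _i : Fin n, |C|, Finset.sum_nonneg fun _ _ =>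
    Finset.prod_nonneg fun _ _ => abs_nonneg _, fun M hM => ?_⟩
  refine (Complex.abs_re_le_norm _).trans ?_
  rw [Matrix.det_apply]
  refine (norm_sum_le _ _).trans (Finset.sum_le_sum fun σ _ => ?_)
  have h1 : ‖Equiv.Perm.sign σ • ∏ i, M (σ i) i‖ = ‖∏ i, M (σ i) i‖ := by
    rcases Int.units_eq_one_or (Equiv.Perm.sign σ) with hs | hs
    · rw [hs, one_smul]
    · rw [hs, Units.neg_smul, one_smul, norm_neg]
  rw [h1, norm_prod]
  exact Finset.prod_le_prod (fun _ _ => norm_nonneg _) fun i _ => (hM _ _).trans (le_abs_self C)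

private theorem det_tendsto33 {ι : Type*} {l : Filter ι} {K : ι → Mat n} {K' : Mat n}
    (h : ∀ j k, Tendsto (fun i => K i j k) l (𝓝 (K' j k))) :
    Tendsto (fun i => (K i).det.re) l (𝓝 K'.det.re) := by
  have h1 : Tendsto K l (𝓝 K') := tendsto_pi_nhds.2 fun j => tendsto_pi_nhds.2 fun k => h j k
  have h2 : Continuous fun M : Mat n => M.det.re :=
    Complex.continuous_re.comp (Continuous.matrix_det continuous_id)
  exact (h2.tendsto K').comp h1

private theorem MH_le33 {ε C : ℝ} {z : V n} (hC : ∀ ξ : V n, ‖ξ‖ < 1 → ∀ j k,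
    ‖H (z + (sc ε : Lin n) ξ) j k‖ ≤ C) (j k : Fin n) : ‖MH (sc ε) H z j k‖ ≤ C := by
  have h4 : MH (sc ε) H z j k = ∫ ξ : V n, (rho ξ : ℂ) * H (z + (sc ε : Lin n) ξ) j k := rfl
  rw [h4]
  calc ‖∫ ξ : V n, (rho ξ : ℂ) * H (z + (sc ε : Lin n) ξ) j k‖ ≤ ∫ ξ : V n, rho ξ * C := by
        refine norm_integral_le_of_norm_le (rho_integrable.mul_const C)
          (Eventually.of_forall fun ξ => ?_)
        rw [norm_mul, Complex.norm_real, Real.norm_eq_abs, abs_of_nonneg (rho_nonneg ξ)]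
        by_cases hξ : ‖ξ‖ < 1
        · exact mul_le_mul_of_nonneg_left (hC ξ hξ j k) (rho_nonneg ξ)
        · rw [rho_eq_zero (not_lt.1 hξ), zero_mul, zero_mul]
    _ = C := by rw [integral_mul_const, integral_rho, one_mul]

theorem BH.tendsto_det (hΩ : IsOpen Ω) (h : BH Ω u H) {χ : V n → ℝ} (hχ : Tst Ω χ) :
    Tendsto (fun ε : ℝ => ∫ z, χ z * (hess (fun y => Phi u y ε) z).det.re) (𝓝[>] 0)
      (𝓝 (∫ z, χ z * (H z).det.re)) := by
  have hK : IsCompact (tsupport χ) := hχ.cpt
  obtain ⟨R, hR, hRΩ⟩ := hK.exists_cthickening_subset_open hΩ hχ.sub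
  obtain ⟨C, hC⟩ := h.bdd _ hRΩ (IsCompact.cthickening hK)
  obtain ⟨D, hD0, hD⟩ := det_bound33 n C
  have hshr : ∀ ε : ℝ, 0 < ε → ε < R → ∀ z ∈ tsupport χ, z ∈ shr Ω ε := by
    intro ε _ hεR z hz y hy
    exact hRΩ (Metric.mem_cthickening_of_dist_le y z R _ hz ((Metric.mem_closedBall.1 hy).trans hεR.le))
  have hbd : ∀ ε : ℝ, 0 < ε → ε < R → ∀ z ∈ tsupport χ,
      |(hess (fun y => Phi u y ε) z).det.re| ≤ D := by
    intro ε hε hεR z hz
    rw [BH.hess_Phi hΩ h hε (hshr ε hε hεR z hz)]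
    refine hD _ fun j k => MH_le33 (fun ξ hξ j k => hC _ ?_ j k) j k
    refine Metric.mem_cthickening_of_dist_le _ z R _ hz ?_
    rw [dist_eq_norm, add_sub_cancel_left, sc_apply, norm_smul, Complex.norm_real, Real.norm_eq_abs,
      abs_of_pos hε]
    nlinarith [norm_nonneg ξ]
  have hev : ∀ᶠ ε in 𝓝[>] (0 : ℝ), 0 < ε ∧ ε < R := by
    filter_upwards [Ioo_mem_nhdsGT hR] with ε hε
    exact ⟨hε.1, hε.2⟩
  refine tendsto_integral_filter_of_dominated_convergence (fun z => χ z * D) ?_ ?_ ?_ ?_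
  · filter_upwards [hev] with ε hε
    refine Continuous.aestronglyMeasurable ?_
    rw [continuous_iff_continuousAt]
    intro z
    by_cases hz : z ∈ tsupport χ
    · refine hχ.smooth.continuous.continuousAt.mul ?_
      have hzs := hshr ε hε.1 hε.2 z hz
      refine det_tendsto33 fun j k => ?_
      exact ((contDiffOn_hess (isOpen_shr hΩ ε) (contDiffOn_Phi_left hΩ h.int hε.1) j k).continuousOn.continuousAt
        ((isOpen_shr hΩ ε).mem_nhds hzs))
    · have h1 : (fun z => χ z * (hess (fun y => Phi u y ε) z).det.re) =ᶠ[𝓝 z] fun _ => (0 : ℝ) := by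
        filter_upwards [notMem_tsupport_iff_eventuallyEq.1 hz] with y hy
        rw [hy]
        simp
      exact continuousAt_const.congr h1.symm
  · filter_upwards [hev] with ε hε
    refine Eventually.of_forall fun z => ?_
    rw [norm_mul, Real.norm_eq_abs, Real.norm_eq_abs, abs_of_nonneg (hχ.nonneg z)]
    by_cases hz : z ∈ tsupport χ
    · exact mul_le_mul_of_nonneg_left (hbd ε hε.1 hε.2 z hz) (hχ.nonneg z)
    · rw [image_eq_zero_of_notMem_tsupport hz, zero_mul, zero_mul]
  · exact (hχ.smooth.continuous.integrable_of_hasCompactSupport hχ.cpt).mul_const D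
  · have h1 : ∀ᵐ z, ∀ j k, z ∈ Ω →
        Tendsto (fun ε => hess (fun y => Phi u y ε) z j k) (𝓝[>] 0) (𝓝 (H z j k)) :=
      ae_all_iff.2 fun j => ae_all_iff.2 fun k => BH.ae_tendsto hΩ h j k
    filter_upwards [h1] with z hz
    by_cases hzs : z ∈ tsupport χ
    · exact (det_tendsto33 fun j k => hz j k (hχ.sub hzs)).const_mul _
    · rw [image_eq_zero_of_notMem_tsupport hzs]
      simp

/-- a smooth function which is psh in the sense of distributions is psh -/
private theorem spsh33 (hΩ : IsOpen Ω) (h : PSHd Ω u) (hu : ContDiffOn ℝ (⊤ : ℕ∞) u Ω) :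
    SPsh Ω u := by
  refine ⟨hu, fun z hz v => ?_⟩
  have hu2 : ContDiffOn ℝ 2 u Ω := hu.of_le (WithTop.coe_le_coe.2 (le_top : (2 : ℕ∞) ≤ ⊤))
  rcases Nat.eq_zero_or_pos n with hn | hn
  · subst hn
    have hv : v = 0 := Subsingleton.elim _ _
    rw [hv]
    unfold lev D2
    simp
  · have h1 := GS.GP_of_smooth hΩ hu2 continuousOn_const h z hz
    have cz : ContDiffAt ℝ 2 u z := hu2.contDiffAt (hΩ.mem_nhds hz)
    have e1 : lev u z = lf (hess u z) := by
      funext w
      exact lev_eq_lf cz w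
    rw [e1] at h1 ⊢
    exact GP.nonneg hn le_rfl h1 v

theorem BH.ae_eq_hess (hΩ : IsOpen Ω) (h : BH Ω u H) (hu : ContDiffOn ℝ (⊤ : ℕ∞) u Ω) :
    ∀ᵐ z, z ∈ Ω → H z = hess u z := by
  obtain ⟨H', hH', e⟩ := BH.of_smooth hΩ (spsh33 hΩ (BH.pshd h hΩ) hu)
  have h1 : ∀ᵐ z, ∀ j k, z ∈ Ω →
      Tendsto (fun ε => hess (fun y => Phi u y ε) z j k) (𝓝[>] 0) (𝓝 (H z j k)) :=
    ae_all_iff.2 fun j => ae_all_iff.2 fun k => BH.ae_tendsto hΩ h j k
  have h2 : ∀ᵐ z, ∀ j k, z ∈ Ω →
      Tendsto (fun ε => hess (fun y => Phi u y ε) z j k) (𝓝[>] 0) (𝓝 (H' z j k)) :=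
    ae_all_iff.2 fun j => ae_all_iff.2 fun k => BH.ae_tendsto hΩ hH' j k
  filter_upwards [h1, h2] with z h1 h2 hz
  rw [← e z hz]
  ext j k
  exact tendsto_nhds_unique (h1 j k hz) (h2 j k hz)

theorem BH_of_limit (hn : 0 < n) (hΩ : IsOpen Ω) {uk : ℕ → V n → ℝ} (hu : PSHd Ω u)
    (hs : ∀ k, ContDiffOn ℝ (⊤ : ℕ∞) (uk k) Ω)
    (hlim : ∀ K ⊆ Ω, IsCompact K → Tendsto (fun k => ∫ z in K, |uk k z - u z|) atTop (𝓝 0))
    (hC : ∀ K ⊆ Ω, IsCompact K → ∃ C : ℝ, ∀ k, ∀ z ∈ K, DA 1 (uk k) z ≤ C) :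
    ∃ H, BH Ω u H := by
  refine exists_BH hn hΩ hu fun K hK hKc => ?_
  obtain ⟨C, hCK⟩ := hC K hK hKc
  refine ⟨C, fun η hη hηK => ?_⟩
  have hη2 : ContDiff ℝ 2 η := hη.smooth.of_le (WithTop.coe_le_coe.2 (le_top : (2 : ℕ∞) ≤ ⊤))
  have hs2 : ∀ k, ContDiffOn ℝ 2 (uk k) Ω := fun k =>
    (hs k).of_le (WithTop.coe_le_coe.2 (le_top : (2 : ℕ∞) ≤ ⊤))
  -- the Laplacian of the test function
  have hdc : Continuous fun z => DA 1 η z := by
    unfold DA
    exact continuous_finsetSum _ fun l _ =>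
      continuousOn_univ.1 (continuousOn_lev isOpen_univ hη2.contDiffOn _)
  have hd0 : ∀ z, z ∉ tsupport η → DA 1 η z = 0 := by
    intro z hz
    have h1 : η =ᶠ[𝓝 z] fun _ => (0 : ℝ) := notMem_tsupport_iff_eventuallyEq.1 hz
    unfold DA
    refine Finset.sum_eq_zero fun l _ => ?_
    rw [lev_congr h1, lev_const]
  have hdts : tsupport (fun z => DA 1 η z) ⊆ tsupport η := by
    refine closure_minimal ?_ (isClosed_tsupport η)
    intro z hz
    by_contra hcon
    exact hz (hd0 z hcon)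
  have hdcpt : HasCompactSupport fun z => DA 1 η z :=
    hη.cpt.of_isClosed_subset (isClosed_tsupport _) hdts
  obtain ⟨B, hB⟩ := hdcpt.exists_bound_of_continuous hdc
  -- the inequality for the approximations
  have hle : ∀ k, ∫ z, uk k z * DA 1 η z ≤ C * ∫ z, η z := by
    intro k
    rw [integral_mul_DA hΩ 1 (hs2 k) hη2 hη.cpt hη.sub, ← integral_const_mul]
    have hci : Continuous fun z => DA 1 (uk k) z * η z := by
      rw [continuous_iff_continuousAt]
      intro z
      by_cases hz : z ∈ tsupport η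
      · refine ContinuousAt.mul ?_ hη.smooth.continuous.continuousAt
        unfold DA
        exact tendsto_finsetSum _ fun l _ =>
          (continuousOn_lev hΩ (hs2 k) _).continuousAt (hΩ.mem_nhds (hη.sub hz))
      · have h1 : (fun z => DA 1 (uk k) z * η z) =ᶠ[𝓝 z] fun _ => (0 : ℝ) := by
          filter_upwards [notMem_tsupport_iff_eventuallyEq.1 hz] with y hy
          rw [hy]
          simp
        exact continuousAt_const.congr h1.symm
    refine integral_mono (hci.integrable_of_hasCompactSupport hη.cpt.mul_left)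
      ((hη.smooth.continuous.integrable_of_hasCompactSupport hη.cpt).const_mul C) fun z => ?_
    show DA 1 (uk k) z * η z ≤ C * η z
    by_cases hz : z ∈ tsupport η
    · exact mul_le_mul_of_nonneg_right (hCK k z (hηK hz)) (hη.nonneg z)
    · rw [image_eq_zero_of_notMem_tsupport hz, mul_zero, mul_zero]
  -- the limit
  have hloc : ∀ f : V n → ℝ, LocallyIntegrableOn f Ω volume → IntegrableOn f K := fun f hf =>
    hf.integrableOn_compact_subset hK hKc
  have hKi : ∀ f : V n → ℝ, ∫ z, f z * DA 1 η z = ∫ z in K, f z * DA 1 η z := by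
    intro f
    rw [← integral_indicator hKc.measurableSet]
    refine integral_congr_ae (Eventually.of_forall fun z => ?_)
    show f z * DA 1 η z = K.indicator (fun z => f z * DA 1 η z) z
    by_cases hz : z ∈ K
    · rw [indicator_of_mem hz]
    · rw [indicator_of_notMem hz, hd0 z fun h1 => hz (hηK h1), mul_zero]
  have hint : ∀ f : V n → ℝ, IntegrableOn f K → IntegrableOn (fun z => f z * DA 1 η z) K := by
    intro f hf
    exact hf.mul_continuousOn hdc.continuousOn hKc
  have huK : IntegrableOn u K := hloc u hu.int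
  have hukK : ∀ k, IntegrableOn (uk k) K := fun k =>
    hloc _ ((hs k).continuousOn.locallyIntegrableOn hΩ.measurableSet)
  have hlimit : Tendsto (fun k => ∫ z, uk k z * DA 1 η z) atTop (𝓝 (∫ z, u z * DA 1 η z)) := by
    rw [tendsto_iff_norm_sub_tendsto_zero]
    have h1 : Tendsto (fun k => B * ∫ z in K, |uk k z - u z|) atTop (𝓝 0) := by
      simpa using (hlim K hK hKc).const_mul B
    refine squeeze_zero (fun _ => norm_nonneg _) (fun k => ?_) h1
    rw [hKi, hKi, ← integral_sub (hint _ (hukK k)) (hint _ huK), ← integral_const_mul]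
    refine norm_integral_le_of_norm_le (((hukK k).sub huK).abs.const_mul B)
      (Eventually.of_forall fun z => ?_)
    have e1 : uk k z * DA 1 η z - u z * DA 1 η z = DA 1 η z * (uk k z - u z) := by ring
    rw [e1, norm_mul, Real.norm_eq_abs (uk k z - u z)]
    exact mul_le_mul_of_nonneg_right (hB z) (abs_nonneg _)
  exact le_of_tendsto hlimit (Eventually.of_forall hle)

end Pool.Agent.Helper29.AM
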