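import Pool.Agent.Helper64.AM.I1
import Pool.Agent.Helper64.AM.E1
import Pool.Agent.Helper64.AM.E2
import Pool.Agent.Helper64.AM.E3

/-!
# Section 10: the limit function (10.1)
-/

set_option autoImplicit false

namespace Pool.Agent.Helper29.AM

open MeasureTheory Set Filter Topology
open scoped ComplexOrder

namespace Atl

variable {X : Type} [TopologicalSpace X] [MeasurableSpace X] {n N : ℕ} (A : Atl X n N)

theorem continuousOn_symm_Oh (i : Fin N) (D : Set X) :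
    ContinuousOn (A.e i).symm (A.Oh i D) :=
  (A.e i).continuousOn_symm.mono (A.Oh_subset_target i D)

theorem isCompact_image_symm {i : Fin N} {D : Set X} {K : Set (V n)} (hK : IsCompact K)
    (hKO : K ⊆ A.Oh i D) : IsCompact ((A.e i).symm '' K) ∧ (A.e i).symm '' K ⊆ D := by
  refine ⟨hK.image_of_continuousOn ((A.continuousOn_symm_Oh i D).mono hKO), ?_⟩
  rintro _ ⟨z, hz, rfl⟩
  exact (hKO hz).2

include A in
/-- a countable subset of `D` meeting all neighbourhoods of points of `D` -/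
theorem exists_countable_dense {D : Set X} (hD : IsOpen D) : ∃ Q : Set X, Q.Countable ∧ Q ⊆ D ∧
    ∀ x ∈ D, ∀ W ∈ 𝓝 x, (W ∩ Q).Nonempty := by
  obtain ⟨Q₀, hQ₀, hQd⟩ := TopologicalSpace.exists_countable_dense (V n)
  refine ⟨⋃ i : Fin N, (A.e i).symm '' (Q₀ ∩ A.Oh i D), ?_, ?_, ?_⟩
  · exact countable_iUnion fun i => (hQ₀.mono inter_subset_left).image _
  · rintro x hx
    obtain ⟨i, z, hz, rfl⟩ := mem_iUnion.1 hx
    exact hz.2.2
  · intro x hx W hW
    obtain ⟨i, hi⟩ := A.exists_mem_Bi x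
    have hz := A.mem_Oh hi hx
    have hc : ContinuousAt (A.e i).symm (A.e i x) :=
      (A.e i).continuousAt_symm (A.Oh_subset_target i D hz)
    have hW' : (A.e i).symm ⁻¹' W ∩ A.Oh i D ∈ 𝓝 (A.e i x) := by
      refine inter_mem (hc.preimage_mem_nhds ?_) ((A.isOpen_Oh i hD).mem_nhds hz)
      rwa [(A.e i).left_inv hi.1]
    obtain ⟨U, hU, hUo, hUx⟩ := mem_nhds_iff.1 hW'
    obtain ⟨q, hq1, hq2⟩ := hQd.inter_open_nonempty U hUo ⟨_, hUx⟩
    exact ⟨(A.e i).symm q, (hU hq1).1, mem_iUnion.2 ⟨i, q, ⟨hq2, (hU hq1).2⟩, rfl⟩⟩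

/-- equicontinuity on `D` -/
theorem equicontinuous (hn : 0 < n) {D : Set X} (hD : IsOpen D) (u : ℕ → X → ℝ)
    (hu : ∀ k, A.PSX (u k)) (hs : ∀ k, A.SmoothOn D (u k)) {b : X → ℝ} (hb : ContinuousOn b D)
    (hub : ∀ k, ∀ x ∈ D, |u k x| ≤ b x)
    (hL : ∀ K, IsCompact K → K ⊆ D → ∃ C₁ : ℝ, ∀ k, ∀ i, ∀ z : V n, ‖z‖ ≤ 1 →
      (A.e i).symm z ∈ K → DA 1 (A.pot i (u k)) z ≤ C₁) :
    ∀ x ∈ D, ∀ ε : ℝ, 0 < ε → ∃ W ∈ 𝓝 x, ∀ k, ∀ y ∈ W, |u k y - u k x| < ε := by
  intro x hx ε hε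
  obtain ⟨i, hi⟩ := A.exists_mem_Bi x
  have hz := A.mem_Oh hi hx
  have hO := A.isOpen_Oh i hD
  obtain ⟨R, hR, hRO⟩ := Metric.isOpen_iff.1 hO _ hz
  have hr : 0 < R / 4 := by positivity
  have hcl : Metric.closedBall (A.e i x) (2 * (R / 4)) ⊆ A.Oh i D :=
    (Metric.closedBall_subset_ball (by linarith)).trans hRO
  have hcomp : IsCompact (Metric.closedBall (A.e i x) (2 * (R / 4))) := isCompact_closedBall _ _
  obtain ⟨hK1, hK2⟩ := A.isCompact_image_symm hcomp hcl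
  obtain ⟨C₁, hC₁⟩ := hL _ hK1 hK2
  obtain ⟨M, hM⟩ : ∃ M : ℝ, ∀ z ∈ Metric.closedBall (A.e i x) (2 * (R / 4)),
      |A.g i z| + b ((A.e i).symm z) ≤ M := by
    have hc : ContinuousOn (fun z => |A.g i z| + b ((A.e i).symm z)) (A.Oh i D) := by
      refine ContinuousOn.add ?_ ?_
      · exact ((A.g_smooth i).continuousOn.mono (A.Oh_subset_target i D)).abs
      · exact hb.comp (A.continuousOn_symm_Oh i D) fun z hz => hz.2
    obtain ⟨M, hM⟩ := hcomp.exists_bound_of_continuousOn (hc.mono hcl)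
    exact ⟨M, fun z hz => (le_abs_self _).trans (hM z hz)⟩
  obtain ⟨δ, hδ, hδu⟩ := equicontinuous_of_laplace hO hr hcl M C₁ (ε / 2) (by positivity)
  have hgc : ContinuousAt (A.g i) (A.e i x) :=
    ((A.g_smooth i).continuousOn.continuousAt
      ((A.e i).open_target.mem_nhds (A.Oh_subset_target i D hz)))
  have hg : ∀ᶠ z in 𝓝 (A.e i x), |A.g i z - A.g i (A.e i x)| < ε / 2 :=
    (Metric.tendsto_nhds.1 hgc) (ε / 2) (by positivity)
  have hball : ∀ᶠ z in 𝓝 (A.e i x), ‖z - A.e i x‖ < δ := by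
    filter_upwards [Metric.ball_mem_nhds (A.e i x) hδ] with z hz
    rwa [← dist_eq_norm]
  have hec : ContinuousAt (A.e i) x := (A.e i).continuousAt hi.1
  have h3 : ∀ᶠ y in 𝓝 x, |A.g i (A.e i y) - A.g i (A.e i x)| < ε / 2 ∧
      ‖A.e i y - A.e i x‖ < δ ∧ y ∈ (A.e i).source :=
    (hec.eventually hg).and ((hec.eventually hball).and
      ((A.e i).open_source.mem_nhds hi.1))
  refine ⟨_, h3, fun k y hy => ?_⟩
  obtain ⟨hy1, hy2, hy3⟩ := hy
  have hsp : SPsh (A.Oh i D) (A.pot i (u k)) := i1_spsh hn hO (SmoothOn.pot_Oh A (hs k) i)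
    ((hu k i).mono_set hO (A.Oh_subset_B3 i D))
  have h4 := hδu (A.pot i (u k)) hsp.smooth (fun z hz => by
    refine le_trans ?_ (hM z hz)
    refine (abs_add_le _ _).trans ?_
    have := hub k _ (hcl hz).2
    exact add_le_add le_rfl this) (fun z hz => by
    refine ⟨?_, hC₁ k i z ?_ (mem_image_of_mem _ hz)⟩
    · exact Finset.sum_nonneg fun l _ => hsp.psh z (hcl hz) _
    · have := (A.Oh_subset_ball i D (hcl hz))
      rw [mem_ball_zero_iff] at this
      exact this.le) (A.e i y) hy2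
  have e1 : A.pot i (u k) (A.e i y) = A.g i (A.e i y) + u k y := by
    simp only [pot, lc]
    rw [(A.e i).left_inv hy3]
  have e2 : A.pot i (u k) (A.e i x) = A.g i (A.e i x) + u k x := by
    simp only [pot, lc]
    rw [(A.e i).left_inv hi.1]
  rw [e1, e2] at h4
  have e3 : u k y - u k x = (A.g i (A.e i y) + u k y - (A.g i (A.e i x) + u k x)) -
      (A.g i (A.e i y) - A.g i (A.e i x)) := by ring
  rw [e3]
  refine (abs_sub _ _).trans_lt ?_
  linarith

theorem St.congr_ae64 [BorelSpace X] {τ C : ℝ} {v w : X → ℝ} (hv : A.St τ C v)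
    (h : ∀ᵐ x ∂A.μ, v x = w x) : A.St τ C w := by
  refine ⟨?_, fun i => ?_⟩
  · filter_upwards [hv.le, h] with x h1 h2
    rwa [← h2]
  · have hB : IsOpen (B3 n) := Metric.isOpen_ball
    have h1 : ∀ᵐ z : V n, z ∈ B3 n → v ((A.e i).symm z) = w ((A.e i).symm z) := by
      filter_upwards [A.ae_target h i] with z hz hz'
      exact hz (A.B3_subset i hz')
    refine ((hv.gs i).congr hB (v := A.pot i w) ?_).congrF hB ?_ ?_
    · filter_upwards [h1] with z hz hz'
      simp only [pot, lc]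
      rw [hz hz']
    · filter_upwards [h1] with z hz hz'
      simp only [Ft, lc]
      rw [hz hz']
    · intro z hz
      have := A.f_pos i z (A.B3_subset i hz)
      simp only [Ft]
      positivity

end Atl

end Pool.Agent.Helper29.AM
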