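import Pool.Agent.Helper64.AM.Base
import Pool.Agent.Helper29.AM.LA1

/-!
# Block AM-13j: the Monge-Ampere equation under a change of charts

`det_hess_comp`: `κ` holomorphic near `z`, `u` of class `C²` at `κ z`:
`det hess (u ∘ κ) z = |det κ'(z)|² det hess u (κ z)`. Proof: `lev (u∘κ) z w = lev u (κ z) (κ' w)`
(`lev_comp_holo`), both sides as forms of matrices (`lev_eq_lf`): with `B` the matrix of `κ'(z)`
(`LinearMap.toMatrix`, `(κ' w)_j = ∑ B_{jl} w_l`), `hess (u∘κ) z = Bᵀ * hess u (κ z) * B̄` (`eq_of_lf`,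
`hess_isHermitian`), take determinants.
`det_eq_transfer`: let `SmoothOn D v` and the equation hold in the `Oh j D`, `j` arbitrary. For `z` in the
target of the chart `i`, `x = (e i).symm z ∈ D`, `x ∈ B_j(1)`, `κ = e_j ∘ (e i).symm`: near `z`,
`pot i v = (pot j v) ∘ κ - (g_j ∘ κ - g_i)` (`pot_comp`) with `lev (g_j ∘ κ - g_i) = 0` (`g_compat`), so its Hessian
matrix vanishes (`eq_of_lf`); `f_compat`. About 100 lines.
-/

set_option autoImplicit false

namespace Pool.Agent.Helper29.AM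

open MeasureTheory Set Filter Topology
open scoped ComplexOrder

variable {n : ℕ}

private theorem lfeq38 (H : Mat n) (v : V n) :
    lf H v = (dotProduct (fun j => v j) (H.mulVec fun k => starRingEnd ℂ (v k))).re := by
  unfold lf
  congr 1
  simp only [dotProduct, Matrix.mulVec, Finset.mul_sum]
  refine Finset.sum_congr rfl fun j _ => Finset.sum_congr rfl fun k _ => ?_
  ring

private theorem lf38 (H : Mat n) (B : Lin n) (w : V n) :
    lf H (B w) = lf ((LinearMap.toMatrix (EuclideanSpace.basisFun (Fin n) ℂ).toBasis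
      (EuclideanSpace.basisFun (Fin n) ℂ).toBasis (B : V n →ₗ[ℂ] V n)).transpose * H *
      (LinearMap.toMatrix (EuclideanSpace.basisFun (Fin n) ℂ).toBasis
      (EuclideanSpace.basisFun (Fin n) ℂ).toBasis (B : V n →ₗ[ℂ] V n)).map (starRingEnd ℂ)) w := by
  set J := LinearMap.toMatrix (EuclideanSpace.basisFun (Fin n) ℂ).toBasis
      (EuclideanSpace.basisFun (Fin n) ℂ).toBasis (B : V n →ₗ[ℂ] V n) with hJ
  have hB : ∀ j, (B w) j = ∑ a, J j a * w a := by
    intro j
    have := LinearMap.toMatrix_mulVec_repr (EuclideanSpace.basisFun (Fin n) ℂ).toBasis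
      (EuclideanSpace.basisFun (Fin n) ℂ).toBasis (B : V n →ₗ[ℂ] V n) w
    have h2 := congrFun this j
    simp only [Matrix.mulVec, dotProduct, OrthonormalBasis.coe_toBasis_repr_apply,
      EuclideanSpace.basisFun_repr] at h2
    exact h2.symm
  have hu : (fun k => starRingEnd ℂ ((B w) k)) = (J.map (starRingEnd ℂ)).mulVec (fun k => starRingEnd ℂ (w k)) := by
    funext k
    rw [hB k, map_sum]
    simp only [Matrix.mulVec, dotProduct, Matrix.map_apply, map_mul]
  have hv : (fun j => (B w) j) = J.mulVec (fun k => w k) := by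
    funext k
    rw [hB k]
    rfl
  rw [lfeq38, lfeq38, hu, hv, ← Matrix.mulVec_mulVec, ← Matrix.mulVec_mulVec, Matrix.dotProduct_mulVec (fun k => w k),
    Matrix.vecMul_transpose]

private theorem det38 {H K : Mat n} (hK : K.IsHermitian) (hH : H.IsHermitian) (B : Lin n)
    (h : ∀ w, lf K w = lf H (B w)) : K.det.re = ‖B.det‖ ^ 2 * H.det.re := by
  set J := LinearMap.toMatrix (EuclideanSpace.basisFun (Fin n) ℂ).toBasis
      (EuclideanSpace.basisFun (Fin n) ℂ).toBasis (B : V n →ₗ[ℂ] V n) with hJ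
  have hK' : K = J.transpose * H * J.map (starRingEnd ℂ) := by
    refine eq_of_lf hK ?_ fun w => ?_
    · unfold Matrix.IsHermitian
      have e1 : (J.map (starRingEnd ℂ)).conjTranspose = J.transpose := by
        ext a b
        simp [Matrix.conjTranspose_apply]
      have e2 : J.transpose.conjTranspose = J.map (starRingEnd ℂ) := by
        ext a b
        simp [Matrix.conjTranspose_apply]
      rw [Matrix.conjTranspose_mul, Matrix.conjTranspose_mul, hH.eq, e1, e2, Matrix.mul_assoc]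
    · rw [h, lf38]
  have hdet : J.det = B.det := LinearMap.det_toMatrix _ _
  rw [hK', Matrix.det_mul, Matrix.det_mul, Matrix.det_transpose,
    show (J.map (starRingEnd ℂ)).det = starRingEnd ℂ J.det from (RingHom.map_det (starRingEnd ℂ) J).symm, hdet]
  have : B.det * H.det * (starRingEnd ℂ) B.det = ((‖B.det‖ ^ 2 : ℝ) : ℂ) * H.det := by
    rw [mul_right_comm, Complex.mul_conj, Complex.normSq_eq_norm_sq]
  rw [this, Complex.re_ofReal_mul]

theorem det_hess_comp {κ : V n → V n} {z : V n} (hκ : ContDiffAt ℂ 2 κ z) {u : V n → ℝ}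
    (hu : ContDiffAt ℝ 2 u (κ z)) :
    (hess (fun y => u (κ y)) z).det.re = ‖(fderiv ℂ κ z).det‖ ^ 2 * (hess u (κ z)).det.re := by
  have hκr : ContDiffAt ℝ 2 κ z := hκ.restrict_scalars ℝ
  have huκ : ContDiffAt ℝ 2 (fun y => u (κ y)) z := ContDiffAt.comp (g := u) z hu hκr
  refine det38 (hess_isHermitian huκ) (hess_isHermitian hu) _ fun w => ?_
  rw [← lev_eq_lf huκ, ← lev_eq_lf hu, lev_comp_holo hκ hu]

namespace Atl

variable {X : Type} [TopologicalSpace X] [MeasurableSpace X] {N : ℕ} (A : Atl X n N)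

theorem det_eq_transfer {D : Set X} (hD : IsOpen D) {v : X → ℝ} (hv : A.SmoothOn D v)
    (h : ∀ j, ∀ z ∈ A.Oh j D, (hess (A.pot j v) z).det.re = A.f j z) :
    ∀ i, ∀ z ∈ (A.e i).target, (A.e i).symm z ∈ D → (hess (A.pot i v) z).det.re = A.f i z := by
  intro i z hzi hzD
  obtain ⟨j, hj1, hj2⟩ := A.cover ((A.e i).symm z)
  have hz : z ∈ ((A.e i).symm.trans (A.e j)).source := by
    rw [OpenPartialHomeomorph.trans_source]
    exact ⟨hzi, hj1⟩
  have hmem : A.e j ((A.e i).symm z) ∈ A.Oh j D := A.mem_Oh ⟨hj1, hj2⟩ hzD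
  have hv2 : ContDiffAt ℝ 2 (A.pot j v) (A.e j ((A.e i).symm z)) :=
    ((SmoothOn.pot_Oh A hv j).contDiffAt ((A.isOpen_Oh j hD).mem_nhds hmem)).of_le (WithTop.coe_le_coe.2 le_top)
  have hO := ((A.e i).symm.trans (A.e j)).open_source
  have hκ : ContDiffAt ℂ 2 (fun y => A.e j ((A.e i).symm y)) z := by
    have := Pool.Agent.Helper32.contDiffAt_hol (n := 2) ((A.e i).symm.trans (A.e j)).open_source (A.hol i j) hz
    exact this
  have hκr : ContDiffAt ℝ 2 (fun y => A.e j ((A.e i).symm y)) z := hκ.restrict_scalars ℝ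
  have hgj : ContDiffAt ℝ 2 (A.g j) (A.e j ((A.e i).symm z)) :=
    ((A.g_smooth j).contDiffAt ((A.e j).open_target.mem_nhds ((A.e j).map_source hj1))).of_le
      (WithTop.coe_le_coe.2 le_top)
  have hgi : ContDiffAt ℝ 2 (A.g i) z :=
    ((A.g_smooth i).contDiffAt ((A.e i).open_target.mem_nhds hzi)).of_le (WithTop.coe_le_coe.2 le_top)
  have hh : ContDiffAt ℝ 2 (fun y => A.g j (A.e j ((A.e i).symm y)) - A.g i y) z :=
    (ContDiffAt.comp z hgj hκr).sub hgi
  have hvκ : ContDiffAt ℝ 2 (fun y => A.pot j v (A.e j ((A.e i).symm y))) z :=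
    ContDiffAt.comp (g := A.pot j v) z hv2 hκr
  have heq : A.pot i v =ᶠ[𝓝 z] fun y => A.pot j v (A.e j ((A.e i).symm y)) +
      (-1) * (A.g j (A.e j ((A.e i).symm y)) - A.g i y) := by
    filter_upwards [hO.mem_nhds hz] with y hy
    rw [A.pot_comp i j v hy]
    ring
  have hvi : ContDiffAt ℝ 2 (A.pot i v) z :=
    (hvκ.add (contDiffAt_const.mul hh)).congr_of_eventuallyEq heq
  have key : (hess (A.pot i v) z).det.re = ‖(fderiv ℂ (fun y => A.e j ((A.e i).symm y)) z).det‖ ^ 2 *
      (hess (A.pot j v) (A.e j ((A.e i).symm z))).det.re := by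
    refine det38 (hess_isHermitian hvi) (hess_isHermitian hv2) _ fun w => ?_
    rw [← lev_eq_lf hvi, ← lev_eq_lf hv2, lev_congr heq, lev_add hvκ (contDiffAt_const.mul hh),
      lev_const_mul (-1) hh, A.g_compat i j z hz w, mul_zero, add_zero, lev_comp_holo hκ hv2]
  rw [key, h j _ hmem, A.f_compat i j z hz]

end Atl

end Pool.Agent.Helper29.AM
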