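import Pool.Agent.Helper64.AM.E4
import Pool.Agent.Helper64.AM.Gl
import Pool.Agent.Helper64.AM.T1

/-!
# Section 10: the limit function (10.1), (10.2)
-/

set_option autoImplicit false

namespace Pool.Agent.Helper29.AM

open MeasureTheory Set Filter Topology
open scoped ComplexOrder

namespace Atl

variable {X : Type} [TopologicalSpace X] [MeasurableSpace X] {n N : ℕ} (A : Atl X n N)

theorem ae_mem_D {D : Set X} (hD0 : A.μ Dᶜ = 0) : ∀ᵐ x ∂A.μ, x ∈ D := by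
  rw [MeasureTheory.ae_iff]
  exact hD0

/-- `L¹` convergence by domination -/
theorem limit_L1 {D : Set X} (hD0 : A.μ Dᶜ = 0) {u : ℕ → X → ℝ} {Φ φ : X → ℝ} {C₀ : ℝ}
    [IsFiniteMeasure A.μ]
    (hu : ∀ k, Integrable (u k) A.μ) (hφ : Integrable φ A.μ)
    (h1 : ∀ k, ∀ᵐ x ∂A.μ, φ x ≤ u k x) (h2 : ∀ k, ∀ x ∈ D, u k x ≤ C₀)
    (hlim : ∀ x ∈ D, Tendsto (fun k => u k x) atTop (𝓝 (Φ x))) :
    Integrable Φ A.μ ∧ Tendsto (fun k => ∫ x, |u k x - Φ x| ∂A.μ) atTop (𝓝 0) := by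
  have hD := A.ae_mem_D hD0
  have hbd : ∀ k, ∀ᵐ x ∂A.μ, ‖u k x‖ ≤ |φ x| + |C₀| := by
    intro k
    filter_upwards [h1 k, hD] with x hx hxD
    have h3 := h2 k x hxD
    rw [Real.norm_eq_abs, abs_le]
    constructor
    · have := neg_abs_le (φ x)
      have := abs_nonneg C₀
      linarith
    · have := le_abs_self C₀
      have := abs_nonneg (φ x)
      linarith
  have hbi : Integrable (fun x => |φ x| + |C₀|) A.μ := hφ.abs.add (integrable_const _)
  have hlim' : ∀ᵐ x ∂A.μ, Tendsto (fun k => u k x) atTop (𝓝 (Φ x)) := by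
    filter_upwards [hD] with x hx
    exact hlim x hx
  have hΦm : AEStronglyMeasurable Φ A.μ :=
    aestronglyMeasurable_of_tendsto_ae atTop (fun k => (hu k).aestronglyMeasurable) hlim'
  have hΦb : ∀ᵐ x ∂A.μ, ‖Φ x‖ ≤ |φ x| + |C₀| := by
    have h4 : ∀ᵐ x ∂A.μ, ∀ k, ‖u k x‖ ≤ |φ x| + |C₀| := ae_all_iff.2 hbd
    filter_upwards [h4, hlim'] with x hx hx'
    exact le_of_tendsto hx'.norm (Eventually.of_forall hx)
  have hΦ : Integrable Φ A.μ := hbi.mono' hΦm hΦb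
  refine ⟨hΦ, ?_⟩
  have h5 : Tendsto (fun k => ∫ x, |u k x - Φ x| ∂A.μ) atTop (𝓝 (∫ _x, (0 : ℝ) ∂A.μ)) := by
    refine tendsto_integral_of_dominated_convergence (fun x => 2 * (|φ x| + |C₀|)) ?_
      (hbi.const_mul 2) ?_ ?_
    · intro k
      exact ((hu k).sub hΦ).abs.aestronglyMeasurable
    · intro k
      filter_upwards [hbd k, hΦb] with x h6 h7
      rw [Real.norm_eq_abs, abs_abs]
      rw [Real.norm_eq_abs] at h6 h7
      refine (abs_sub _ _).trans ?_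
      linarith
    · filter_upwards [hlim'] with x hx
      have := (hx.sub_const (Φ x)).abs
      simpa using this
  simpa using h5

variable [CompactSpace X] [T2Space X] [BorelSpace X]

/-- the limit is in `S_0` -/
theorem limit_St (hn : 0 < n) {D : Set X} (hD0 : A.μ Dᶜ = 0) {u : ℕ → X → ℝ} {Φ : X → ℝ}
    {C₀ : ℝ} {τ Ck : ℕ → ℝ} (hτ : Tendsto τ atTop (𝓝 0)) (hu : ∀ k, A.St (τ k) (Ck k) (u k))
    (hΦ : Integrable Φ A.μ) (h2 : ∀ k, ∀ x ∈ D, u k x ≤ C₀)
    (hL : Tendsto (fun k => ∫ x, |u k x - Φ x| ∂A.μ) atTop (𝓝 0))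
    (hlim : ∀ x ∈ D, Tendsto (fun k => u k x) atTop (𝓝 (Φ x))) : A.St 0 C₀ Φ := by
  have hD := A.ae_mem_D hD0
  have hB : IsOpen (B3 n) := Metric.isOpen_ball
  refine ⟨?_, fun i => ?_⟩
  · filter_upwards [hD] with x hx
    exact le_of_tendsto (hlim x hx) (Eventually.of_forall fun k => h2 k x hx)
  · have hg : LocallyIntegrableOn (A.g i) (B3 n) volume :=
      ((A.g_smooth i).continuousOn.mono (A.B3_subset i)).locallyIntegrableOn
        hB.measurableSet
    refine GS.limit hB (fun k => (hu k).gs i) ?_ ?_ ?_ ?_ ?_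
    · exact hg.add (A.locallyIntegrable_lc hΦ i)
    · have h3 : ContinuousOn (fun z => A.f i z ^ ((1 : ℝ) / n)) (B3 n) := by
        refine ContinuousOn.rpow_const ((A.f_smooth i).continuousOn.mono (A.B3_subset i)) ?_
        intro z hz
        exact Or.inl (A.f_pos i z (A.B3_subset i hz)).ne'
      have h4 := h3.locallyIntegrableOn (μ := volume) hB.measurableSet
      have e1 : A.Ft 0 i Φ = fun z => A.f i z ^ ((1 : ℝ) / n) := by
        funext z
        rw [A.Ft_zero]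
      rwa [e1]
    · intro z hz
      have := A.f_pos i z (A.B3_subset i hz)
      simp only [Ft]
      positivity
    · intro K hK hKc
      exact A.tendsto_L1_chart (fun k => St.integrable A (hu k)) hΦ hL i hKc hK
    · filter_upwards [A.ae_target hD i] with z hz hz'
      refine ⟨A.Ft 0 i Φ z, le_rfl, ?_⟩
      have h5 := hlim _ (hz (A.B3_subset i hz'))
      have hf := A.f_pos i z (A.B3_subset i hz')
      have h6 : Tendsto (fun k => Real.exp (τ k * A.lc i (u k) z) * A.f i z) atTop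
          (𝓝 (Real.exp (0 * A.lc i Φ z) * A.f i z)) := by
        refine Tendsto.mul_const _ ?_
        exact (Real.continuous_exp.tendsto _).comp (hτ.mul h5)
      exact h6.rpow_const (Or.inl (by positivity))

/-- bounded Hessian of the limit -/
theorem limit_BH (hn : 0 < n) {D : Set X} (hD : IsOpen D) {u : ℕ → X → ℝ} {Φ : X → ℝ}
    {C₀ : ℝ} (hu : ∀ k, Integrable (u k) A.μ) (hs : ∀ k, A.SmoothOn D (u k))
    (hΦi : Integrable Φ A.μ) (hΦ : A.St 0 C₀ Φ)
    (hL : Tendsto (fun k => ∫ x, |u k x - Φ x| ∂A.μ) atTop (𝓝 0))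
    (hLa : ∀ K, IsCompact K → K ⊆ D → ∃ C₁ : ℝ, ∀ k, ∀ i, ∀ z : V n, ‖z‖ ≤ 1 →
      (A.e i).symm z ∈ K → DA 1 (A.pot i (u k)) z ≤ C₁) (i : Fin N) :
    ∃ H, BH (A.Oh i D) (A.pot i Φ) H := by
  have hO := A.isOpen_Oh i hD
  refine BH_of_limit hn hO (uk := fun k => A.pot i (u k))
    ((hΦ.gs i).psh.mono_set hO (A.Oh_subset_B3 i D)) (fun k => SmoothOn.pot_Oh A (hs k) i) ?_ ?_
  · intro K hK hKc
    exact A.tendsto_L1_chart hu hΦi hL i hKc (hK.trans (A.Oh_subset_B3 i D))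
  · intro K hK hKc
    obtain ⟨hK1, hK2⟩ := A.isCompact_image_symm hKc hK
    obtain ⟨C₁, hC₁⟩ := hLa _ hK1 hK2
    refine ⟨C₁, fun k z hz => hC₁ k i z ?_ (mem_image_of_mem _ hz)⟩
    have := (A.Oh_subset_ball i D (hK hz))
    rw [mem_ball_zero_iff] at this
    exact this.le

end Atl

open scoped Manifold in
/-- a test function which is `1` on a compact set -/
theorem exists_tst_one {n : ℕ} {Ω K : Set (V n)} (hΩ : IsOpen Ω) (hK : IsCompact K)
    (hKΩ : K ⊆ Ω) : ∃ χ : V n → ℝ, Tst Ω χ ∧ (∀ z, χ z ≤ 1) ∧ ∀ z ∈ K, χ z = 1 := by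
  obtain ⟨K', hK', hKK', hK'O⟩ := exists_compact_between hK hΩ hKΩ
  obtain ⟨f, hf1, hf0, hf⟩ := exists_contMDiffMap_one_nhds_of_subset_interior (n := (⊤ : ℕ∞))
    𝓘(ℝ, V n) (s := K) (t := K') hK.isClosed hKK'
  have hfc : ContDiff ℝ (⊤ : ℕ∞) f := f.contMDiff.contDiff
  have hcpt : HasCompactSupport (f : V n → ℝ) := HasCompactSupport.intro hK' hf0
  refine ⟨f, ⟨hfc, hcpt, ?_, fun z => (hf z).1⟩, fun z => (hf z).2,
    fun z hz => hf1.self_of_nhdsSet z hz⟩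
  refine (closure_minimal ?_ hK'.isClosed).trans hK'O
  intro z hz
  by_contra hn
  exact hz (hf0 z hn)

/-- a nonnegative function with nonpositive integrals against test functions vanishes -/
theorem ae_eq_zero_of_test {n : ℕ} {Ω : Set (V n)} (hΩ : IsOpen Ω) {w : V n → ℝ}
    (hw : ∀ χ : V n → ℝ, Tst Ω χ → Integrable fun z => χ z * w z)
    (h0 : ∀ᵐ z, z ∈ Ω → 0 ≤ w z)
    (h : ∀ χ : V n → ℝ, Tst Ω χ → (∀ z, χ z ≤ 1) → ∫ z, χ z * w z ≤ 0) :
    ∀ᵐ z, z ∈ Ω → w z = 0 := by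
  have key : ∀ z ∈ Ω, ∃ u ∈ 𝓝[{z | z ∈ Ω ∧ w z ≠ 0}] z, volume (u ∩ {z | z ∈ Ω ∧ w z ≠ 0}) = 0 := by
    intro z hz
    obtain ⟨r, hr, hrΩ⟩ := Metric.nhds_basis_closedBall.mem_iff.1 (hΩ.mem_nhds hz)
    obtain ⟨χ, hχ, hχ1, hχK⟩ := exists_tst_one hΩ (isCompact_closedBall z r) hrΩ
    refine ⟨Metric.closedBall z r, mem_nhdsWithin_of_mem_nhds (Metric.closedBall_mem_nhds z hr), ?_⟩
    have h1 : 0 ≤ᵐ[volume] fun z => χ z * w z := by
      filter_upwards [h0] with y hy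
      by_cases hyΩ : y ∈ Ω
      · exact mul_nonneg (hχ.nonneg y) (hy hyΩ)
      · have h8 : χ y = 0 := image_eq_zero_of_notMem_tsupport fun h => hyΩ (hχ.sub h)
        show 0 ≤ χ y * w y
        rw [h8, zero_mul]
    have h2 : ∫ z, χ z * w z = 0 := le_antisymm (h χ hχ hχ1) (integral_nonneg_of_ae h1)
    have h3 := (integral_eq_zero_iff_of_nonneg_ae h1 (hw χ hχ)).1 h2
    have h4 : volume {y | ¬ (χ y * w y = 0)} = 0 := by
      have := MeasureTheory.ae_iff.1 h3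
      simpa using this
    refine measure_mono_null ?_ h4
    rintro y ⟨hy1, hy2⟩
    simp only [mem_ofPred_eq]
    rw [hχK y hy1, one_mul]
    exact hy2.2
  have h5 : volume {z | z ∈ Ω ∧ w z ≠ 0} = 0 := by
    refine measure_null_of_locally_null _ fun z hz => ?_
    obtain ⟨u, hu1, hu2⟩ := key z hz.1
    exact ⟨u ∩ {z | z ∈ Ω ∧ w z ≠ 0}, inter_mem hu1 self_mem_nhdsWithin, hu2⟩
  rw [MeasureTheory.ae_iff]
  refine measure_mono_null ?_ h5
  intro z hz
  simp only [mem_ofPred_eq, Classical.not_imp] at hz ⊢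
  exact hz

theorem BH.measurable_det {n : ℕ} {Ω : Set (V n)} {u : V n → ℝ} {H : V n → Mat n}
    (h : BH Ω u H) : Measurable fun z => (H z).det.re := by
  refine Complex.measurable_re.comp ?_
  simp only [Matrix.det_apply]
  refine Finset.measurable_sum _ fun σ _ => ?_
  refine Measurable.const_smul ?_ _
  exact Finset.measurable_prod _ fun i _ => h.meas _ _

theorem BH.det_bdd {n : ℕ} {Ω : Set (V n)} {u : V n → ℝ} {H : V n → Mat n}
    (h : BH Ω u H) {K : Set (V n)} (hK : IsCompact K) (hKΩ : K ⊆ Ω) :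
    ∃ C : ℝ, 0 ≤ C ∧ ∀ z ∈ K, |(H z).det.re| ≤ C := by
  obtain ⟨C, hC⟩ := h.bdd K hKΩ hK
  have hC' : ∀ z ∈ K, ∀ j k, ‖H z j k‖ ≤ |C| := fun z hz j k =>
    (hC z hz j k).trans (le_abs_self C)
  refine ⟨∑ _σ : Equiv.Perm (Fin n), |C| ^ n, by positivity, fun z hz => ?_⟩
  refine (Complex.abs_re_le_norm _).trans ?_
  rw [Matrix.det_apply]
  refine (norm_sum_le _ _).trans (Finset.sum_le_sum fun σ _ => ?_)
  have h1 : ‖(Equiv.Perm.sign σ) • ∏ i, H z (σ i) i‖ = ‖∏ i, H z (σ i) i‖ := by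
    rcases Int.units_eq_one_or (Equiv.Perm.sign σ) with h2 | h2
    · rw [h2, one_smul]
    · rw [h2, Units.neg_smul, one_smul, norm_neg]
  rw [h1, norm_prod]
  refine (Finset.prod_le_prod (fun i _ => norm_nonneg _) fun i _ => hC' z hz _ _).trans ?_
  simp

theorem BH.integrable_det {n : ℕ} {Ω : Set (V n)} {u : V n → ℝ} {H : V n → Mat n}
    (h : BH Ω u H) {χ : V n → ℝ} (hχ : Tst Ω χ) : Integrable fun z => χ z * (H z).det.re := by
  obtain ⟨C, hC0, hC⟩ := h.det_bdd hχ.cpt hχ.sub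
  have hi : Integrable χ := hχ.smooth.continuous.integrable_of_hasCompactSupport hχ.cpt
  refine (hi.mul_const C).mono'
    (hχ.smooth.continuous.aestronglyMeasurable.mul h.measurable_det.aestronglyMeasurable) ?_
  refine ae_of_all _ fun z => ?_
  rw [norm_mul, Real.norm_of_nonneg (hχ.nonneg z), Real.norm_eq_abs]
  by_cases hz : z ∈ tsupport χ
  · exact mul_le_mul_of_nonneg_left (hC z hz) (hχ.nonneg z)
  · have h8 : χ z = 0 := image_eq_zero_of_notMem_tsupport hz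
    rw [h8, zero_mul, zero_mul]

end Pool.Agent.Helper29.AM
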