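import Pool.Agent.Helper29.AM.Defs

/-!
# Block AM-13a: comparison of measures from test functions

`α`, `β` finite measures on `V n`, `Ω` open, `∫ χ dα ≤ ∫ χ dβ` for all smooth `χ ≥ 0` with compact support
in `Ω`. Then `α E ≤ β E` for all Borel sets `E ⊆ Ω`.

Proof. (1) `K ⊆ O ⊆ Ω`, `K` compact, `O` open: there is a smooth `χ : V n → [0,1]` with compact support in
`O`, `χ = 1` on `K` (take an open `O'` with compact closure, `K ⊆ O' ⊆ closure O' ⊆ O`, and
`exists_contDiff_tsupport_subset`/`exists_contMDiff_...` or `exists_smooth_...`; in this Mathlib e.g.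
`exists_contDiff_one_nhds_of_subset...`, or a finite sum of bump functions). So
`α K ≤ ∫ χ dα ≤ ∫ χ dβ ≤ β O`. (2) `β` is outer regular (finite Borel measure on a metric space):
`α K ≤ β K` (infimum over open `O` with `K ⊆ O`, replace `O` by `O ∩ Ω`). (3) `α` is inner regular
(`MeasurableSet.exists_isCompact_lt_add` or `measure_eq_iSup_isCompact`): `α E = sup α K ≤ β E`.
About 60 lines.
-/

set_option autoImplicit false

namespace Pool.Agent.Helper29.AM

open MeasureTheory Set Filter Topology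
open scoped ComplexOrder

variable {n : ℕ}

open scoped Manifold in
private theorem le_open21 {Ω : Set (V n)} (α β : Measure (V n))
    [IsFiniteMeasure α] [IsFiniteMeasure β]
    (h : ∀ χ : V n → ℝ, Tst Ω χ → ∫ z, χ z ∂α ≤ ∫ z, χ z ∂β) {K O : Set (V n)}
    (hK : IsCompact K) (hO : IsOpen O) (hKO : K ⊆ O) (hOΩ : O ⊆ Ω) : α K ≤ β O := by
  obtain ⟨K', hK', hKK', hK'O⟩ := exists_compact_between hK hO hKO
  obtain ⟨f, hf1, hf0, hf⟩ := exists_contMDiffMap_one_nhds_of_subset_interior (n := (⊤ : ℕ∞))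
    𝓘(ℝ, V n) (s := K) (t := K') hK.isClosed hKK'
  have hfc : ContDiff ℝ (⊤ : ℕ∞) f := f.contMDiff.contDiff
  have hcpt : HasCompactSupport (f : V n → ℝ) := HasCompactSupport.intro hK' hf0
  have hT : Tst Ω (f : V n → ℝ) := by
    refine ⟨hfc, hcpt, ?_, fun z => (hf z).1⟩
    refine (closure_minimal ?_ hK'.isClosed).trans (hK'O.trans hOΩ)
    intro z hz
    by_contra hn
    exact hz (hf0 z hn)
  have hα : Integrable (f : V n → ℝ) α := hfc.continuous.integrable_of_hasCompactSupport hcpt
  have hβ : Integrable (f : V n → ℝ) β := hfc.continuous.integrable_of_hasCompactSupport hcpt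
  have h1 : α K ≤ ∫⁻ z, ENNReal.ofReal (f z) ∂α := by
    rw [← lintegral_indicator_one hK.measurableSet]
    refine lintegral_mono fun z => ?_
    by_cases hz : z ∈ K
    · rw [indicator_of_mem hz, hf1.self_of_nhdsSet z hz, ENNReal.ofReal_one]
      rfl
    · rw [indicator_of_notMem hz]
      exact zero_le
  have h2 : ∫⁻ z, ENNReal.ofReal (f z) ∂β ≤ β O := by
    rw [← lintegral_indicator_one hO.measurableSet]
    refine lintegral_mono fun z => ?_
    by_cases hz : z ∈ O
    · rw [indicator_of_mem hz]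
      exact ENNReal.ofReal_le_one.2 (hf z).2
    · rw [hf0 z fun hz' => hz (hK'O hz'), ENNReal.ofReal_zero]
      exact zero_le
  refine h1.trans (le_trans ?_ h2)
  rw [← ofReal_integral_eq_lintegral_ofReal hα (Eventually.of_forall fun z => (hf z).1),
    ← ofReal_integral_eq_lintegral_ofReal hβ (Eventually.of_forall fun z => (hf z).1)]
  exact ENNReal.ofReal_le_ofReal (h _ hT)

theorem measure_le_of_test {Ω : Set (V n)} (hΩ : IsOpen Ω) (α β : Measure (V n))
    [IsFiniteMeasure α] [IsFiniteMeasure β]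
    (h : ∀ χ : V n → ℝ, Tst Ω χ → ∫ z, χ z ∂α ≤ ∫ z, χ z ∂β) {E : Set (V n)}
    (hE : MeasurableSet E) (hEΩ : E ⊆ Ω) : α E ≤ β E := by
  have h2 : ∀ K : Set (V n), IsCompact K → K ⊆ Ω → α K ≤ β K := by
    intro K hK hKΩ
    rw [K.measure_eq_iInf_isOpen β]
    refine le_iInf₂ fun U hU => le_iInf fun hUo => ?_
    exact (le_open21 α β h hK (hUo.inter hΩ) (subset_inter hU hKΩ) inter_subset_right).trans
      (measure_mono inter_subset_left)
  rw [hE.measure_eq_iSup_isCompact α]
  refine iSup₂_le fun K hK => iSup_le fun hKc => ?_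
  exact (h2 K hKc (hK.trans hEΩ)).trans (measure_mono hK)

end Pool.Agent.Helper29.AM
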