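import Pool.Agent.Helper64.AM.Base
import Pool.Agent.Helper64.AM.M1

/-!
# Block AM-13b: the mass comparison (used in sections 10 and 13)

`m` a measure on `X`, `m(X) ≤ μ(X) < ∞`, `μ(X \ D) = 0`, `c ≥ 0`, and
`c ∫ χ cn f_i dλ ≤ ∫_{B_i(3)} χ(e_i x) dm` for all test functions `χ` in `A.Oh i D` (all charts `i`).
Then for all test functions `0 ≤ χ ≤ 1` in `A.Oh i D`:
`∫_{B_i(3)} χ(e_i x) dm ≤ c ∫ χ cn f_i dλ + (1 - c) μ(X)`.

Proof. (1) For Borel `E ⊆ D ∩ B_i(1)`: `ofReal c * μ E ≤ m E`. Apply `measure_le_of_test` with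
`Ω = A.Oh i D`, `α = ofReal c • (μ.restrict (A.Bi i 3)).map (A.e i)`, `β = (m.restrict (A.Bi i 3)).map (A.e i)`,
to the set `(A.Oh i D) ∩ (A.e i).symm ⁻¹' E`; `∫ χ dα = c ∫ χ cn f_i dλ` by
`setIntegral_chart` (or `μ_eq`), because `χ (e i x)` vanishes for `x` outside `B_i(1)`; `e i` is continuous
on its open source, so a.e. measurable for the restricted measures. `μ` is finite (`isFiniteMeasure`).
(2) `X` is the union of the `B_i(1)`; split a Borel set `E ∩ D` into finitely many disjoint Borel pieces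
(`disjointed`, or induction), and `μ (E \ D) = 0`: `ofReal c * μ E ≤ m E` for all Borel `E`, i.e.
`ofReal c • μ ≤ m`. (3) `h(x) = χ(e_i x)` on `B_i(3)`, `0` elsewhere, is measurable with values in `[0,1]`.
`∫ (1-h) dm ≥ c ∫ (1-h) dμ` (`integral_mono_measure`), so
`∫ h dm = m(X) - ∫ (1-h) dm ≤ μ(X) - c μ(X) + c ∫ h dμ`. About 120 lines.
-/

set_option autoImplicit false

namespace Pool.Agent.Helper29.AM

open MeasureTheory Set Filter Topology
open scoped ComplexOrder

namespace Atl

variable {X : Type} [TopologicalSpace X] [MeasurableSpace X] {n N : ℕ} (A : Atl X n N)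

section

variable [BorelSpace X]

private theorem int56 {D : Set X} (i : Fin N) {χ : V n → ℝ} (hχ : Tst (A.Oh i D) χ) :
    ∫ x in A.Bi i 3, χ (A.e i x) ∂A.μ = ∫ z, χ z * (cn n * A.f i z) := by
  have hO : IsOpen (A.Bi i 3) := A.isOpen_Bi i 3
  rw [A.setIntegral_chart i hO.measurableSet (fun x hx => hx.1)]
  have h1 : (A.e i).target ∩ (A.e i).symm ⁻¹' A.Bi i 3 = B3 n := by
    ext z
    constructor
    · rintro ⟨hz, hz'⟩
      have h2 := hz'.2
      rw [(A.e i).right_inv hz] at h2
      exact mem_ball_zero_iff.2 h2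
    · intro hz
      have hz' := A.B3_subset i hz
      refine ⟨hz', (A.e i).map_target hz', ?_⟩
      rw [(A.e i).right_inv hz']
      exact mem_ball_zero_iff.1 hz
  rw [h1]
  have h2 : ∫ z in B3 n, A.lc i (fun x => χ (A.e i x)) z * (cn n * A.f i z) =
      ∫ z in B3 n, χ z * (cn n * A.f i z) := by
    refine setIntegral_congr_fun Metric.isOpen_ball.measurableSet fun z hz => ?_
    change χ (A.e i ((A.e i).symm z)) * _ = _
    rw [(A.e i).right_inv (A.B3_subset i hz)]
  rw [h2]
  refine setIntegral_eq_integral_of_forall_compl_eq_zero fun z hz => ?_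
  have h3 : χ z = 0 := by
    by_contra hne
    exact hz (A.Oh_subset_B3 i D (hχ.sub (subset_tsupport _ hne)))
  rw [h3, zero_mul]

private theorem aem56 (i : Fin N) (m : Measure X) : AEMeasurable (A.e i) (m.restrict (A.Bi i 3)) :=
  ((A.e i).continuousOn.mono fun _ hx => hx.1).aemeasurable (A.isOpen_Bi i 3).measurableSet

private theorem meas56 {D : Set X} (hD : IsOpen D) (i : Fin N) {E : Set X} (hE : MeasurableSet E) :
    MeasurableSet (A.Oh i D ∩ (A.e i).symm ⁻¹' E) := by
  have hO := A.isOpen_Oh i hD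
  have h1 : ContinuousOn (A.e i).symm (A.Oh i D) := (A.e i).continuousOn_symm.mono (A.Oh_subset_target i D)
  have h2 : Measurable ((A.Oh i D).domRestrict (A.e i).symm) :=
    (continuousOn_iff_continuous_domRestrict.1 h1).measurable
  have h3 := hO.measurableSet.subtype_image (h2 hE)
  have h4 : A.Oh i D ∩ (A.e i).symm ⁻¹' E =
      Subtype.val '' ((A.Oh i D).domRestrict (A.e i).symm ⁻¹' E) := by
    ext z
    constructor
    · rintro ⟨hz, hz'⟩
      exact ⟨⟨z, hz⟩, hz', rfl⟩
    · rintro ⟨⟨y, hy⟩, hy', rfl⟩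
      exact ⟨hy, hy'⟩
  rw [h4]
  exact h3

private theorem step56 [CompactSpace X] [T2Space X] {D : Set X} (hD : IsOpen D) {m : Measure X} [IsFiniteMeasure m]
    {c : ℝ} (hc : 0 ≤ c) (i : Fin N)
    (h : ∀ χ : V n → ℝ, Tst (A.Oh i D) χ →
      c * ∫ z, χ z * (cn n * A.f i z) ≤ ∫ x in A.Bi i 3, χ (A.e i x) ∂m) {E : Set X} (hE : MeasurableSet E)
    (hED : E ⊆ D) (hEB : E ⊆ A.Bi i 1) : ENNReal.ofReal c * A.μ E ≤ m E := by
  have hfin : IsFiniteMeasure A.μ := A.isFiniteMeasure
  have hpre : (A.e i) ⁻¹' (A.Oh i D ∩ (A.e i).symm ⁻¹' E) ∩ A.Bi i 3 = E := by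
    ext x
    constructor
    · rintro ⟨⟨_, hx⟩, hx'⟩
      have hx2 : (A.e i).symm (A.e i x) ∈ E := hx
      rwa [(A.e i).left_inv hx'.1] at hx2
    · intro hx
      have hx1 := hEB hx
      refine ⟨⟨A.mem_Oh hx1 (hED hx), ?_⟩, hx1.1, hx1.2.trans (by norm_num)⟩
      change (A.e i).symm (A.e i x) ∈ E
      rw [(A.e i).left_inv hx1.1]
      exact hx
  have hm := A.meas56 hD i hE
  have hmap : ∀ ν : Measure X, (ν.restrict (A.Bi i 3)).map (A.e i) (A.Oh i D ∩ (A.e i).symm ⁻¹' E) = ν E := by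
    intro ν
    rw [Measure.map_apply_of_aemeasurable (A.aem56 i ν) hm, Measure.restrict_apply' (A.isOpen_Bi i 3).measurableSet, hpre]
  have hfa : IsFiniteMeasure (ENNReal.ofReal c • (A.μ.restrict (A.Bi i 3)).map (A.e i)) :=
    Measure.smul_finite _ ENNReal.ofReal_ne_top
  have h1 := measure_le_of_test (A.isOpen_Oh i hD) (ENNReal.ofReal c • (A.μ.restrict (A.Bi i 3)).map (A.e i))
    ((m.restrict (A.Bi i 3)).map (A.e i)) (fun χ hχ => by
      rw [integral_smul_measure, integral_map (A.aem56 i A.μ) hχ.smooth.continuous.aestronglyMeasurable,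
        integral_map (A.aem56 i m) hχ.smooth.continuous.aestronglyMeasurable, A.int56 i hχ, ENNReal.toReal_ofReal hc, smul_eq_mul]
      exact h χ hχ) hm inter_subset_left
  rw [Measure.smul_apply, hmap, hmap, smul_eq_mul] at h1
  exact h1

end

theorem mass_compare [CompactSpace X] [T2Space X] [BorelSpace X] {D : Set X} (hD : IsOpen D)
    (hD0 : A.μ Dᶜ = 0) {m : Measure X} (hm : m univ ≤ A.μ univ) {c : ℝ} (hc : 0 ≤ c)
    (h : ∀ i, ∀ χ : V n → ℝ, Tst (A.Oh i D) χ →
      c * ∫ z, χ z * (cn n * A.f i z) ≤ ∫ x in A.Bi i 3, χ (A.e i x) ∂m) :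
    ∀ i, ∀ χ : V n → ℝ, Tst (A.Oh i D) χ → (∀ z, χ z ≤ 1) →
      ∫ x in A.Bi i 3, χ (A.e i x) ∂m ≤
        c * (∫ z, χ z * (cn n * A.f i z)) + (1 - c) * (A.μ univ).toReal := by
  classical
  have hfin : IsFiniteMeasure A.μ := A.isFiniteMeasure
  have hmfin : IsFiniteMeasure m := ⟨lt_of_le_of_lt hm (measure_lt_top _ _)⟩
  have h1 : ∀ s : Finset (Fin N), ∀ E : Set X, MeasurableSet E → E ⊆ D → E ⊆ ⋃ i ∈ s, A.Bi i 1 →
      ENNReal.ofReal c * A.μ E ≤ m E := by
    intro s
    induction s using Finset.induction_on with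
    | empty =>
      intro E _ _ hE
      have h2 : E = ∅ := by
        refine subset_empty_iff.1 fun x hx => ?_
        have := hE hx
        simp at this
      rw [h2, measure_empty, mul_zero]
      exact zero_le
    | insert i s hi ih =>
      intro E hE hED hEU
      have hB : MeasurableSet (A.Bi i 1) := (A.isOpen_Bi i 1).measurableSet
      have h2 := A.step56 hD hc i (h i) (hE.inter hB) (inter_subset_left.trans hED) inter_subset_right
      have h3 := ih (E \ A.Bi i 1) (hE.diff hB) (sdiff_subset.trans hED) (fun x hx => by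
        have h4 := hEU hx.1
        rw [Finset.set_biUnion_insert] at h4
        exact h4.resolve_left hx.2)
      rw [← measure_inter_add_sdiff E hB, ← measure_inter_add_sdiff (μ := m) E hB, mul_add]
      exact add_le_add h2 h3
  have h2 : ∀ E : Set X, MeasurableSet E → ENNReal.ofReal c * A.μ E ≤ m E := by
    intro E hE
    have h3 : A.μ E ≤ A.μ (E ∩ D) := by
      calc A.μ E ≤ A.μ (E ∩ D ∪ Dᶜ) := measure_mono fun x hx => by
            by_cases hxD : x ∈ D
            · exact Or.inl ⟨hx, hxD⟩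
            · exact Or.inr hxD
        _ ≤ A.μ (E ∩ D) + A.μ Dᶜ := measure_union_le _ _
        _ = A.μ (E ∩ D) := by rw [hD0, add_zero]
    calc ENNReal.ofReal c * A.μ E ≤ ENNReal.ofReal c * A.μ (E ∩ D) := by gcongr
      _ ≤ m (E ∩ D) := h1 Finset.univ _ (hE.inter hD.measurableSet) inter_subset_right fun x _ => by
          obtain ⟨j, hj⟩ := A.exists_mem_Bi x
          exact mem_iUnion₂.2 ⟨j, Finset.mem_univ j, hj⟩
      _ ≤ m E := measure_mono inter_subset_left
  have h3 : ENNReal.ofReal c • A.μ ≤ m := by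
    refine Measure.le_iff.2 fun E hE => ?_
    rw [Measure.smul_apply, smul_eq_mul]
    exact h2 E hE
  intro i χ hχ hχ1
  have hB : MeasurableSet (A.Bi i 3) := (A.isOpen_Bi i 3).measurableSet
  set F : X → ℝ := (A.Bi i 3).indicator fun x => χ (A.e i x) with hF
  have hFm : Measurable F := by
    have h4 : ContinuousOn (fun x => χ (A.e i x)) (A.Bi i 3) :=
      hχ.smooth.continuous.comp_continuousOn ((A.e i).continuousOn.mono fun x hx => hx.1)
    have h5 := h4.measurable_piecewise (g := 0) continuousOn_const hB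
    rwa [Set.piecewise_eq_indicator] at h5
  have hF0 : ∀ x, 0 ≤ F x := fun x => indicator_nonneg (fun y _ => hχ.nonneg _) x
  have hF1 : ∀ x, F x ≤ 1 := fun x => by
    rw [hF]
    by_cases hx : x ∈ A.Bi i 3
    · rw [indicator_of_mem hx]
      exact hχ1 _
    · rw [indicator_of_notMem hx]
      exact zero_le_one
  have hFi : ∀ ν : Measure X, IsFiniteMeasure ν → Integrable F ν := fun ν hν =>
    Integrable.of_bound hFm.aestronglyMeasurable 1 (Eventually.of_forall fun x => by
      rw [Real.norm_of_nonneg (hF0 x)]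
      exact hF1 x)
  have h5 : ∫ x, (1 - F x) ∂(ENNReal.ofReal c • A.μ) ≤ ∫ x, (1 - F x) ∂m :=
    integral_mono_measure h3 (Eventually.of_forall fun x => sub_nonneg.2 (hF1 x)) ((integrable_const 1).sub (hFi m hmfin))
  rw [integral_smul_measure, integral_sub (integrable_const 1) (hFi A.μ hfin), integral_sub (integrable_const 1) (hFi m hmfin),
    integral_const, integral_const, ENNReal.toReal_ofReal hc, hF, integral_indicator hB, integral_indicator hB,
    A.int56 i hχ, smul_eq_mul, smul_eq_mul, smul_eq_mul, mul_one, mul_one] at h5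
  have h6 : m.real univ ≤ A.μ.real univ := ENNReal.toReal_mono (measure_ne_top _ _) hm
  have h7 : (A.μ univ).toReal = A.μ.real univ := rfl
  rw [h7]
  linarith

end Atl

end Pool.Agent.Helper29.AM
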