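import Pool.Agent.Helper64.AM.L4
import Pool.Agent.Helper64.AM.M2
import Pool.Agent.Helper29.AM.GS3

/-!
# (13.1): equality in the mixed Monge-Ampere inequality
-/

set_option autoImplicit false

namespace Pool.Agent.Helper29.AM

open MeasureTheory Set Filter Topology
open scoped ComplexOrder

/-- smooth distributional psh functions are smooth psh -/
theorem i1_spsh {n : ℕ} (hn : 0 < n) {Ω : Set (V n)} (hΩ : IsOpen Ω) {u : V n → ℝ}
    (hu : ContDiffOn ℝ (⊤ : ℕ∞) u Ω) (h : PSHd Ω u) : SPsh Ω u := by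
  refine ⟨hu, fun z hz v => ?_⟩
  have h2 : ContDiffOn ℝ 2 u Ω := hu.of_le l4_two_le
  have h3 := GS.GP_of_smooth hΩ h2 continuousOn_const h z hz
  have h4 : ContDiffAt ℝ 2 u z := h2.contDiffAt (hΩ.mem_nhds hz)
  rw [lev_eq_lf h4]
  refine GP.nonneg hn (F := 0) le_rfl ?_ v
  exact h3.mono le_rfl fun w => by rw [lev_eq_lf h4]

/-- the elementary inequality `(1-s)^n + n s (1-s)^{n-1} ≥ 1 - n² s²` -/
theorem i1_c_ge {n : ℕ} {s : ℝ} (hs0 : 0 ≤ s) (hs1 : s ≤ 1) :
    1 - n ^ 2 * s ^ 2 ≤ (1 - s) ^ n + n * s * (1 - s) ^ (n - 1) := by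
  have h1 : 1 + (n : ℝ) * (-s) ≤ (1 + (-s)) ^ n :=
    one_add_mul_le_pow (by linarith) n
  have h2 : 1 + ((n - 1 : ℕ) : ℝ) * (-s) ≤ (1 + (-s)) ^ (n - 1) :=
    one_add_mul_le_pow (by linarith) (n - 1)
  have h3 : ((n - 1 : ℕ) : ℝ) ≤ n := by
    exact_mod_cast Nat.sub_le n 1
  have h4 : 1 - (n : ℝ) * s ≤ (1 - s) ^ (n - 1) := by
    have : 1 + ((n - 1 : ℕ) : ℝ) * (-s) ≥ 1 - n * s := by nlinarith
    have h5 : (1 + (-s)) ^ (n - 1) = (1 - s) ^ (n - 1) := by ring
    linarith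
  have h6 : 1 - (n : ℝ) * s ≤ (1 - s) ^ n := by
    have h5 : (1 + (-s)) ^ n = (1 - s) ^ n := by ring
    linarith
  have h7 : (n : ℝ) * s * (1 - n * s) ≤ n * s * (1 - s) ^ (n - 1) :=
    mul_le_mul_of_nonneg_left h4 (by positivity)
  nlinarith

namespace Atl

variable {X : Type} [TopologicalSpace X] [MeasurableSpace X] {n N : ℕ} (A : Atl X n N)

theorem pot_combine (i : Fin N) (v w : X → ℝ) (s : ℝ) (z : V n) :
    A.pot i (fun x => (1 - s) * v x + s * w x) z = (1 - s) * A.pot i v z + s * A.pot i w z := by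
  simp only [pot, lc]
  ring

theorem PSX.combine {v w : X → ℝ} (hv : A.PSX v) (hw : A.PSX w) {s : ℝ} (hs0 : 0 ≤ s)
    (hs1 : s ≤ 1) : A.PSX fun x => (1 - s) * v x + s * w x := by
  intro i
  have h1 := GS.add Metric.isOpen_ball (GS.smul (hv i) (s := 1 - s) (by linarith))
    (GS.smul (hw i) (s := s) hs0)
  have h2 : (fun z => (1 - s) * A.pot i v z + s * A.pot i w z) =
      A.pot i (fun x => (1 - s) * v x + s * w x) := by
    funext z
    rw [A.pot_combine]
  have h3 := h1.psh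
  rw [h2] at h3
  exact h3

theorem St.spsh (hn : 0 < n) {D : Set X} (hD : IsOpen D) {τ C : ℝ} {v : X → ℝ}
    (hv : A.St τ C v) (hs : A.SmoothOn D v) (i : Fin N) : SPsh (A.Oh i D) (A.pot i v) :=
  i1_spsh hn (A.isOpen_Oh i hD) (SmoothOn.pot_Oh A hs i)
    ((hv.gs i).psh.mono_set (A.isOpen_Oh i hD) (A.Oh_subset_B3 i D))

theorem f_pos_Oh {D : Set X} {i : Fin N} {z : V n} (hz : z ∈ A.Oh i D) : 0 < A.f i z :=
  A.f_pos i z (A.Oh_subset_target i D hz)

/-- lower bound for the mixed term -/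
theorem pair_ge (hn : 0 < n) {D : Set X} (hD : IsOpen D) {C : ℝ} {Φ : X → ℝ} (hΦ : A.St 0 C Φ)
    (hs : A.SmoothOn D Φ)
    (heq : ∀ i, ∀ z ∈ A.Oh i D, (hess (A.pot i Φ) z).det.re = A.f i z)
    {C' : ℝ} {v : X → ℝ} (hv : A.St 0 C' v) (i : Fin N) {χ : V n → ℝ} (hχ : Tst (A.Oh i D) χ) :
    n * ∫ z, A.f i z * χ z ≤
      pair (fun z => (hess (A.pot i Φ) z).adjugate) (A.pot i v) χ := by
  have hO := A.isOpen_Oh i hD
  have hsp := St.spsh A hn hD hΦ hs i
  have h1 := GS.variable hn hO ((hv.gs i).mono_set hO (A.Oh_subset_B3 i D))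
    (P := fun z => (hess (A.pot i Φ) z).adjugate)
    (l4_contDiffOn_adjugate fun j k => contDiffOn_hess hO hsp.smooth j k)
    (fun z hz => adjugate_posSemidef (l4_hess_psd hsp hO hz)) hχ
  refine le_trans (le_of_eq ?_) h1
  congr 1
  refine integral_congr_ae (ae_of_all _ fun z => ?_)
  show A.f i z * χ z = ((hess (A.pot i Φ) z).adjugate.det.re) ^ ((1 : ℝ) / n) *
    A.Ft 0 i v z * χ z
  by_cases hz : z ∈ A.Oh i D
  · have hf := A.f_pos_Oh hz
    have h2 : ((hess (A.pot i Φ) z).adjugate.det.re) = A.f i z ^ (n - 1) := by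
      have h3 : (hess (A.pot i Φ) z).det = ((A.f i z : ℝ) : ℂ) := by
        have h4 := (l4_hess_psd hsp hO hz).isHermitian
        have h5 : (hess (A.pot i Φ) z).det.im = 0 := by
          have h6 := congrArg Matrix.det h4
          rw [Matrix.det_conjTranspose] at h6
          exact Complex.conj_eq_iff_im.1 h6
        exact Complex.ext (by simpa using heq i z hz) (by simpa using h5)
      rw [Matrix.det_adjugate, h3, Fintype.card_fin]
      norm_cast
    rw [h2, A.Ft_zero]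
    have h7 : (A.f i z ^ (n - 1)) ^ ((1 : ℝ) / n) * A.f i z ^ ((1 : ℝ) / n) = A.f i z := by
      rw [← Real.mul_rpow (by positivity) hf.le, ← pow_succ, Nat.sub_add_cancel hn, one_div]
      exact Real.pow_rpow_inv_natCast hf.le (by omega)
    rw [h7]
  · have h8 : χ z = 0 := image_eq_zero_of_notMem_tsupport fun h => hz (hχ.sub h)
    rw [h8, mul_zero, mul_zero]

/-- for a test function there is an open neighbourhood of its support on which a continuous
function is bounded below -/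
theorem exists_open_bdd {Ω : Set (V n)} (hΩ : IsOpen Ω) {K : Set (V n)} (hK : IsCompact K)
    (hKΩ : K ⊆ Ω) {u : V n → ℝ} (hu : ContinuousOn u Ω) :
    ∃ G : Set (V n), IsOpen G ∧ K ⊆ G ∧ G ⊆ Ω ∧ ∃ B : ℝ, ∀ z ∈ G, |u z| ≤ B := by
  obtain ⟨G, h1, h2, h3, h4⟩ := exists_open_between_and_isCompact_closure hK hΩ hKΩ
  obtain ⟨B, hB⟩ := h4.exists_bound_of_continuousOn (hu.mono h3)
  exact ⟨G, h1, h2, subset_closure.trans h3, B, fun z hz => hB z (subset_closure hz)⟩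

variable [CompactSpace X] [T2Space X] [BorelSpace X]

/-- the mass of the convex combination, tested in a chart -/
theorem ma_combine_ge (hn : 0 < n) {D : Set X} (hD : IsOpen D) {C : ℝ} {Φ : X → ℝ}
    (hΦ : A.St 0 C Φ) (hs : A.SmoothOn D Φ)
    (heq : ∀ i, ∀ z ∈ A.Oh i D, (hess (A.pot i Φ) z).det.re = A.f i z)
    {v : X → ℝ} (hv : A.PSX v) {b : ℝ} (hb : ∀ᵐ x ∂A.μ, Φ x - b ≤ v x)
    {s : ℝ} (hs0 : 0 ≤ s) (hs1 : s ≤ 1) {m : Measure X}
    (hm : A.HasMA (fun x => (1 - s) * Φ x + s * v x) m) (i : Fin N) {χ : V n → ℝ}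
    (hχ : Tst (A.Oh i D) χ) :
    cn n * ((1 - s) ^ n * (∫ z, A.f i z * χ z) + s * (1 - s) ^ (n - 1) *
      pair (fun z => (hess (A.pot i Φ) z).adjugate) (A.pot i v) χ) ≤
      ∫ x in A.Bi i 3, χ (A.e i x) ∂m := by
  have hO := A.isOpen_Oh i hD
  have hsp := St.spsh A hn hD hΦ hs i
  have hK : IsCompact (tsupport χ) := hχ.cpt
  obtain ⟨G, hG, hKG, hGO, B, hB⟩ := exists_open_bdd hO hK hχ.sub hsp.smooth.continuousOn
  have hlow : ∀ᵐ z, z ∈ G → -(B + |b|) ≤ A.pot i (fun x => (1 - s) * Φ x + s * v x) z := by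
    filter_upwards [A.ae_Oh hb i D] with z hz hzG
    have h1 := hz (hGO hzG)
    have h2 := abs_le.1 (hB z hzG)
    have h3 : A.pot i Φ z - b ≤ A.pot i v z := by
      simp only [pot, lc]
      linarith
    rw [A.pot_combine]
    have h4 := le_abs_self b
    have h5 := abs_nonneg b
    nlinarith
  have hlim := hm i G hG (hGO.trans (A.Oh_subset_B3 i D)) ⟨_, hlow⟩ χ
    ⟨hχ.smooth, hχ.cpt, hKG, hχ.nonneg⟩
  have hc := cn_pos n
  have hlim2 : Tendsto (fun ε : ℝ => ∫ z, χ z * (hess (fun y => Phi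
      (fun y => (1 - s) * A.pot i Φ y + s * A.pot i v y) y ε) z).det.re) (𝓝[>] 0)
      (𝓝 ((cn n)⁻¹ * ∫ x in A.Bi i 3, χ (A.e i x) ∂m)) := by
    have h1 := hlim.const_mul (cn n)⁻¹
    refine h1.congr fun ε => ?_
    rw [← integral_const_mul]
    refine integral_congr_ae (ae_of_all _ fun z => ?_)
    have h2 : (fun y => A.pot i (fun x => (1 - s) * Φ x + s * v x) y) =
        fun y => (1 - s) * A.pot i Φ y + s * A.pot i v y := by
      funext y
      rw [A.pot_combine]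
    have h3 : A.pot i (fun x => (1 - s) * Φ x + s * v x) =
        fun y => (1 - s) * A.pot i Φ y + s * A.pot i v y := h2
    show (cn n)⁻¹ * (χ z * (cn n * (hess (fun y => Phi (A.pot i
      (fun x => (1 - s) * Φ x + s * v x)) y ε) z).det.re)) = _
    rw [h3]
    field_simp
  have h1 := det_lower hO hsp ((hv i).mono_set hO (A.Oh_subset_B3 i D)) hs0 hs1 hχ hlim2
  have h2 : ∫ z, χ z * (hess (A.pot i Φ) z).det.re = ∫ z, A.f i z * χ z := by
    refine integral_congr_ae (ae_of_all _ fun z => ?_)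
    show χ z * (hess (A.pot i Φ) z).det.re = A.f i z * χ z
    by_cases hz : z ∈ A.Oh i D
    · rw [heq i z hz, mul_comm]
    · have h8 : χ z = 0 := image_eq_zero_of_notMem_tsupport fun h => hz (hχ.sub h)
      rw [h8, mul_zero, zero_mul]
  rw [h2] at h1
  have h3 := mul_le_mul_of_nonneg_left h1 hc.le
  rwa [← mul_assoc (cn n) (cn n)⁻¹, mul_inv_cancel₀ hc.ne', one_mul] at h3

/-- (13.1) -/
theorem pair_le (hn : 0 < n) (hV : A.VolLe) {D : Set X} (hD : IsOpen D) (hD0 : A.μ Dᶜ = 0)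
    {C : ℝ} {Φ : X → ℝ} (hΦ : A.St 0 C Φ) (hs : A.SmoothOn D Φ)
    (heq : ∀ i, ∀ z ∈ A.Oh i D, (hess (A.pot i Φ) z).det.re = A.f i z)
    {C' : ℝ} {v : X → ℝ} (hv : A.St 0 C' v) {b : ℝ} (hb : ∀ᵐ x ∂A.μ, Φ x - b ≤ v x)
    (i : Fin N) {χ : V n → ℝ} (hχ : Tst (A.Oh i D) χ) (hχ1 : ∀ z, χ z ≤ 1) :
    pair (fun z => (hess (A.pot i Φ) z).adjugate) (A.pot i v) χ ≤ n * ∫ z, A.f i z * χ z := by
  have hc := cn_pos n
  set I := ∫ z, A.f i z * χ z with hI
  set κ := pair (fun z => (hess (A.pot i Φ) z).adjugate) (A.pot i v) χ with hκ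
  set μX := (A.μ univ).toReal with hμX
  have key : ∀ s : ℝ, 0 < s → s < 1 →
      cn n * (1 - s) ^ (n - 1) * (κ - n * I) ≤ n ^ 2 * s * μX := by
    intro s hs0 hs1
    obtain ⟨m, hm, hmX⟩ := hV _ (PSX.combine A hΦ.psx hv.psx hs0.le hs1.le)
    set c := (1 - s) ^ n + n * s * (1 - s) ^ (n - 1) with hcdef
    have h1s : 0 < 1 - s := by linarith
    have hc0 : 0 ≤ c := by positivity
    have hint : ∀ (j : Fin N) (η : V n → ℝ), ∫ z, η z * (cn n * A.f j z) =
        cn n * ∫ z, A.f j z * η z := by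
      intro j η
      rw [← integral_const_mul]
      refine integral_congr_ae (ae_of_all _ fun z => ?_)
      show η z * (cn n * A.f j z) = cn n * (A.f j z * η z)
      ring
    have h1 := A.mass_compare hD hD0 hmX hc0 (fun j η hη => by
      have e1 := A.ma_combine_ge hn hD hΦ hs heq hv.psx hb hs0.le hs1.le hm j hη
      have e2 := A.pair_ge hn hD hΦ hs heq hv j hη
      refine le_trans ?_ e1
      rw [hint, hcdef]
      have e3 : s * (1 - s) ^ (n - 1) * (n * ∫ z, A.f j z * η z) ≤ s * (1 - s) ^ (n - 1) *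
          pair (fun z => (hess (A.pot j Φ) z).adjugate) (A.pot j v) η :=
        mul_le_mul_of_nonneg_left e2 (by positivity)
      have e4 := mul_le_mul_of_nonneg_left e3 hc.le
      nlinarith) i χ hχ hχ1
    have h2 := A.ma_combine_ge hn hD hΦ hs heq hv.psx hb hs0.le hs1.le hm i hχ
    rw [hint] at h1
    have h3 := h2.trans h1
    have h4 := i1_c_ge (n := n) hs0.le hs1.le
    rw [← hcdef] at h4
    have h5 : (1 - c) * μX ≤ n ^ 2 * s ^ 2 * μX :=
      mul_le_mul_of_nonneg_right (by linarith) ENNReal.toReal_nonneg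
    have h6 : cn n * ((1 - s) ^ n * I + s * (1 - s) ^ (n - 1) * κ) ≤
        c * (cn n * I) + n ^ 2 * s ^ 2 * μX := h3.trans (by linarith)
    rw [hcdef] at h6
    have h7 : s * (cn n * (1 - s) ^ (n - 1) * (κ - n * I)) ≤ s * (n ^ 2 * s * μX) := by
      nlinarith
    exact le_of_mul_le_mul_left h7 hs0
  have hlim1 : Tendsto (fun s : ℝ => cn n * (1 - s) ^ (n - 1) * (κ - n * I)) (𝓝[>] 0)
      (𝓝 (cn n * (1 - 0) ^ (n - 1) * (κ - n * I))) := by
    refine Tendsto.mono_left ?_ nhdsWithin_le_nhds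
    exact (by fun_prop : Continuous fun s : ℝ => cn n * (1 - s) ^ (n - 1) * (κ - n * I)).tendsto 0
  have hlim2 : Tendsto (fun s : ℝ => (n : ℝ) ^ 2 * s * μX) (𝓝[>] 0) (𝓝 (n ^ 2 * 0 * μX)) := by
    refine Tendsto.mono_left ?_ nhdsWithin_le_nhds
    exact (by fun_prop : Continuous fun s : ℝ => (n : ℝ) ^ 2 * s * μX).tendsto 0
  have hfin := le_of_tendsto_of_tendsto hlim1 hlim2 (by
    filter_upwards [Ioo_mem_nhdsGT (zero_lt_one' ℝ)] with s hs
    exact key s hs.1 hs.2)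
  simp only [sub_zero, one_pow, mul_one, mul_zero, zero_mul] at hfin
  have h8 : κ - n * I ≤ 0 := by
    by_contra h9
    push Not at h9
    have := mul_pos hc h9
    linarith
  linarith

end Atl

end Pool.Agent.Helper29.AM
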