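import Pool.Agent.Helper29.AM.GS2

/-!
# Block AM-13d: convergence of the Hessians of the means of a smooth function

`p` smooth on the open set `Ω`, `K ⊆ Ω` compact, `p_ε = Φ_p(·,ε)`. `hess p_ε z = MH (sc ε) (hess p) z`
(`hess_M`, `mem_shr_iff`), i.e. `hess p_ε z j k = ∫ ρ(η) hess p (z + εη) j k dη`, and `hess p · j k` is
uniformly continuous on a compact neighbourhood of `K` in `Ω` (`continuousOn_hess`); `∫ ρ = 1`, `ρ`
vanishes for `‖η‖ ≥ 1`. So `hess p_ε → hess p` uniformly on `K`. Determinant and adjugate are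
polynomials in the entries: `tendsto_adjugate_mollify` (compose with the continuous map `adjugate`:
e.g. `TendstoUniformlyOn` on a compact set for continuous functions is equivalent to
`∀ z ∈ K, Tendsto (fun p => F p.1 p.2) (𝓝[>] 0 ×ˢ 𝓝[K] z) (𝓝 (f z))`
(`tendstoLocallyUniformlyOn_iff_forall_tendsto`), which passes to continuous functions of the entries).
`tendsto_integral_det`: uniform convergence on the compact support of `χ`. About 100 lines.
-/

set_option autoImplicit false

namespace Pool.Agent.Helper29.AM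

open MeasureTheory Set Filter Topology
open scoped ComplexOrder

variable {n : ℕ} {Ω : Set (V n)} {p : V n → ℝ}

private theorem unif94 {α β : Type*} [TopologicalSpace α] [UniformSpace β] {F : ℝ → α → β} {f : α → β}
    {l : Filter ℝ} {K : Set α} (hK : IsCompact K) (hf : ContinuousOn f K) :
    TendstoUniformlyOn F f l K ↔ ∀ x ∈ K, Tendsto (fun y : ℝ × α => F y.1 y.2) (l ×ˢ 𝓝[K] x) (𝓝 (f x)) := by
  rw [← tendstoLocallyUniformlyOn_iff_tendstoUniformlyOn_of_compact hK,
    tendstoLocallyUniformlyOn_iff_forall_tendsto]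
  refine forall₂_congr fun x hx => ?_
  have h1 : Tendsto (fun y : ℝ × α => f y.2) (l ×ˢ 𝓝[K] x) (𝓝 (f x)) :=
    Tendsto.comp (hf x hx) tendsto_snd
  constructor
  · intro h
    exact h1.congr_uniformity h
  · intro h
    exact (h1.prodMk_nhds h).mono_right (nhds_le_uniformity _)

private theorem c2_94 (hp : ContDiffOn ℝ (⊤ : ℕ∞) p Ω) : ContDiffOn ℝ 2 p Ω :=
  hp.of_le (by
    show ((2 : ℕ∞) : WithTop ℕ∞) ≤ _
    exact WithTop.coe_le_coe.2 le_top)

private theorem int94 {g : V n → ℂ} {Ω : Set (V n)} (hg : ContinuousOn g Ω) {ε : ℝ} {z : V n}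
    (hz : ∀ η : V n, ‖η‖ ≤ 1 → z + (sc ε : Lin n) η ∈ Ω) :
    Integrable (fun η : V n => (rho η : ℂ) * g (z + (sc ε : Lin n) η)) := by
  have h1 : ContinuousOn (fun η : V n => (rho η : ℂ) * g (z + (sc ε : Lin n) η)) (Metric.closedBall 0 1) := by
    refine ContinuousOn.mul ?_ ?_
    · exact (Complex.continuous_ofReal.comp rho_contDiff.continuous).continuousOn
    · refine hg.comp ?_ fun η hη => hz η (by simpa using hη)
      exact (continuous_const.add (sc ε : Lin n).continuous).continuousOn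
  have h2 := h1.integrableOn_compact (μ := volume) (isCompact_closedBall (0 : V n) 1)
  refine (integrableOn_iff_integrable_of_support_subset ?_).1 h2
  intro η hη
  rw [mem_closedBall_zero_iff]
  by_contra hno
  apply hη
  show (rho η : ℂ) * g (z + (sc ε : Lin n) η) = 0
  rw [rho_eq_zero (by linarith [not_le.1 hno]), Complex.ofReal_zero, zero_mul]

theorem tendsto_hess_mollify (hΩ : IsOpen Ω) (hp : ContDiffOn ℝ (⊤ : ℕ∞) p Ω) {K : Set (V n)}
    (hK : IsCompact K) (hKΩ : K ⊆ Ω) (j k : Fin n) :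
    TendstoUniformlyOn (fun ε z => hess (fun y => Phi p y ε) z j k) (fun z => hess p z j k)
      (𝓝[>] 0) K := by
  obtain ⟨δ, hδ, hδΩ⟩ := hK.exists_cthickening_subset_open hΩ hKΩ
  have hK' : IsCompact (Metric.cthickening δ K) := hK.cthickening
  have hg : ContinuousOn (fun y => hess p y j k) Ω := continuousOn_hess hΩ (c2_94 hp) j k
  have hu := hK'.uniformContinuousOn_of_continuous (hg.mono hδΩ)
  rw [Metric.uniformContinuousOn_iff] at hu
  rw [Metric.tendstoUniformlyOn_iff]
  intro r hr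
  obtain ⟨δ', hδ', hu'⟩ := hu (r / 2) (half_pos hr)
  filter_upwards [Ioo_mem_nhdsGT (lt_min hδ hδ')] with ε hε z hz
  have hε0 : 0 < ε := hε.1
  have hεδ : ε < δ := lt_of_lt_of_le hε.2 (min_le_left _ _)
  have hεδ' : ε < δ' := lt_of_lt_of_le hε.2 (min_le_right _ _)
  have hin : ∀ η : V n, ‖η‖ ≤ 1 → dist (z + (sc ε : Lin n) η) z ≤ ε := by
    intro η hη
    rw [dist_self_add_left, sc_apply, norm_smul, Complex.norm_real, Real.norm_eq_abs, abs_of_pos hε0]
    nlinarith [norm_nonneg η]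
  have hth : ∀ η : V n, ‖η‖ ≤ 1 → z + (sc ε : Lin n) η ∈ Metric.cthickening δ K := by
    intro η hη
    exact Metric.mem_cthickening_of_dist_le _ z δ K hz ((hin η hη).trans hεδ.le)
  have hzΩ : ∀ η : V n, ‖η‖ ≤ 1 → z + (sc ε : Lin n) η ∈ Ω := fun η hη => hδΩ (hth η hη)
  have hzK : z ∈ Metric.cthickening δ K := Metric.self_subset_cthickening K hz
  have e1 : hess (fun y => Phi p y ε) z = MH (sc ε) (hess p) z := hess_M (sc ε) hΩ (c2_94 hp) hzΩ
  have e2 : MH (sc ε) (hess p) z j k = ∫ η : V n, (rho η : ℂ) * hess p (z + (sc ε : Lin n) η) j k := rfl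
  have e3 : hess p z j k = ∫ η : V n, (rho η : ℂ) * hess p z j k := by
    rw [integral_mul_const]
    have : ∫ η : V n, ((rho η : ℝ) : ℂ) = ((∫ η : V n, rho η : ℝ) : ℂ) := integral_complex_ofReal
    rw [this, integral_rho, Complex.ofReal_one, one_mul]
  have i1 := int94 hg hzΩ
  have i2 : Integrable (fun η : V n => (rho η : ℂ) * hess p z j k) := rho_integrable.ofReal.mul_const _
  show dist (hess p z j k) (hess (fun y => Phi p y ε) z j k) < r
  rw [e1, e2, dist_comm, dist_eq_norm]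
  have e4 : (∫ η : V n, (rho η : ℂ) * hess p (z + (sc ε : Lin n) η) j k) - hess p z j k =
      ∫ η : V n, ((rho η : ℂ) * hess p (z + (sc ε : Lin n) η) j k - (rho η : ℂ) * hess p z j k) := by
    rw [integral_sub i1 i2, ← e3]
  rw [e4]
  have h5 : ‖∫ η : V n, ((rho η : ℂ) * hess p (z + (sc ε : Lin n) η) j k - (rho η : ℂ) * hess p z j k)‖ ≤
      ∫ η : V n, rho η * (r / 2) := by
    refine norm_integral_le_of_norm_le (rho_integrable.mul_const _) (Eventually.of_forall fun η => ?_)
    rw [← mul_sub, norm_mul, Complex.norm_real, Real.norm_eq_abs, abs_of_nonneg (rho_nonneg η)]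
    rcases le_or_gt 1 ‖η‖ with h | h
    · rw [rho_eq_zero h, zero_mul, zero_mul]
    · refine mul_le_mul_of_nonneg_left ?_ (rho_nonneg η)
      rw [← dist_eq_norm]
      exact (hu' _ (hth η h.le) z hzK (lt_of_le_of_lt (hin η h.le) hεδ')).le
  rw [integral_mul_const, integral_rho, one_mul] at h5
  linarith

private theorem comp94 {β : Type*} [UniformSpace β] (Ψ : Mat n → β) (hΨ : Continuous Ψ) (hΩ : IsOpen Ω)
    (hp : ContDiffOn ℝ (⊤ : ℕ∞) p Ω) {K : Set (V n)} (hK : IsCompact K) (hKΩ : K ⊆ Ω) :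
    TendstoUniformlyOn (fun ε z => Ψ (hess (fun y => Phi p y ε) z)) (fun z => Ψ (hess p z)) (𝓝[>] 0) K := by
  have hc : ∀ j k, ContinuousOn (fun y => hess p y j k) K := fun j k =>
    (continuousOn_hess hΩ (c2_94 hp) j k).mono hKΩ
  have hc' : ContinuousOn (fun y => hess p y) K := continuousOn_pi.2 fun j => continuousOn_pi.2 fun k => hc j k
  refine (unif94 hK (hΨ.comp_continuousOn hc')).2 ?_
  intro x hx
  refine (hΨ.tendsto _).comp ?_
  refine tendsto_pi_nhds.2 fun j => tendsto_pi_nhds.2 fun k => ?_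
  exact (unif94 hK (hc j k)).1 (tendsto_hess_mollify hΩ hp hK hKΩ j k) x hx

theorem tendsto_adjugate_mollify (hΩ : IsOpen Ω) (hp : ContDiffOn ℝ (⊤ : ℕ∞) p Ω) {K : Set (V n)}
    (hK : IsCompact K) (hKΩ : K ⊆ Ω) (j k : Fin n) :
    TendstoUniformlyOn (fun ε z => (hess (fun y => Phi p y ε) z).adjugate j k)
      (fun z => (hess p z).adjugate j k) (𝓝[>] 0) K := by
  refine comp94 (fun H : Mat n => H.adjugate j k) ?_ hΩ hp hK hKΩ
  exact (continuous_id.matrix_adjugate).matrix_elem j k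

private theorem int_det94 {χ : V n → ℝ} (hχ : Tst Ω χ) {Ω' : Set (V n)} (hΩ' : IsOpen Ω') {q : V n → ℝ}
    (hq : ContDiffOn ℝ 2 q Ω') (hsub : tsupport χ ⊆ Ω') :
    Integrable (fun z => χ z * (hess q z).det.re) := by
  have hc' : ContinuousOn (fun y => hess q y) Ω' :=
    continuousOn_pi.2 fun j => continuousOn_pi.2 fun k => continuousOn_hess hΩ' hq j k
  have hdet : Continuous fun H : Mat n => H.det.re :=
    Complex.continuous_re.comp (continuous_id.matrix_det)
  have h1 : ContinuousOn (fun z => χ z * (hess q z).det.re) (tsupport χ) :=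
    hχ.smooth.continuous.continuousOn.mul (hdet.comp_continuousOn (hc'.mono hsub))
  refine (integrableOn_iff_integrable_of_support_subset ?_).1 (h1.integrableOn_compact (μ := volume) hχ.cpt)
  intro z hz
  refine subset_tsupport _ fun h0 => hz ?_
  show χ z * (hess q z).det.re = 0
  rw [h0, zero_mul]

theorem tendsto_integral_det (hΩ : IsOpen Ω) (hp : ContDiffOn ℝ (⊤ : ℕ∞) p Ω) {χ : V n → ℝ}
    (hχ : Tst Ω χ) :
    Tendsto (fun ε : ℝ => ∫ z, χ z * (hess (fun y => Phi p y ε) z).det.re) (𝓝[>] 0)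
      (𝓝 (∫ z, χ z * (hess p z).det.re)) := by
  have hK : IsCompact (tsupport χ) := hχ.cpt
  have hdet : Continuous fun H : Mat n => H.det.re :=
    Complex.continuous_re.comp (continuous_id.matrix_det)
  have hu := comp94 (fun H : Mat n => H.det.re) hdet hΩ hp hK hχ.sub
  rw [Metric.tendstoUniformlyOn_iff] at hu
  have hχi : Integrable χ := hχ.smooth.continuous.integrable_of_hasCompactSupport hχ.cpt
  have hI : 0 ≤ ∫ z, χ z := integral_nonneg hχ.nonneg
  rw [Metric.tendsto_nhds]
  intro r hr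
  set I := ∫ z, χ z with hIdef
  have hd : 0 < r / (I + 1) := by positivity
  obtain ⟨δ, hδ, hδΩ⟩ := hK.exists_cthickening_subset_open hΩ hχ.sub
  filter_upwards [hu _ hd, Ioo_mem_nhdsGT hδ] with ε h1 hε
  have hsub : tsupport χ ⊆ shr Ω ε := by
    intro z hz y hy
    exact hδΩ (Metric.mem_cthickening_of_dist_le _ z δ _ hz ((Metric.mem_closedBall.1 hy).trans hε.2.le))
  have hq : ContDiffOn ℝ 2 (fun y => Phi p y ε) (shr Ω ε) := by
    have h2 : ContDiffOn ℝ ((2 : ℕ∞) : WithTop ℕ∞) p Ω := c2_94 hp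
    exact (contDiffOn_M_of_contDiffOn (sc ε) hΩ h2).mono fun z hz => (mem_shr_iff hε.1.le).1 hz
  have i1 := int_det94 hχ (isOpen_shr hΩ ε) hq hsub
  have i2 := int_det94 hχ hΩ (c2_94 hp) hχ.sub
  rw [dist_eq_norm, ← integral_sub i1 i2]
  have h5 : ‖∫ z, (χ z * (hess (fun y => Phi p y ε) z).det.re - χ z * (hess p z).det.re)‖ ≤
      ∫ z, χ z * (r / (I + 1)) := by
    refine norm_integral_le_of_norm_le (hχi.mul_const _) (Eventually.of_forall fun z => ?_)
    rw [← mul_sub, norm_mul, Real.norm_eq_abs, abs_of_nonneg (hχ.nonneg z)]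
    by_cases h0 : χ z = 0
    · rw [h0, zero_mul, zero_mul]
    · refine mul_le_mul_of_nonneg_left ?_ (hχ.nonneg z)
      have h3 := h1 z (subset_tsupport _ h0)
      rw [dist_comm, dist_eq_norm] at h3
      exact h3.le
  rw [integral_mul_const] at h5
  refine lt_of_le_of_lt h5 ?_
  rw [← hIdef, mul_div_assoc', div_lt_iff₀ (by linarith)]
  nlinarith

end Pool.Agent.Helper29.AM
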