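import Pool.Agent.Helper29.AM.GS4

/-!
# Block AM-13e: convergence of the pairing

`P` a smooth matrix field on `Ω`, `q` locally integrable, `χ` a test function.
`∫ re tr(P hess q_ε) χ → pair P q χ` as `ε → 0+`.

Proof. For small `ε`: `tsupport χ ⊆ shr Ω ε` (compactness), `q_ε` is smooth on the open set `shr Ω ε`
(`contDiffOn_Phi_left`), so the integral is `pair P q_ε χ` (`pair_of_smooth` on `shr Ω ε`). By definition
`pair P u χ = ∫ u Θ` with `Θ` continuous, vanishing outside `tsupport χ` (near a point outside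
`tsupport χ` the functions `(P k j).re * χ` vanish identically; on `Ω` they are smooth). So
`|pair P q_ε χ - pair P q χ| ≤ sup|Θ| ∫_{tsupport χ} |q_ε - q| → 0` (`tendsto_Phi_L1`).
`pair_weight`: linearity and the choice `P = adj + t χ E`, see below. About 80 lines.
-/

set_option autoImplicit false

namespace Pool.Agent.Helper29.AM

open MeasureTheory Set Filter Topology
open scoped ComplexOrder

variable {n : ℕ} {Ω : Set (V n)} {q : V n → ℝ}

private theorem two_le_h12 : (2 : WithTop ℕ∞) ≤ ((⊤ : ℕ∞) : WithTop ℕ∞) :=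
  WithTop.coe_le_coe.2 (le_top : (2 : ℕ∞) ≤ ⊤)

private theorem hess_zero_h12 {η : V n → ℝ} {z : V n} (hz : z ∉ tsupport η) : hess η z = 0 := by
  have h : η =ᶠ[𝓝 z] fun _ => (0 : ℝ) := notMem_tsupport_iff_eventuallyEq.1 hz
  have h1 : hess η z = hess (fun _ => (0 : ℝ)) z := hess_congr h
  rw [h1]
  ext j k
  simp [hess, D2]

private theorem hess_cont_h12 {η : V n → ℝ} (h : ContDiff ℝ 2 η) (j k : Fin n) :
    Continuous fun z => hess η z j k :=
  continuousOn_univ.1 (continuousOn_hess isOpen_univ h.contDiffOn j k)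

private theorem intR_h12 {q : V n → ℝ} (hq : LocallyIntegrableOn q Ω volume) {K : Set (V n)}
    (hK : IsCompact K) (hKΩ : K ⊆ Ω) {φ : V n → ℝ} (hφ : Continuous φ)
    (h0 : ∀ z, z ∉ K → φ z = 0) : Integrable (fun z => q z * φ z) := by
  have h2 : IntegrableOn (fun z => q z * φ z) K :=
    (hq.integrableOn_compact_subset hKΩ hK).mul_continuousOn hφ.continuousOn hK
  refine (integrableOn_iff_integrable_of_support_subset fun z hz => ?_).1 h2
  by_contra hc
  exact hz (by simp [h0 z hc])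

/-- a function smooth on `Ω` times a test function -/
private theorem smooth_mul_h12 (hΩ : IsOpen Ω) {p η : V n → ℝ}
    (hp : ContDiffOn ℝ (⊤ : ℕ∞) p Ω) (hη : Tst Ω η) : ContDiff ℝ 2 (fun y => p y * η y) := by
  rw [contDiff_iff_contDiffAt]
  intro z
  by_cases h1 : z ∈ tsupport η
  · exact ((hp.contDiffAt (hΩ.mem_nhds (hη.sub h1))).mul hη.smooth.contDiffAt).of_le two_le_h12
  · have h2 := notMem_tsupport_iff_eventuallyEq.1 h1
    refine (contDiffAt_const (c := (0 : ℝ))).congr_of_eventuallyEq ?_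
    filter_upwards [h2] with y hy
    rw [hy, Pi.zero_apply, mul_zero]

/-- the weight of the pairing -/
private noncomputable def wt_h12 (P : V n → Mat n) (η : V n → ℝ) (z : V n) : ℝ :=
  (∑ j, ∑ k, (hess (fun y => (P y k j).re * η y) z j k +
    Complex.I * hess (fun y => (P y k j).im * η y) z j k)).re

private theorem pair_eq_h12 (P : V n → Mat n) (u η : V n → ℝ) :
    pair P u η = ∫ z, u z * wt_h12 P η z := rfl

private theorem re_sm_h12 {P : V n → Mat n}
    (hP : ∀ j k, ContDiffOn ℝ (⊤ : ℕ∞) (fun z => P z j k) Ω)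
    (j k : Fin n) : ContDiffOn ℝ (⊤ : ℕ∞) (fun z => (P z j k).re) Ω :=
  Complex.reCLM.contDiff.comp_contDiffOn (hP j k)

private theorem im_sm_h12 {P : V n → Mat n}
    (hP : ∀ j k, ContDiffOn ℝ (⊤ : ℕ∞) (fun z => P z j k) Ω)
    (j k : Fin n) : ContDiffOn ℝ (⊤ : ℕ∞) (fun z => (P z j k).im) Ω :=
  Complex.imCLM.contDiff.comp_contDiffOn (hP j k)

private theorem wt_cont_h12 (hΩ : IsOpen Ω) {P : V n → Mat n}
    (hP : ∀ j k, ContDiffOn ℝ (⊤ : ℕ∞) (fun z => P z j k) Ω) {η : V n → ℝ} (hη : Tst Ω η) :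
    Continuous (wt_h12 P η) := by
  refine Complex.continuous_re.comp (continuous_finsetSum _ fun j _ => continuous_finsetSum _
    fun k _ => ?_)
  exact (hess_cont_h12 (smooth_mul_h12 hΩ (re_sm_h12 hP k j) hη) j k).add
    (continuous_const.mul
      (hess_cont_h12 (smooth_mul_h12 hΩ (im_sm_h12 hP k j) hη) j k))

private theorem wt_off_h12 (P : V n → Mat n) {η : V n → ℝ} {z : V n} (hz : z ∉ tsupport η) :
    wt_h12 P η z = 0 := by
  unfold wt_h12
  have h1 : ∀ p : V n → ℝ, hess (fun y => p y * η y) z = 0 := fun p =>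
    hess_zero_h12 fun h => hz (tsupport_mul_subset_right h)
  simp [h1]

theorem tendsto_pair_mollify (hΩ : IsOpen Ω) {P : V n → Mat n}
    (hP : ∀ j k, ContDiffOn ℝ (⊤ : ℕ∞) (fun z => P z j k) Ω)
    (hq : LocallyIntegrableOn q Ω volume) {χ : V n → ℝ} (hχ : Tst Ω χ) :
    Tendsto (fun ε : ℝ => ∫ z, (Matrix.trace (P z * hess (fun y => Phi q y ε) z)).re * χ z)
      (𝓝[>] 0) (𝓝 (pair P q χ)) := by
  have hK : IsCompact (tsupport χ) := hχ.cpt
  obtain ⟨δ, hδ, hδs⟩ := hK.exists_cthickening_subset_open hΩ hχ.sub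
  have hwc := wt_cont_h12 hΩ hP hχ
  obtain ⟨C, hC⟩ := hK.exists_bound_of_continuousOn hwc.continuousOn
  have hlim := (tendsto_Phi_L1 hΩ hq hK hχ.sub).const_mul C
  rw [mul_zero] at hlim
  rw [tendsto_iff_norm_sub_tendsto_zero]
  refine squeeze_zero' (Eventually.of_forall fun ε => norm_nonneg _) ?_ hlim
  filter_upwards [Ioc_mem_nhdsGT hδ] with ε hε
  have hs : tsupport χ ⊆ shr Ω ε := fun z hz =>
    ((Metric.closedBall_subset_closedBall hε.2).trans
      (Metric.closedBall_subset_cthickening hz δ)).trans hδs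
  have hO := isOpen_shr hΩ ε
  have hsub : shr Ω ε ⊆ Ω := fun z hz => hz (Metric.mem_closedBall_self hε.1.le)
  have hq' := contDiffOn_Phi_left hΩ hq hε.1
  have hχ' : Tst (shr Ω ε) χ := ⟨hχ.smooth, hχ.cpt, hs, hχ.nonneg⟩
  rw [← pair_of_smooth hO (fun j k => (hP j k).mono hsub) hq' hχ', pair_eq_h12, pair_eq_h12]
  have i1 : Integrable fun z => Phi q z ε * wt_h12 P χ z :=
    intR_h12 (hq'.continuousOn.locallyIntegrableOn hO.measurableSet) hK hs hwc
      fun z hz => wt_off_h12 P hz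
  have i2 : Integrable fun z => q z * wt_h12 P χ z :=
    intR_h12 hq hK hχ.sub hwc fun z hz => wt_off_h12 P hz
  rw [← integral_sub i1 i2, ← integral_const_mul]
  have hz0 : ∀ z, z ∉ tsupport χ →
      ‖Phi q z ε * wt_h12 P χ z - q z * wt_h12 P χ z‖ = 0 := fun z hz => by
    rw [wt_off_h12 P hz]
    simp
  refine (norm_integral_le_integral_norm _).trans ?_
  rw [← setIntegral_eq_integral_of_forall_compl_eq_zero hz0]
  have i3 : IntegrableOn (fun z => C * |Phi q z ε - q z|) (tsupport χ) :=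
    ((((hq'.continuousOn.mono hs).integrableOn_compact hK).sub
      (hq.integrableOn_compact_subset hχ.sub hK)).abs).const_mul C
  refine setIntegral_mono_on ((i1.sub i2).norm.integrableOn) i3 hK.measurableSet fun z hz => ?_
  rw [← sub_mul, norm_mul, mul_comm, Real.norm_eq_abs (Phi q z ε - q z)]
  exact mul_le_mul_of_nonneg_right (hC z hz) (abs_nonneg _)

/-- the rank one matrix with `tr (rk v * H) = ∑ H_{jk} v_j v̄_k` -/
noncomputable def rk (v : V n) : Mat n := fun k j => v j * (starRingEnd ℂ) (v k)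

private theorem wt_add_h12 (hΩ : IsOpen Ω) {P : V n → Mat n}
    (hP : ∀ j k, ContDiffOn ℝ (⊤ : ℕ∞) (fun z => P z j k) Ω) {χ η : V n → ℝ} (hχ : Tst Ω χ)
    (hη : Tst Ω η) (h1 : ∀ z, χ z ≠ 0 → η z = 1) (v : V n) (t : ℝ) (z : V n) :
    wt_h12 (fun z => P z + ((t * χ z : ℝ) : ℂ) • rk v) η z =
      wt_h12 P η z + t * lev χ z v := by
  have hχη : ∀ y, χ y * η y = χ y := fun y => by
    by_cases hy : χ y = 0
    · rw [hy, zero_mul]
    · rw [h1 y hy, mul_one]
  have hχ2 : ContDiff ℝ 2 χ := hχ.smooth.of_le two_le_h12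
  have key : ∀ (p : V n → ℝ) (a : ℝ), ContDiffOn ℝ (⊤ : ℕ∞) p Ω → ∀ j k : Fin n,
      hess (fun y => (p y + t * χ y * a) * η y) z j k =
        hess (fun y => p y * η y) z j k + ((t * a : ℝ) : ℂ) * hess χ z j k := by
    intro p a hp j k
    have e1 : (fun y => (p y + t * χ y * a) * η y) =
        fun y => (fun y => p y * η y) y + (fun y => (t * a) * χ y) y := by
      funext y
      have := hχη y
      simp only
      linear_combination (t * a) * this
    rw [e1, hess_add (smooth_mul_h12 hΩ hp hη).contDiffAt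
      (contDiffAt_const.mul hχ2.contDiffAt), hess_const_mul _ hχ2.contDiffAt]
    simp [Matrix.add_apply, Matrix.smul_apply]
  have e2 : ∀ j k : Fin n, (fun y => ((P y + ((t * χ y : ℝ) : ℂ) • rk v) k j).re * η y) =
      fun y => ((P y k j).re + t * χ y * (v j * (starRingEnd ℂ) (v k)).re) * η y := by
    intro j k
    funext y
    rw [Matrix.add_apply, Matrix.smul_apply, Complex.add_re, smul_eq_mul, Complex.re_ofReal_mul]
    rfl
  have e3 : ∀ j k : Fin n, (fun y => ((P y + ((t * χ y : ℝ) : ℂ) • rk v) k j).im * η y) =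
      fun y => ((P y k j).im + t * χ y * (v j * (starRingEnd ℂ) (v k)).im) * η y := by
    intro j k
    funext y
    rw [Matrix.add_apply, Matrix.smul_apply, Complex.add_im, smul_eq_mul, Complex.im_ofReal_mul]
    rfl
  have e4 : ∀ j k : Fin n,
      hess (fun y => ((P y + ((t * χ y : ℝ) : ℂ) • rk v) k j).re * η y) z j k +
        Complex.I * hess (fun y => ((P y + ((t * χ y : ℝ) : ℂ) • rk v) k j).im * η y) z j k =
      (hess (fun y => (P y k j).re * η y) z j k +
        Complex.I * hess (fun y => (P y k j).im * η y) z j k) +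
        (t : ℂ) * (hess χ z j k * v j * (starRingEnd ℂ) (v k)) := by
    intro j k
    rw [e2, e3, key _ _ (re_sm_h12 hP k j), key _ _ (im_sm_h12 hP k j)]
    have e5 := Complex.re_add_im (v j * (starRingEnd ℂ) (v k))
    push_cast
    linear_combination (t * hess χ z j k) * e5
  unfold wt_h12
  simp only [e4, Finset.sum_add_distrib, ← Finset.mul_sum]
  rw [Complex.add_re, Complex.re_ofReal_mul, lev_eq_lf hχ2.contDiffAt]
  rfl

/-- the pairing with `P + t χ · rk v`, `η = 1` near the support of `χ` -/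
theorem pair_add_rk (hΩ : IsOpen Ω) {P : V n → Mat n}
    (hP : ∀ j k, ContDiffOn ℝ (⊤ : ℕ∞) (fun z => P z j k) Ω)
    (hq : LocallyIntegrableOn q Ω volume) {χ η : V n → ℝ} (hχ : Tst Ω χ) (hη : Tst Ω η)
    (h1 : ∀ z, χ z ≠ 0 → η z = 1) (v : V n) (t : ℝ) :
    pair (fun z => P z + ((t * χ z : ℝ) : ℂ) • rk v) q η =
      pair P q η + t * ∫ z, q z * lev χ z v := by
  have hχ2 : ContDiff ℝ 2 χ := hχ.smooth.of_le two_le_h12
  have i1 : Integrable fun z => q z * wt_h12 P η z :=
    intR_h12 hq hη.cpt hη.sub (wt_cont_h12 hΩ hP hη) fun z hz => wt_off_h12 P hz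
  have i2 : Integrable fun z => q z * lev χ z v := by
    refine intR_h12 hq hχ.cpt hχ.sub
      (continuousOn_univ.1 (continuousOn_lev isOpen_univ hχ2.contDiffOn v)) fun z hz => ?_
    rw [lev_eq_lf hχ2.contDiffAt, hess_zero_h12 hz]
    simp [lf]
  rw [pair_eq_h12, pair_eq_h12, ← integral_const_mul, ← integral_add i1 (i2.const_mul t)]
  refine integral_congr_ae (Eventually.of_forall fun z => ?_)
  show q z * wt_h12 (fun z => P z + ((t * χ z : ℝ) : ℂ) • rk v) η z =
    q z * wt_h12 P η z + t * (q z * lev χ z v)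
  rw [wt_add_h12 hΩ hP hχ hη h1]
  ring

end Pool.Agent.Helper29.AM
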