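import Pool.Agent.Helper64.AM.L1
import Pool.Agent.Helper64.AM.L2
import Pool.Agent.Helper64.AM.L3

/-!
# Lower bound for the limit of the Monge-Ampere measures (13.1, local part)
-/

set_option autoImplicit false

namespace Pool.Agent.Helper29.AM

open MeasureTheory Set Filter Topology
open scoped ComplexOrder

variable {n : ℕ} {Ω : Set (V n)} {p q χ : V n → ℝ}

theorem l4_two_le : (2 : WithTop ℕ∞) ≤ ((⊤ : ℕ∞) : WithTop ℕ∞) := by
  show ((2 : ℕ∞) : WithTop ℕ∞) ≤ _
  exact WithTop.coe_le_coe.2 le_top

theorem l4_cont_mul {U : Set (V n)} (hU : IsOpen U) {χ F : V n → ℝ} (hχ : Continuous χ)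
    (hs : tsupport χ ⊆ U) (hF : ContinuousOn F U) : Continuous fun z => χ z * F z := by
  rw [continuous_iff_continuousAt]
  intro z
  by_cases hz : z ∈ U
  · exact hχ.continuousAt.mul (hF.continuousAt (hU.mem_nhds hz))
  · have h1 : z ∈ (tsupport χ)ᶜ := fun h => hz (hs h)
    have h2 : (fun z => χ z * F z) =ᶠ[𝓝 z] fun _ => 0 := by
      filter_upwards [(isClosed_tsupport χ).isOpen_compl.mem_nhds h1] with y hy
      rw [image_eq_zero_of_notMem_tsupport hy, zero_mul]
    exact continuousAt_const.congr h2.symm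

theorem l4_integrable_mul {U : Set (V n)} (hU : IsOpen U) {χ F : V n → ℝ} (hχ : Continuous χ)
    (hc : HasCompactSupport χ) (hs : tsupport χ ⊆ U) (hF : ContinuousOn F U) :
    Integrable fun z => χ z * F z :=
  (l4_cont_mul hU hχ hs hF).integrable_of_hasCompactSupport hc.mul_right

theorem l4_eventually_shr (hΩ : IsOpen Ω) {K : Set (V n)} (hK : IsCompact K) (hKΩ : K ⊆ Ω) :
    ∀ᶠ ε : ℝ in 𝓝[>] 0, K ⊆ shr Ω ε := by
  obtain ⟨δ, hδ, hδΩ⟩ := hK.exists_cthickening_subset_open hΩ hKΩ
  have h1 : Ioc (0 : ℝ) δ ∈ 𝓝[>] (0 : ℝ) := Ioc_mem_nhdsGT hδ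
  filter_upwards [h1] with ε hε z hz
  exact (Metric.closedBall_subset_cthickening hz ε).trans
    ((Metric.cthickening_mono hε.2 K).trans hδΩ)

theorem l4_continuousOn_det {U : Set (V n)} {H : V n → Mat n}
    (h : ∀ j k, ContinuousOn (fun z => H z j k) U) : ContinuousOn (fun z => (H z).det.re) U := by
  have h1 : ContinuousOn H U := by
    refine continuousOn_pi.2 fun j => continuousOn_pi.2 fun k => h j k
  exact Complex.continuous_re.comp_continuousOn
    ((Continuous.matrix_det continuous_id).comp_continuousOn h1)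

theorem l4_continuousOn_adjugate {U : Set (V n)} {H : V n → Mat n}
    (h : ∀ j k, ContinuousOn (fun z => H z j k) U) (j k : Fin n) :
    ContinuousOn (fun z => (H z).adjugate j k) U := by
  have h1 : ContinuousOn H U := by
    refine continuousOn_pi.2 fun j => continuousOn_pi.2 fun k => h j k
  have h2 : Continuous fun M : Mat n => M.adjugate j k :=
    (Continuous.matrix_adjugate continuous_id).matrix_elem j k
  exact h2.comp_continuousOn h1

theorem l4_continuousOn_trace {U : Set (V n)} {P H : V n → Mat n}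
    (hP : ∀ j k, ContinuousOn (fun z => P z j k) U)
    (h : ∀ j k, ContinuousOn (fun z => H z j k) U) :
    ContinuousOn (fun z => (Matrix.trace (P z * H z)).re) U := by
  refine Complex.continuous_re.comp_continuousOn ?_
  simp only [Matrix.trace, Matrix.diag, Matrix.mul_apply]
  refine continuousOn_finsetSum _ fun j _ => continuousOn_finsetSum _ fun k _ => ?_
  exact (hP j k).mul (h k j)

theorem l4_contDiffOn_adjugate {U : Set (V n)} {H : V n → Mat n}
    (h : ∀ j k, ContDiffOn ℝ (⊤ : ℕ∞) (fun z => H z j k) U) (j k : Fin n) :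
    ContDiffOn ℝ (⊤ : ℕ∞) (fun z => (H z).adjugate j k) U := by
  simp only [Matrix.adjugate_apply, Matrix.det_apply]
  refine ContDiffOn.sum fun σ _ => ?_
  refine ContDiffOn.const_smul _ ?_
  refine contDiffOn_prod fun i _ => ?_
  by_cases hi : σ i = k
  · simp only [Matrix.updateRow_apply, hi, if_true]
    exact contDiffOn_const
  · simp only [Matrix.updateRow_apply, hi, if_false]
    exact h _ _

theorem l4_abs_trace_le {R Q : Mat n} (hQ : Q.PosSemidef) {ρ : ℝ} (hρ : ∀ j k, ‖R j k‖ ≤ ρ) :
    |(Matrix.trace (R * Q)).re| ≤ n * (n * (ρ * (Matrix.trace Q).re)) := by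
  refine (Complex.abs_re_le_norm _).trans ?_
  simp only [Matrix.trace, Matrix.diag, Matrix.mul_apply]
  refine (norm_sum_le _ _).trans ?_
  have h1 : ∀ j : Fin n, ‖∑ k, R j k * Q k j‖ ≤ n * (ρ * (Matrix.trace Q).re) := by
    intro j
    refine (norm_sum_le _ _).trans ?_
    have h2 : ∀ k : Fin n, ‖R j k * Q k j‖ ≤ ρ * (Matrix.trace Q).re := by
      intro k
      rw [norm_mul]
      exact mul_le_mul (hρ j k) (norm_entry_le hQ k j) (norm_nonneg _)
        ((norm_nonneg _).trans (hρ j k))
    refine (Finset.sum_le_sum fun k _ => h2 k).trans ?_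
    simp
  refine (Finset.sum_le_sum fun j _ => h1 j).trans ?_
  simp [Matrix.trace, Matrix.diag]

theorem l4_hess_psd {U : Set (V n)} (h : SPsh U p) (hU : IsOpen U) {z : V n} (hz : z ∈ U) :
    (hess p z).PosSemidef := by
  have h2 : ContDiffAt ℝ 2 p z :=
    (h.smooth.contDiffAt (hU.mem_nhds hz)).of_le l4_two_le
  rw [posSemidef_iff_lf (hess_isHermitian h2)]
  intro v
  rw [← lev_eq_lf h2]
  exact h.psh z hz v

theorem l4_hess_combine (hΩ : IsOpen Ω) (hp : LocallyIntegrableOn p Ω volume)
    (hq : LocallyIntegrableOn q Ω volume) (a b : ℝ) {ε : ℝ} (hε : 0 < ε) {z : V n}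
    (hz : z ∈ shr Ω ε) :
    hess (fun y => Phi (fun y => a * p y + b * q y) y ε) z =
      (a : ℂ) • hess (fun y => Phi p y ε) z + (b : ℂ) • hess (fun y => Phi q y ε) z := by
  have hU := isOpen_shr hΩ ε
  have hcm : ∀ (c : ℝ) (u : V n → ℝ) (y : V n), Phi (fun y => c * u y) y ε = c * Phi u y ε := by
    intro c u y
    simp only [Phi, M]
    rw [← integral_const_mul]
    congr 1
    ext η
    ring
  have h1 : (fun y => Phi (fun y => a * p y + b * q y) y ε) =ᶠ[𝓝 z]
      fun y => a * Phi p y ε + b * Phi q y ε := by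
    filter_upwards [hU.mem_nhds hz] with y hy
    have hpa : LocallyIntegrableOn (fun y => a * p y) Ω volume := by
      have := hp.smul a
      simpa [Pi.smul_def] using this
    have hqb : LocallyIntegrableOn (fun y => b * q y) Ω volume := by
      have := hq.smul b
      simpa [Pi.smul_def] using this
    rw [Phi_add hΩ hpa hqb hε hy, hcm, hcm]
  have hpd : ContDiffAt ℝ 2 (fun y => Phi p y ε) z :=
    (((contDiffOn_Phi_left hΩ hp hε).contDiffAt (hU.mem_nhds hz))).of_le l4_two_le
  have hqd : ContDiffAt ℝ 2 (fun y => Phi q y ε) z :=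
    (((contDiffOn_Phi_left hΩ hq hε).contDiffAt (hU.mem_nhds hz))).of_le l4_two_le
  rw [hess_congr h1, hess_add (contDiffAt_const.mul hpd) (contDiffAt_const.mul hqd),
    hess_const_mul a hpd, hess_const_mul b hqd]

theorem det_lower (hΩ : IsOpen Ω) (hp : SPsh Ω p) (hq : PSHd Ω q) {s : ℝ}
    (hs0 : 0 ≤ s) (hs1 : s ≤ 1) (hχ : Tst Ω χ) {L : ℝ}
    (hL : Tendsto (fun ε : ℝ => ∫ z, χ z *
      (hess (fun y => Phi (fun y => (1 - s) * p y + s * q y) y ε) z).det.re) (𝓝[>] 0) (𝓝 L)) :
    (1 - s) ^ n * (∫ z, χ z * (hess p z).det.re) +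
      s * (1 - s) ^ (n - 1) * pair (fun z => (hess p z).adjugate) q χ ≤ L := by
  have hpi : LocallyIntegrableOn p Ω volume := (SPsh.pshd hΩ hp).int
  have hqi : LocallyIntegrableOn q Ω volume := hq.int
  have hK : IsCompact (tsupport χ) := hχ.cpt
  have hχc : Continuous χ := hχ.smooth.continuous
  have h2 : ∀ {u : V n → ℝ}, LocallyIntegrableOn u Ω volume → ∀ {ε : ℝ}, 0 < ε → ∀ j k,
      ContinuousOn (fun z => hess (fun y => Phi u y ε) z j k) (shr Ω ε) := by
    intro u hu ε hε j k
    exact (contDiffOn_hess (isOpen_shr hΩ ε) (contDiffOn_Phi_left hΩ hu hε) j k).continuousOn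
  have hadj : ∀ j k, ContDiffOn ℝ (⊤ : ℕ∞) (fun z => (hess p z).adjugate j k) Ω :=
    l4_contDiffOn_adjugate fun j k => contDiffOn_hess hΩ hp.smooth j k
  have hε0 : ∀ᶠ ε : ℝ in 𝓝[>] 0, 0 < ε ∧ tsupport χ ⊆ shr Ω ε := by
    filter_upwards [self_mem_nhdsWithin, l4_eventually_shr hΩ hK hχ.sub] with ε h1 h2
    exact ⟨h1, h2⟩
  -- the lower bound for fixed `ε`
  have hlow : ∀ᶠ ε : ℝ in 𝓝[>] 0,
      (1 - s) ^ n * (∫ z, χ z * (hess (fun y => Phi p y ε) z).det.re) +
        s * (1 - s) ^ (n - 1) * ∫ z, χ z * (Matrix.trace ((hess (fun y => Phi p y ε) z).adjugate *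
          hess (fun y => Phi q y ε) z)).re ≤
      ∫ z, χ z * (hess (fun y => Phi (fun y => (1 - s) * p y + s * q y) y ε) z).det.re := by
    filter_upwards [hε0] with ε hε
    have hU := isOpen_shr hΩ ε
    have hi1 : Integrable fun z => χ z * (hess (fun y => Phi p y ε) z).det.re :=
      l4_integrable_mul hU hχc hχ.cpt hε.2 (l4_continuousOn_det (h2 hpi hε.1))
    have hi2 : Integrable fun z => χ z * (Matrix.trace ((hess (fun y => Phi p y ε) z).adjugate *
          hess (fun y => Phi q y ε) z)).re :=
      l4_integrable_mul hU hχc hχ.cpt hε.2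
        (l4_continuousOn_trace (l4_continuousOn_adjugate (h2 hpi hε.1)) (h2 hqi hε.1))
    have hsum : LocallyIntegrableOn (fun y => (1 - s) * p y + s * q y) Ω volume := by
      have ha := hpi.smul (1 - s)
      have hb := hqi.smul s
      have := ha.add hb
      simp only [Pi.smul_def, smul_eq_mul] at this
      exact this
    have hi3 : Integrable fun z => χ z *
        (hess (fun y => Phi (fun y => (1 - s) * p y + s * q y) y ε) z).det.re :=
      l4_integrable_mul hU hχc hχ.cpt hε.2 (l4_continuousOn_det (h2 hsum hε.1))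
    rw [← integral_const_mul, ← integral_const_mul, ← integral_add (hi1.const_mul _)
      (hi2.const_mul _)]
    refine integral_mono ((hi1.const_mul _).add (hi2.const_mul _)) hi3 fun z => ?_
    show (1 - s) ^ n * (χ z * (hess (fun y => Phi p y ε) z).det.re) +
        s * (1 - s) ^ (n - 1) * (χ z * (Matrix.trace ((hess (fun y => Phi p y ε) z).adjugate *
          hess (fun y => Phi q y ε) z)).re) ≤ _
    by_cases hz : z ∈ tsupport χ
    · have hzs := hε.2 hz
      have e1 := l4_hess_combine hΩ hpi hqi (1 - s) s hε.1 hzs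
      have e2 := det_convex_ge (l4_hess_psd (PSHd.mollify hΩ (SPsh.pshd hΩ hp) hε.1) hU hzs)
        (l4_hess_psd (PSHd.mollify hΩ hq hε.1) hU hzs) hs0 hs1
      rw [← e1] at e2
      have e3 := mul_le_mul_of_nonneg_left e2 (hχ.nonneg z)
      refine le_trans (le_of_eq ?_) e3
      ring
    · rw [image_eq_zero_of_notMem_tsupport hz]
      simp
  -- limits
  have hA := tendsto_integral_det hΩ hp.smooth hχ
  have hB1 := tendsto_pair_mollify hΩ hadj hqi hχ
  have hT := tendsto_pair_mollify hΩ (P := fun _ => (1 : Mat n)) (fun j k => contDiffOn_const)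
    hqi hχ
  have hB : Tendsto (fun ε : ℝ => ∫ z, χ z * (Matrix.trace
      ((hess (fun y => Phi p y ε) z).adjugate * hess (fun y => Phi q y ε) z)).re) (𝓝[>] 0)
      (𝓝 (pair (fun z => (hess p z).adjugate) q χ)) := by
    have hd : Tendsto (fun ε : ℝ => (∫ z, χ z * (Matrix.trace
        ((hess (fun y => Phi p y ε) z).adjugate * hess (fun y => Phi q y ε) z)).re) -
        ∫ z, (Matrix.trace ((hess p z).adjugate * hess (fun y => Phi q y ε) z)).re * χ z)
        (𝓝[>] 0) (𝓝 0) := by
      rw [Metric.tendsto_nhds]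
      intro δ hδ
      obtain ⟨C, hC0, hC⟩ : ∃ C : ℝ, 0 ≤ C ∧ ∀ᶠ ε : ℝ in 𝓝[>] 0,
          ∫ z, (Matrix.trace ((1 : Mat n) * hess (fun y => Phi q y ε) z)).re * χ z ≤ C := by
        refine ⟨|pair (fun _ => (1 : Mat n)) q χ| + 1, by positivity, ?_⟩
        have h0 : pair (fun _ => (1 : Mat n)) q χ < |pair (fun _ => (1 : Mat n)) q χ| + 1 := by
          linarith [le_abs_self (pair (fun _ => (1 : Mat n)) q χ)]
        filter_upwards [hT.eventually (gt_mem_nhds h0)] with ε hε
        exact hε.le
      set ρ : ℝ := δ / (2 * (n * (n * (C + 1)) + 1)) with hρ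
      have hρ0 : 0 < ρ := by positivity
      have hun : ∀ᶠ ε : ℝ in 𝓝[>] 0, ∀ j k, ∀ z ∈ tsupport χ,
          ‖(hess (fun y => Phi p y ε) z).adjugate j k - (hess p z).adjugate j k‖ ≤ ρ := by
        rw [eventually_all]
        intro j
        rw [eventually_all]
        intro k
        have := Metric.tendstoUniformlyOn_iff.1
          (tendsto_adjugate_mollify hΩ hp.smooth hK hχ.sub j k) ρ hρ0
        filter_upwards [this] with ε hε z hz
        have := (hε z hz).le
        rwa [dist_comm, dist_eq_norm] at this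
      filter_upwards [hε0, hC, hun] with ε hε hCε hunε
      have hU := isOpen_shr hΩ ε
      have hi2 : Integrable fun z => χ z * (Matrix.trace ((hess (fun y => Phi p y ε) z).adjugate *
          hess (fun y => Phi q y ε) z)).re :=
        l4_integrable_mul hU hχc hχ.cpt hε.2
          (l4_continuousOn_trace (l4_continuousOn_adjugate (h2 hpi hε.1)) (h2 hqi hε.1))
      have hi3 : Integrable fun z => (Matrix.trace ((hess p z).adjugate *
          hess (fun y => Phi q y ε) z)).re * χ z := by
        have hsub : shr Ω ε ⊆ Ω := fun z hz => hz (Metric.mem_closedBall_self hε.1.le)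
        have := l4_integrable_mul hU hχc hχ.cpt hε.2
          (l4_continuousOn_trace (fun j k => ((hadj j k).continuousOn).mono hsub) (h2 hqi hε.1))
        simpa [mul_comm] using this
      have hi4 : Integrable fun z => (Matrix.trace ((1 : Mat n) *
          hess (fun y => Phi q y ε) z)).re * χ z := by
        have := l4_integrable_mul hU hχc hχ.cpt hε.2
          (l4_continuousOn_trace (P := fun _ => (1 : Mat n)) (fun j k => continuousOn_const)
            (h2 hqi hε.1))
        simpa [mul_comm] using this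
      rw [dist_eq_norm, sub_zero, ← integral_sub hi2 hi3]
      have hbd : ∀ z, ‖χ z * (Matrix.trace ((hess (fun y => Phi p y ε) z).adjugate *
          hess (fun y => Phi q y ε) z)).re - (Matrix.trace ((hess p z).adjugate *
          hess (fun y => Phi q y ε) z)).re * χ z‖ ≤
          n * (n * ρ) * ((Matrix.trace ((1 : Mat n) * hess (fun y => Phi q y ε) z)).re * χ z) := by
        intro z
        by_cases hz : z ∈ tsupport χ
        · have hzs := hε.2 hz
          have e1 := l4_abs_trace_le (l4_hess_psd (PSHd.mollify hΩ hq hε.1) hU hzs)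
            (R := (hess (fun y => Phi p y ε) z).adjugate - (hess p z).adjugate)
            (ρ := ρ) (fun j k => hunε j k z hz)
          rw [Matrix.sub_mul, Matrix.trace_sub, Complex.sub_re] at e1
          have e2 : χ z * (Matrix.trace ((hess (fun y => Phi p y ε) z).adjugate *
            hess (fun y => Phi q y ε) z)).re - (Matrix.trace ((hess p z).adjugate *
            hess (fun y => Phi q y ε) z)).re * χ z =
            χ z * ((Matrix.trace ((hess (fun y => Phi p y ε) z).adjugate *
            hess (fun y => Phi q y ε) z)).re - (Matrix.trace ((hess p z).adjugate *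
            hess (fun y => Phi q y ε) z)).re) := by ring
          rw [e2, norm_mul, Real.norm_of_nonneg (hχ.nonneg z), Real.norm_eq_abs]
          refine (mul_le_mul_of_nonneg_left e1 (hχ.nonneg z)).trans (le_of_eq ?_)
          rw [Matrix.one_mul]
          ring
        · rw [image_eq_zero_of_notMem_tsupport hz]
          simp
      refine (norm_integral_le_of_norm_le (hi4.const_mul _) (ae_of_all _ hbd)).trans_lt ?_
      rw [integral_const_mul]
      have h5 : (n : ℝ) * (n * ρ) * ∫ z, (Matrix.trace ((1 : Mat n) *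
          hess (fun y => Phi q y ε) z)).re * χ z ≤ n * (n * ρ) * C :=
        mul_le_mul_of_nonneg_left hCε (by positivity)
      refine h5.trans_lt ?_
      have h6 : (n : ℝ) * (n * ρ) * C ≤ ρ * (n * (n * (C + 1)) + 1) := by
        have : 0 ≤ ρ * (n * n) := by positivity
        nlinarith [hρ0.le]
      refine h6.trans_lt ?_
      rw [hρ]
      have h7 : (0 : ℝ) < n * (n * (C + 1)) + 1 := by positivity
      rw [div_mul_eq_mul_div, div_lt_iff₀ (by positivity)]
      nlinarith
    have := hd.add hB1
    simpa using this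
  have hlim := (hA.const_mul ((1 - s) ^ n)).add (hB.const_mul (s * (1 - s) ^ (n - 1)))
  exact le_of_tendsto_of_tendsto hlim hL hlow

end Pool.Agent.Helper29.AM
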