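import Pool.Agent.Helper64.AM.L3
import Pool.Agent.Helper29.AM.LA2

/-!
# Block AM-13f: rank one perturbations of the adjugate

`H > 0` hermitian, `M = adj H = det H • H⁻¹ > 0`, `M⁻¹ = H / det H`, `det M = (det H)^{n-1}`
(`Matrix.det_adjugate`). `rk v = v̄ vᵀ` (`Matrix.vecMulVec (star v) v`); `trace (rk v * K) = ∑ K_{jk} v_j v̄_k`.
`det_adj_add_rk`: rank one update of the determinant (`Matrix.det_add_replicateCol_mul_replicateRow` or
`det_one_add_mul_comm`): `det (M + x v̄ vᵀ) = det M (1 + x vᵀ M⁻¹ v̄) = (det H)^{n-1} (1 + x lf H v / det H)`.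
`posSemidef_adj_add_rk`: for `x ≥ 0` clear. For `x < 0`: Schur complement
(`Matrix.PosDef.fromBlocks₁₁`, `fromBlocks₂₂`: the block matrix `[M, v̄; vᵀ, 1/|x|]` is positive semidefinite iff
`1/|x| - vᵀM⁻¹v̄ ≥ 0` iff `M - |x| v̄vᵀ ≥ 0`), or Cauchy-Schwarz for the form of `M⁻¹`.
`H` is hermitian so `∑ H_{jk} v_j v̄_k` is real, equal to `lf H v`. About 80 lines.
-/

set_option autoImplicit false

namespace Pool.Agent.Helper29.AM

open MeasureTheory Set Filter Topology
open scoped ComplexOrder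

variable {n : ℕ}

theorem trace_rk_mul (K : Mat n) (v : V n) : (Matrix.trace (rk v * K)).re = lf K v := by
  unfold lf Matrix.trace rk
  congr 1
  rw [Finset.sum_comm]
  refine Finset.sum_congr rfl fun k _ => ?_
  rw [Matrix.diag_apply, Matrix.mul_apply]
  refine Finset.sum_congr rfl fun j _ => ?_
  ring

private theorem det_real92 {H : Mat n} (hH : H.PosDef) : 0 < H.det.re ∧ H.det = (H.det.re : ℂ) := by
  have h := Complex.pos_iff.1 hH.det_pos
  refine ⟨h.1, ?_⟩
  apply Complex.ext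
  · simp
  · simp [← h.2]

private theorem rk_eq92 (v : V n) : rk v =
    Matrix.replicateCol Unit (fun k => (starRingEnd ℂ) (v k)) * Matrix.replicateRow Unit (fun j => v j) := by
  ext k j
  rw [Matrix.mul_apply]
  simp [rk, mul_comm]

private theorem adj_inv92 {H : Mat n} (hH : H.PosDef) : (H.adjugate)⁻¹ = (H.det)⁻¹ • H := by
  have hd : H.det ≠ 0 := hH.det_pos.ne'
  apply Matrix.inv_eq_right_inv
  rw [Matrix.mul_smul, Matrix.adjugate_mul, smul_smul, inv_mul_cancel₀ hd, one_smul]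

private theorem lf_real92 {H : Mat n} (hH : H.IsHermitian) (v : V n) :
    ∑ j, ∑ k, v j * H j k * (starRingEnd ℂ) (v k) = (lf H v : ℂ) := by
  have h0 : ∑ j, ∑ k, v j * H j k * (starRingEnd ℂ) (v k) = ∑ j, ∑ k, H j k * v j * (starRingEnd ℂ) (v k) :=
    Finset.sum_congr rfl fun j _ => Finset.sum_congr rfl fun k _ => by ring
  rw [h0]
  unfold lf
  have h1 : (starRingEnd ℂ) (∑ j, ∑ k, H j k * v j * (starRingEnd ℂ) (v k)) =
      ∑ j, ∑ k, H j k * v j * (starRingEnd ℂ) (v k) := by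
    rw [map_sum]
    simp only [map_sum, map_mul, Complex.conj_conj]
    rw [Finset.sum_comm]
    refine Finset.sum_congr rfl fun j _ => Finset.sum_congr rfl fun k _ => ?_
    have h2 : (starRingEnd ℂ) (H k j) = H j k := hH.apply j k
    rw [h2]
    ring
  exact (Complex.conj_eq_iff_re.1 h1).symm

private theorem row_inv_col92 {H : Mat n} (hH : H.PosDef) (v : V n) :
    Matrix.replicateRow Unit (fun j => v j) * (H.adjugate)⁻¹ *
      Matrix.replicateCol Unit (fun k => (starRingEnd ℂ) (v k)) =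
      Matrix.of (fun (_ : Unit) (_ : Unit) => ((lf H v / H.det.re : ℝ) : ℂ)) := by
  ext a b
  rw [adj_inv92 hH, Matrix.mul_smul, Matrix.smul_mul, Matrix.smul_apply, Matrix.mul_apply]
  simp only [Matrix.mul_apply, Matrix.replicateRow_apply, Matrix.replicateCol_apply, Matrix.of_apply, smul_eq_mul,
    Finset.sum_mul]
  rw [Finset.sum_comm, lf_real92 hH.isHermitian, (det_real92 hH).2]
  push_cast
  simp only [Complex.ofReal_re]
  rw [div_eq_inv_mul]

theorem det_adj_add_rk {H : Mat n} (hH : H.PosDef) (v : V n) (x : ℝ) :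
    (H.adjugate + (x : ℂ) • rk v).det.re = H.det.re ^ (n - 1) * (1 + x * lf H v / H.det.re) := by
  have hd : H.det ≠ 0 := hH.det_pos.ne'
  have hA : IsUnit H.adjugate.det := by
    rw [Matrix.det_adjugate]
    exact (IsUnit.mk0 _ hd).pow _
  have h1 : H.adjugate + (x : ℂ) • rk v = H.adjugate +
      Matrix.replicateCol Unit (fun k => (x : ℂ) * (starRingEnd ℂ) (v k)) * Matrix.replicateRow Unit (fun j => v j) := by
    congr 1
    rw [rk_eq92, ← Matrix.smul_mul]
    rfl
  have h2 : Matrix.replicateCol Unit (fun k => (x : ℂ) * (starRingEnd ℂ) (v k)) =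
      (x : ℂ) • Matrix.replicateCol Unit (fun k => (starRingEnd ℂ) (v k)) := rfl
  have h3 : (H.adjugate + (x : ℂ) • rk v).det =
      ((H.det.re ^ (n - 1) * (1 + x * lf H v / H.det.re) : ℝ) : ℂ) := by
    rw [h1, Matrix.det_add_replicateCol_mul_replicateRow hA, h2, Matrix.mul_smul, row_inv_col92 hH,
      Matrix.det_adjugate, Fintype.card_fin, Matrix.det_unique (n := Unit)]
    simp only [Matrix.add_apply, Matrix.one_apply_eq, Matrix.smul_apply, Matrix.of_apply, smul_eq_mul]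
    rw [(det_real92 hH).2]
    push_cast
    simp only [Complex.ofReal_re]
    ring
  rw [h3, Complex.ofReal_re]

theorem posSemidef_adj_add_rk {H : Mat n} (hH : H.PosDef) (v : V n) {x : ℝ}
    (hx : 0 ≤ 1 + x * lf H v / H.det.re) : (H.adjugate + (x : ℂ) • rk v).PosSemidef := by
  have hM : H.adjugate.PosDef := by
    have h1 : H.adjugate = H.det • H⁻¹ := by
      rw [Matrix.inv_def, Ring.inverse_eq_inv', smul_smul, mul_inv_cancel₀ hH.det_pos.ne', one_smul]
    rw [h1]
    exact hH.inv.smul hH.det_pos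
  have hrow : (Matrix.replicateCol Unit (fun k => (starRingEnd ℂ) (v k))).conjTranspose =
      Matrix.replicateRow Unit (fun j => v j) := by
    ext a b
    simp [Matrix.conjTranspose_apply]
  rcases le_or_gt 0 x with h0 | h0
  · have hrk : (rk v).PosSemidef := by
      rw [rk_eq92, ← hrow]
      exact Matrix.posSemidef_self_mul_conjTranspose _
    exact hM.posSemidef.add (hrk.smul (Complex.zero_le_real.2 h0))
  · have hy : 0 < -x := by linarith
    have hy' : (0 : ℂ) < ((-x)⁻¹ : ℝ) := Complex.zero_lt_real.2 (inv_pos.2 hy)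
    have hD : (((-x)⁻¹ : ℝ) : ℂ) • (1 : Matrix Unit Unit ℂ) |>.PosDef := Matrix.PosDef.one.smul hy'
    let i1 : Invertible H.adjugate := hM.isUnit.invertible
    let i2 : Invertible ((((-x)⁻¹ : ℝ) : ℂ) • (1 : Matrix Unit Unit ℂ)) := hD.isUnit.invertible
    have h1 := Matrix.PosDef.fromBlocks₁₁ (Matrix.replicateCol Unit (fun k => (starRingEnd ℂ) (v k)))
      ((((-x)⁻¹ : ℝ) : ℂ) • (1 : Matrix Unit Unit ℂ)) hM
    have h2 := Matrix.PosDef.fromBlocks₂₂ H.adjugate (Matrix.replicateCol Unit (fun k => (starRingEnd ℂ) (v k))) hD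
    have h3 : ((((-x)⁻¹ : ℝ) : ℂ) • (1 : Matrix Unit Unit ℂ) -
        (Matrix.replicateCol Unit (fun k => (starRingEnd ℂ) (v k))).conjTranspose * (H.adjugate)⁻¹ *
          Matrix.replicateCol Unit (fun k => (starRingEnd ℂ) (v k))).PosSemidef := by
      rw [hrow, row_inv_col92 hH]
      have h4 : (((-x)⁻¹ : ℝ) : ℂ) • (1 : Matrix Unit Unit ℂ) -
          Matrix.of (fun (_ : Unit) (_ : Unit) => ((lf H v / H.det.re : ℝ) : ℂ)) =
          Matrix.diagonal (fun _ : Unit => (((-x)⁻¹ - lf H v / H.det.re : ℝ) : ℂ)) := by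
        ext a b
        simp [Matrix.sub_apply, Matrix.smul_apply]
      rw [h4, Matrix.posSemidef_diagonal_iff]
      intro _
      rw [Complex.zero_le_real, sub_nonneg, inv_eq_one_div, le_div_iff₀ hy]
      have h7 : x * lf H v / H.det.re = x * (lf H v / H.det.re) := mul_div_assoc _ _ _
      rw [h7] at hx
      linarith
    have h5 := h2.1 (h1.2 h3)
    have h6 : ((((-x)⁻¹ : ℝ) : ℂ) • (1 : Matrix Unit Unit ℂ))⁻¹ = (-x : ℂ) • (1 : Matrix Unit Unit ℂ) := by
      apply Matrix.inv_eq_right_inv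
      rw [Matrix.smul_mul, Matrix.mul_smul, one_mul, smul_smul]
      push_cast
      rw [inv_mul_cancel₀, one_smul]
      exact_mod_cast hy.ne'
    rw [h6, hrow, Matrix.mul_smul, Matrix.smul_mul, Matrix.mul_one, ← rk_eq92, neg_smul, sub_neg_eq_add] at h5
    exact h5

/-- a lower bound for the `n`-th root -/
theorem rpow_ge {n : ℕ} (hn : 0 < n) {x : ℝ} (hx : |x| ≤ 1 / 2) :
    1 + x / n - x ^ 2 ≤ (1 + x) ^ ((1 : ℝ) / n) := by
  have hx1 := abs_le.1 hx
  have hpos : 0 < 1 + x := by linarith [hx1.1]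
  have hn' : (1 : ℝ) ≤ n := by exact_mod_cast hn
  have hlog : x - x ^ 2 ≤ Real.log (1 + x) := by
    rw [Real.le_log_iff_exp_le hpos]
    rcases le_total 0 x with h0 | h0
    · have h1 := Real.add_one_le_exp (-(x - x ^ 2))
      have h2 : Real.exp (x - x ^ 2) * Real.exp (-(x - x ^ 2)) = 1 := by
        rw [← Real.exp_add, add_neg_cancel, Real.exp_zero]
      have h3 := Real.exp_pos (x - x ^ 2)
      have h4 : Real.exp (x - x ^ 2) * (-(x - x ^ 2) + 1) ≤ 1 :=
        (mul_le_mul_of_nonneg_left h1 h3.le).trans_eq h2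
      have h5 : 1 ≤ (1 + x) * (-(x - x ^ 2) + 1) := by
        have h6 : (1 + x) * (-(x - x ^ 2) + 1) = 1 + x ^ 3 := by ring
        rw [h6]
        have : 0 ≤ x ^ 3 := pow_nonneg h0 3
        linarith
      have h7 : 0 < -(x - x ^ 2) + 1 := by nlinarith
      exact le_of_mul_le_mul_right (h4.trans h5) h7
    · obtain ⟨t, ht⟩ : ∃ t, t = -x := ⟨_, rfl⟩
      have ht0 : 0 ≤ t := by rw [ht]; linarith
      have ht1 : t ≤ 1 / 2 := by rw [ht]; linarith [hx1.1]
      have e1 : x - x ^ 2 = -(t + t ^ 2) := by rw [ht]; ring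
      have e2 : 1 + x = 1 - t := by rw [ht]; ring
      rw [e1, e2]
      have hs : 0 ≤ t + t ^ 2 := by positivity
      have h1 := Real.quadratic_le_exp_of_nonneg hs
      have h2 : Real.exp (t + t ^ 2) * Real.exp (-(t + t ^ 2)) = 1 := by
        rw [← Real.exp_add, add_neg_cancel, Real.exp_zero]
      have h3 := Real.exp_pos (-(t + t ^ 2))
      have h4 : (1 + (t + t ^ 2) + (t + t ^ 2) ^ 2 / 2) * Real.exp (-(t + t ^ 2)) ≤ 1 :=
        (mul_le_mul_of_nonneg_right h1 h3.le).trans_eq h2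
      have h5 : 1 ≤ (1 + (t + t ^ 2) + (t + t ^ 2) ^ 2 / 2) * (1 - t) := by
        have h6 : (1 + (t + t ^ 2) + (t + t ^ 2) ^ 2 / 2) * (1 - t) - 1 =
            t ^ 2 * (1 / 2 - t / 2 - t ^ 2 / 2 - t ^ 3 / 2) := by ring
        have h7 : 0 ≤ 1 / 2 - t / 2 - t ^ 2 / 2 - t ^ 3 / 2 := by
          have h8 : t ^ 2 ≤ 1 / 4 := by nlinarith
          have h9 : t ^ 3 ≤ 1 / 8 := by nlinarith
          linarith
        have h10 : 0 ≤ t ^ 2 * (1 / 2 - t / 2 - t ^ 2 / 2 - t ^ 3 / 2) := mul_nonneg (sq_nonneg t) h7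
        linarith
      have h6 : 0 < 1 + (t + t ^ 2) + (t + t ^ 2) ^ 2 / 2 := by positivity
      exact le_of_mul_le_mul_left (h4.trans h5) h6
  rw [Real.rpow_def_of_pos hpos]
  have h1 := Real.add_one_le_exp (Real.log (1 + x) * (1 / n))
  have h2 : (x - x ^ 2) * (1 / n) ≤ Real.log (1 + x) * (1 / n) :=
    mul_le_mul_of_nonneg_right hlog (by positivity)
  have h3 : (x - x ^ 2) * (1 / n) = x / n - x ^ 2 / n := by ring
  have h4 : x ^ 2 / n ≤ x ^ 2 := div_le_self (sq_nonneg x) hn'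
  linarith

end Pool.Agent.Helper29.AM
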